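import Pool.Agent.H42.V0B.Ljh

/-!
# Natural labels with companions: the codes of the own path

`NzW`: natural labels of a window of a list, with companions at all windows of the list. `jt_nat`:
their codes of all orders are few bits given the jets of the base and the record at the last window.
-/

set_option autoImplicit false

namespace Pool.NPZ

open Finset Real MvPolynomial
open Pool.Agent.H49.Ent Pool.Agent.H32.Dense Pool.STK Pool.KA Pool.KSAT Pool.K2S Pool.PB Pool.GEN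
open Pool.S6C Pool.RCD Pool.LA91 Pool.OWN68 Pool.CHT Pool.AJW Pool.V0F Pool.AVG96
open Pool.AVG57 (jet2)
open Pool.GRD (LbP)
open Pool.UNJ (ceI Tub)
open Pool.AJX (LbX FwX)
open Pool.ALT (Fml DpI NzF NzQ NzL nzq_vad AlpD)
open Pool.V0N (NzP NzM nzp_dif)
open Pool.AVG71 (cod)

variable {m : ℕ}

/-- The rows of the labels of a family: at least `h` of each bit of the own height, `d` off. -/
def RowZ (S : PCl m) (Θ : Fml m) (c : ℕ → Fin m) (r : ℕ) (κ : Fin m) (v P q h d : ℝ) : Prop :=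
  ∀ sa sb : ℝ, P ≤ sa → sa ≤ sb → sb ≤ P + q →
    Bas S (fun J F A => ∀ (V : Type) (z : PtT F → V) (z' : LnT F → V)
      (G : V → MvPolynomial (Option (Fin m)) ℝ), Θ J F A V z z' G →
      CH (Pool.Agent.H49.Ent.cond F.p A True)
        (fun ω => ⌊(2 : ℝ) ^ (sb * J) * ojet F κ 0 (G (z' (slam F ⌊v * J⌋₊ ω))) ω⌋)
        (fun ω => (⌊(2 : ℝ) ^ (sa * J) * ojet F κ 0 (G (z' (slam F ⌊v * J⌋₊ ω))) ω⌋,
          (ceI ((range r).image c) (fun _ => J) (F.x ω),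
            (z' (slam F ⌊v * J⌋₊ ω), F.W ω)))) ≤
        ((1 - h) * (sb - sa) * Real.log 2 + d) * J)

theorem RowZ.fam {S : PCl m} {Θ Θ' : Fml m} {c : ℕ → Fin m} {r : ℕ} {κ : Fin m} {v P q h d : ℝ}
    (H : RowZ S Θ c r κ v P q h d)
    (hs : ∀ (J : ℕ) (F : Fam m J) (A : F.Ω → Prop) (V : Type) (z : PtT F → V) (z' : LnT F → V)
      (G : V → MvPolynomial (Option (Fin m)) ℝ), Θ' J F A V z z' G → Θ J F A V z z' G) :
    RowZ S Θ' c r κ v P q h d := by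
  intro sa sb h1 h2 h3
  refine Bas.mono 0 (H sa sb h1 h2 h3) ?_
  intro J _ F A h4 V z z' G hG
  exact h4 V z z' G (hs J F A V z z' G hG)

theorem RowZ.mono {S : PCl m} {Θ : Fml m} {c : ℕ → Fin m} {r : ℕ} {κ : Fin m}
    {v P q q' h d d' : ℝ} (H : RowZ S Θ c r κ v P q h d) (hq : q' ≤ q) (hd : d ≤ d') :
    RowZ S Θ c r κ v P q' h d' := by
  intro sa sb h1 h2 h3
  refine Bas.mono 0 (H sa sb h1 h2 (by linarith)) ?_
  intro J _ F A h4 V z z' G hG
  exact (h4 V z z' G hG).trans (mul_le_mul_of_nonneg_right (by linarith) (Nat.cast_nonneg J))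

/-- The rows of the natural labels. -/
theorem alpD_rowZ {S : PCl m} {Ψ : Fml m} {c : ℕ → Fin m} {r₀ : ℕ} {κ : Fin m} {D : ℕ}
    {w v a p q r n h d p₁ p₂ eN uN pN : ℝ}
    (hpos : ∀ (τ : ℝ) (J : ℕ) (F : Fam m J) (A : F.Ω → Prop), S.St τ J F A → 0 < Pe F.p A)
    (H : AlpD S Ψ c r₀ κ D w v a p q r n h d p₁ p₂ eN uN pN) {d' : ℝ} (hd : d < d') :
    RowZ S (NzF Ψ c r₀ κ D D D w v p₁ p₂ eN uN pN) c r₀ κ v p r h d' := by
  intro sa sb h1 h2 h3
  refine Bas.mono 0 (H.row0 hpos h1 h2 h3 (δ := d' - d) (by linarith)) ?_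
  intro J _ F A h4 V z z' G hG
  exact (h4 V z z' G hG).trans (mul_le_mul_of_nonneg_right (by linarith) (Nat.cast_nonneg J))

/-- **Natural labels of the window `v i`** of a list, with companions at all windows of the list. -/
def NzW (Ψ : Fml m) (c : ℕ → Fin m) (r₀ : ℕ) (κ : Fin m) (D : ℕ) (w : ℝ) (n : ℕ)
    (v p₁ p₂ e u p : ℕ → ℝ) (i : ℕ) : Fml m := fun J F A V z z' G =>
  NzF Ψ c r₀ κ D D D w (v i) (p₁ i) (p₂ i) (e i) (u i) (p i) J F A V z z' G ∧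
  ∀ k < n, ∃ (Va : Type) (za : PtT F → Va) (za' : LnT F → Va)
    (Ga : Va → MvPolynomial (Option (Fin m)) ℝ),
    NzP Ψ c r₀ κ D w (v i) (p₁ i) (p₂ i) (e i) (u i) (p i) (v k) (p₁ k) (p₂ k) (e k) (u k) (p k)
      J F A V z z' G Va za za' Ga

section nz

variable {Ψ : Fml m} {c : ℕ → Fin m} {r₀ : ℕ} {κ : Fin m} {D : ℕ} {w : ℝ} {n : ℕ}
  {v p₁ p₂ e u p : ℕ → ℝ} {i : ℕ} {J : ℕ} {F : Fam m J} {A : F.Ω → Prop}

theorem NzW.hs (hΨs : ∀ (J : ℕ) (F : Fam m J) (A B : F.Ω → Prop) (V : Type)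
      (z : PtT F → V) (z' : LnT F → V) (G : V → MvPolynomial (Option (Fin m)) ℝ), Sub B A →
      Ψ J F A V z z' G → Ψ J F B V z z' G) (J : ℕ) (F : Fam m J) (A B : F.Ω → Prop) (V : Type)
    (z : PtT F → V) (z' : LnT F → V) (G : V → MvPolynomial (Option (Fin m)) ℝ) (hB : Sub B A)
    (h : NzW Ψ c r₀ κ D w n v p₁ p₂ e u p i J F A V z z' G) :
    NzW Ψ c r₀ κ D w n v p₁ p₂ e u p i J F B V z z' G := by
  obtain ⟨h1, h2⟩ := h
  refine ⟨NzF.hs hΨs J F A B V z z' G hB h1, fun k hk => ?_⟩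
  obtain ⟨Va, za, za', Ga, h3⟩ := h2 k hk
  exact ⟨Va, za, za', Ga, h3.hs hΨs hB⟩

/-- The labels of a list. -/
theorem nzm_nzw {V : ℕ → Type} {z : ∀ i, PtT F → V i} {z' : ∀ i, LnT F → V i}
    {G : ∀ i, V i → MvPolynomial (Option (Fin m)) ℝ}
    (h : NzM Ψ c r₀ κ D w n v p₁ p₂ e u p J F A V z z' G) (hi : i < n) :
    NzW Ψ c r₀ κ D w n v p₁ p₂ e u p i J F A (V i) (z i) (z' i) (G i) :=
  ⟨h.nzf hi, fun k hk => ⟨V k, z k, z' k, G k, h.nzp hi hk⟩⟩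

/-- The pair in the other order. -/
theorem nzp_symm {w v p₁ p₂ e u p a pa₁ pa₂ ea ua pa : ℝ}
    {V : Type} {z : PtT F → V} {z' : LnT F → V} {G : V → MvPolynomial (Option (Fin m)) ℝ}
    {Va : Type} {za : PtT F → Va} {za' : LnT F → Va}
    {Ga : Va → MvPolynomial (Option (Fin m)) ℝ}
    (h : NzP Ψ c r₀ κ D w v p₁ p₂ e u p a pa₁ pa₂ ea ua pa J F A V z z' G Va za za' Ga) :
    NzP Ψ c r₀ κ D w a pa₁ pa₂ ea ua pa v p₁ p₂ e u p J F A Va za za' Ga V z z' G := by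
  obtain ⟨V₀, V₁, V₂, z₀, z₀', G₀, P₁, z₁, z₁', G₁, P₂, z₂, z₂', H, f, Y₁, Y₂, Q₁, y₁, y₁', B₁, Q₂,
    y₂, y₂', B₂, fa, a1, a2, a3⟩ := h
  exact ⟨V₀, Y₁, Y₂, z₀, z₀', G₀, Q₁, y₁, y₁', B₁, Q₂, y₂, y₂', B₂, fa, V₁, V₂, P₁, z₁, z₁', G₁, P₂,
    z₂, z₂', H, f, a1, a3, a2⟩

end nz

/-- A smaller precision. -/
theorem VaD.mono {J : ℕ} {F : Fam m J} {c : ℕ → Fin m} {r : ℕ} {κ : Fin m} {K K' : ℕ}
    {v w pa pb : ℝ} {A : F.Ω → Prop} {V : Type} {z' : LnT F → V}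
    {G : V → MvPolynomial (Option (Fin m)) ℝ} (h : VaD F c r κ K v w pa A z' G) (hK : K ≤ K')
    (hp : pb ≤ pa) : VaD F c r κ K' v w pb A z' G := by
  obtain ⟨Va, za, za', Da, h1, h2, h3, h4⟩ := h
  exact ⟨Va, za, za', Da, fun y => (h1 y).trans hK, h2, h3, fun ω hω => (h4 ω hω).trans
    (inv_mono (Nat.floor_le_floor (mul_le_mul_of_nonneg_right hp (Nat.cast_nonneg J))))⟩

/-- A finer code. -/
theorem VaD.fine {J : ℕ} {F : Fam m J} {c : ℕ → Fin m} {r : ℕ} {κ : Fin m} {K : ℕ}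
    {v w pa : ℝ} {A : F.Ω → Prop} {V₁ V : Type} {z₁' : LnT F → V₁}
    {G₁ : V₁ → MvPolynomial (Option (Fin m)) ℝ} (h : VaD F c r κ K v w pa A z₁' G₁)
    {z' : LnT F → V} {G : V → MvPolynomial (Option (Fin m)) ℝ} {χ : V → V₁}
    (h1 : ∀ x, χ (z' x) = z₁' x) (h2 : ∀ x, G x = G₁ (χ x)) : VaD F c r κ K v w pa A z' G := by
  obtain ⟨Va, za, za', Da, a1, a2, a3, a4⟩ := h
  refine ⟨Va, za, za', Da, a1, a2, a3, fun ω hω => ?_⟩
  rw [h2, h1]
  exact a4 ω hω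

/-- The labels of a chain. -/
theorem lbe_lbx {J : ℕ} {F : Fam m J} {c : ℕ → Fin m} {n K : ℕ} {E : ℕ → ℝ} {e w : ℝ}
    {rd p : ℕ → ℝ} {A : F.Ω → Prop} {V : Type} {z : PtT F → V} {z' : LnT F → V}
    {g : V → ℕ → MvPolynomial (Option (Fin m)) ℝ} (h : LbE F c n K E e w rd p A z z' g) :
    LbX F c 0 n K e E w rd p A z z' g := fun i _ hi => h i hi

/-- **The codes of the own path over the natural labels with companions.** -/
theorem jt_nat (D' k : ℕ) (hk : 1 ≤ k) {h : ℝ} (hh : 0 < h) (hh1 : h ≤ 1) {ε : ℝ} (hε : 0 < ε) :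
    ∃ δ : ℝ, 0 < δ ∧ ∀ {m : ℕ} {S : PCl m} {c : ℕ → Fin m} {sn : ℕ → ℝ → ℝ} {Gs : Set ℝ}
    {b o φ : ℝ}, Lad S c k sn Gs b o φ → ∀ {Ψ : Fml m} {κ : Fin m} {D : ℕ}
    {w₀ w u X sN d : ℝ} {n M i : ℕ} {vv p₁ p₂ eN uN pN : ℕ → ℝ} {im : ℕ → ℕ} {Kc : ℕ}
    {E rd : ℕ → ℝ}, 0 < u → φ ≤ δ * u → d ≤ δ * u → D * max 1 D ≤ D' → w ∈ Gs →
    b + 3 * u ≤ w → w + 3 * u ≤ o → u ≤ sN →
    (∀ (J : ℕ) (F : Fam m J) (A B : F.Ω → Prop) (V : Type) (z : PtT F → V) (z' : LnT F → V)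
      (G : V → MvPolynomial (Option (Fin m)) ℝ), Sub B A → Ψ J F A V z z' G →
      Ψ J F B V z z' G) →
    (∀ (J : ℕ) (F : Fam m J) (A : F.Ω → Prop) (V : Type) (z : PtT F → V) (z' : LnT F → V)
      (G : V → MvPolynomial (Option (Fin m)) ℝ), Ψ J F A V z z' G →
      (∀ y, (G y).totalDegree ≤ D) ∧ (∀ y, DpI ((range (k + 1)).image c) (G y)) ∧
      ∀ ω, A ω → z (ptr F J ω) = z' (slam F ⌊w₀ * J⌋₊ ω)) → w₀ ≤ w →
    -- the windows of the mesh
    vv i = w → 1 ≤ M → (∀ t ≤ M, im t < n ∧ vv (im t) ∈ Gs) → vv (im 0) = w →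
    (∀ t < M, vv (im t) ≤ vv (im (t + 1)) ∧ vv (im (t + 1)) ≤ vv (im t) + φ) →
    |vv (im M) - (w + u)| ≤ φ → vv (im M) ≤ X → X ≤ 1 →
    -- the precisions
    0 < eN i → pN i < sN → sN - φ ≤ pN i →
    (∀ t < M, sN + (vv (im t) - w) - 2 * φ ≤ pN (im t)) → sN + u ≤ pN (im M) →
    RowZ S (NzF Ψ c k κ D D D w₀ (vv i) (p₁ i) (p₂ i) (eN i) (uN i) (pN i)) c k κ w sN u h d →
    -- the labels of the chain
    (∀ l < k, 0 ≤ E l ∧ E l ≤ 1 ∧ sn l w + E l + 3 * u ≤ 1 ∧ 0 ≤ rd l ∧ rd l + u ≤ 1) →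
    (∀ e : ℝ, 0 < e → Bas S (fun J F A => ∃ (V : Type) (z : PtT F → V) (z' : LnT F → V)
      (g : V → ℕ → MvPolynomial (Option (Fin m)) ℝ),
      LbE F c k Kc E e w rd (fun l => sn l w) A z z' g)) →
    ∃ e₁ : ℝ, 0 < e₁ ∧ ∀ K₀ : ℕ, Bas S (fun J F A => ∀ (V : Type) (z : PtT F → V)
      (z' : LnT F → V) (G : V → MvPolynomial (Option (Fin m)) ℝ),
      NzW Ψ c k κ D w₀ n vv p₁ p₂ eN uN pN i J F A V z z' G → ∀ u₀ : F.Ω → ℕ → ℕ → ℤ,
      (jetQ m c 0 k b (fun l => sn l b - φ)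
        (fun l' j' => sn l' w + u + 400 * ((k : ℝ) + 2) * φ - (j' : ℝ) * w)).P K₀ e₁ J F A u₀ →
      ∃ (V₁ : Type) (z₁ : F.Ω → V₁), Cl2 (ptr F J) (vg X J F) A z₁ ∧
        ∀ σ : ℝ, 0 < σ → σ ≤ 2 ^ ((sN + u) * J) →
        CH (Pool.Agent.H49.Ent.cond F.p A True) (cod F ⌊w * J⌋₊ 0 (D' + 1) σ κ z' G)
          (fun ω => (u₀ ω, (z₁ ω, F.W ω))) ≤ ε * u * J) := by
  classical
  obtain ⟨δ₀, hδ₀, Hp⟩ := jt_core D' k hh hh1 hε
  obtain ⟨δ, hδ⟩ : ∃ δ : ℝ, δ = min (1 / (200 * ((k : ℝ) + 2))) (δ₀ / (200 * ((k : ℝ) + 2))) :=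
    ⟨_, rfl⟩
  have hk0 : (0 : ℝ) ≤ k := Nat.cast_nonneg k
  have hδ0 : 0 < δ := by
    rw [hδ]
    exact lt_min (by positivity) (by positivity)
  refine ⟨δ, hδ0, ?_⟩
  intro m S c sn Gs b o φ L Ψ κ D w₀ w u X sN d n M i vv p₁ p₂ eN uN pN im Kc E rd hu hφδ hdδ hD hw
    hbw hwo husN hΨs hΨd hw₀ hvi hM him hv0 hst hvM hvX hX1 heN hpN1 hpN2 hpNt hpNM hrow hE hlb
  have hφ := L.φ0
  have c1 : 200 * ((k : ℝ) + 2) * φ ≤ u := by
    have h1 : δ ≤ 1 / (200 * ((k : ℝ) + 2)) := by rw [hδ]; exact min_le_left _ _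
    have h2 := hφδ.trans (mul_le_mul_of_nonneg_right h1 hu.le)
    have h3 := mul_le_mul_of_nonneg_left h2 (show 0 ≤ 200 * ((k : ℝ) + 2) by positivity)
    have h4 : 200 * ((k : ℝ) + 2) * (1 / (200 * ((k : ℝ) + 2)) * u) = u := by
      field_simp
    linarith
  have c2 : ∀ x : ℝ, x ≤ δ * u → 200 * ((k : ℝ) + 2) * x ≤ δ₀ * u := by
    intro x hx
    have h1 : δ ≤ δ₀ / (200 * ((k : ℝ) + 2)) := by rw [hδ]; exact min_le_right _ _
    have h2 := hx.trans (mul_le_mul_of_nonneg_right h1 hu.le)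
    have h3 := mul_le_mul_of_nonneg_left h2 (show 0 ≤ 200 * ((k : ℝ) + 2) by positivity)
    have h4 : 200 * ((k : ℝ) + 2) * (δ₀ / (200 * ((k : ℝ) + 2)) * u) = δ₀ * u := by
      field_simp
    linarith
  have c3 := c2 φ hφδ
  have c4 := c2 d hdδ
  have hkφ : 0 ≤ (k : ℝ) * φ := by positivity
  have c1' : 200 * ((k : ℝ) * φ) + 400 * φ ≤ u := by linarith
  have c3' : 200 * ((k : ℝ) * φ) + 400 * φ ≤ δ₀ * u := by linarith
  have hd0 : d ≤ δ₀ * u / 4 := by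
    rcases le_or_gt d 0 with hd | hd
    · have : 0 < δ₀ * u := by positivity
      linarith
    · have h1 : 0 ≤ (k : ℝ) * d := by positivity
      linarith
  have hu0 := hu.le
  have hb0 := L.b0
  have ho1 := L.o1
  have hw0 : 0 ≤ w := by linarith
  have hvM' := abs_le.1 hvM
  obtain ⟨j, hj⟩ : ∃ j : ℝ, j = vv (im M) := ⟨_, rfl⟩
  have hjG : j ∈ Gs := hj ▸ (him M le_rfl).2
  have hwj : w ≤ j := by rw [hj]; linarith [hvM'.1]
  have hjo : j ≤ o := by rw [hj]; linarith [hvM'.2]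
  have hju : j ≤ w + u + φ := by rw [hj]; linarith [hvM'.2]
  have hvup : ∀ t ≤ M, vv (im t) ≤ j := by
    intro t ht
    obtain ⟨s, rfl⟩ : ∃ s, t = M - s := ⟨M - t, by omega⟩
    clear ht
    induction s with
    | zero => rw [Nat.sub_zero, hj]
    | succ s ih =>
      by_cases hs : s < M
      · have h1 := (hst (M - (s + 1)) (by omega)).1
        have h2 : M - (s + 1) + 1 = M - s := by omega
        rw [h2] at h1
        exact h1.trans ih
      · have h2 : M - (s + 1) = M - s := by omega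
        rw [h2]
        exact ih
  have hvlo : ∀ t ≤ M, w ≤ vv (im t) := by
    intro t
    induction t with
    | zero => exact fun _ => hv0.ge
    | succ t ih => exact fun ht => (ih (by omega)).trans (hst t (by omega)).1
  -- the digits
  obtain ⟨nn, hnn⟩ : ∃ nn : ℕ → ℝ, nn = fun l => sn l w + u + (60 + 50 * ((k : ℝ) - l)) * φ :=
    ⟨_, rfl⟩
  have hlk : ∀ l : ℕ, l < k → (l : ℝ) * φ + φ ≤ (k : ℝ) * φ := by
    intro l hl
    have h1 : (l : ℝ) + 1 ≤ k := by exact_mod_cast hl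
    have h2 := mul_le_mul_of_nonneg_right h1 hφ.le
    linarith
  have hn0 : ∀ l : ℕ, nn l = sn l w + u + 60 * φ + 50 * ((k : ℝ) * φ) - 50 * ((l : ℝ) * φ) := by
    intro l
    rw [hnn]
    ring
  have hl0 : ∀ l : ℕ, 0 ≤ (l : ℝ) * φ := fun l => by positivity
  have hflat : ∀ l < k, ∀ x ∈ Gs, w ≤ x → x ≤ j →
      sn l x ≤ sn l w + (x - w) + 2 * φ := by
    intro l hl x hx h1 h2
    have a := abs_le.1 (L.flat hl hx hw (by linarith) (by linarith) (by linarith) (by linarith))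
    linarith [a.2]
  have hNst : Nst k sn w (2 * φ) nn := by
    refine ⟨fun l hl => ?_, fun l hl => ?_, fun l hl l' hl' => ?_⟩
    · have := hlk l hl
      rw [hn0]
      linarith
    · have := hl0 l
      rw [hn0]
      linarith
    · have h1 := hlk l' (by omega)
      have h2 : (l' : ℝ) * φ + φ ≤ (l : ℝ) * φ := by
        have h1 : (l' : ℝ) + 1 ≤ l := by exact_mod_cast hl'
        have h2 := mul_le_mul_of_nonneg_right h1 hφ.le
        linarith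
      rw [hn0, hn0]
      linarith
  have hNst' : Nst k sn w φ nn :=
    ⟨fun i hi => by linarith [hNst.lo i hi], fun i hi => by linarith [hNst.hi i hi],
      fun i hi l hl => by linarith [hNst.ne i hi l hl]⟩
  have hlo : ∀ l < k, sn l j + 40 * φ ≤ nn l := by
    intro l hl
    have h1 := hflat l hl j hjG hwj le_rfl
    have h2 := hlk l hl
    rw [hn0]
    linarith
  -- the precisions of the mesh
  obtain ⟨pp, hpp⟩ : ∃ pp : ℕ → ℝ, pp = fun t =>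
    if t < M then sN + (vv (im t) - w) - 2 * φ else sN + u := ⟨_, rfl⟩
  have hpp1 : ∀ t < M, pp t = sN + (vv (im t) - w) - 2 * φ := fun t ht => by
    rw [hpp]
    simp only [if_pos ht]
  have hppM : pp M = sN + u := by
    rw [hpp]
    simp only [lt_irrefl, if_false]
  have hpp0 : pp 0 = sN - 2 * φ := by
    rw [hpp1 0 (by omega), hv0]
    ring
  have hppl : ∀ t ≤ M, pp t ≤ pN (im t) := by
    intro t ht
    rcases Nat.lt_or_ge t M with h1 | h1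
    · rw [hpp1 t h1]
      exact hpNt t h1
    · obtain rfl : t = M := by omega
      rw [hppM]
      exact hpNM
  have hppm : ∀ t < M, pp t ≤ pp (t + 1) := by
    intro t ht
    have h1 := (hst t ht).1
    rw [hpp1 t ht]
    rcases Nat.lt_or_ge (t + 1) M with h2 | h2
    · rw [hpp1 (t + 1) h2]
      linarith
    · obtain rfl : t + 1 = M := by omega
      rw [hppM]
      have := hvup t (by omega)
      linarith
  obtain ⟨eG, heG⟩ : ∃ eG : ℝ, eG = max (eN i) (uN i) := ⟨_, rfl⟩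
  have heG0 : 0 < eG := by rw [heG]; exact lt_max_of_lt_left heN
  have hDD : max D D * max 1 D ≤ D' := by rw [max_self]; exact hD
  have hval : ∀ τ : ℝ, 0 < τ → ∃ e₀ : ℝ, 0 < e₀ ∧ ∀ e : ℝ, 0 < e → e ≤ e₀ →
      ValH S (JnF (NzW Ψ c k κ D w₀ n vv p₁ p₂ eN uN pN i) c k Kc w e E rd (fun l => sn l w)) c 0 k
        κ w j (sN + u) nn (fun J F => ptr F J) (fun _ (F : Fam m _) => F.W) τ := by
    intro τ hτ
    obtain ⟨e₁, he₁, H⟩ := valH_mesh (S := S) (f := fun J F => ptr F J)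
      (y := fun _ (F : Fam m _) => F.W) L hk (fun J F => ⟨fun x => x, fun _ => rfl⟩) kn_W
      (κ := κ) (K' := max 1 (max D D * max 1 (max D D))) (Kc := Kc) (M := M) (v := w) (j := j)
      (N := sN + u) (W := fun t => vv (im t)) (p := pp) (n := nn) (E := E) (rd := rd) hw hjG
      (by linarith) hjo hv0 (fun t ht => ⟨(him t ht).2, hvup t ht⟩) (fun t ht => (hst t ht).1)
      hNst' (fun l hl => by linarith [hlo l hl]) (by rw [hpp0]; linarith) hppm (by rw [hppM])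
      (fun t ht => by
        have h1 := (hst t ht).2
        have h2 := hvup (t + 1) (by omega)
        rw [hpp1 t ht]
        linarith)
      (fun t ht l hl => by
        have h1 := (hst t ht).2
        have h2 := hflat l hl _ (him (t + 1) (by omega)).2 (hvlo (t + 1) (by omega))
          (hvup (t + 1) (by omega))
        have h3 := hlk l hl
        rw [hpp1 t ht, hn0]
        linarith)
      (fun l hl => (hE l hl).2.1) (fun l hl => (hE l hl).2.2.2.1) hτ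
    refine ⟨e₁, he₁, fun e he hee => H e he hee ?_⟩
    rintro J F A V z z' G g ⟨V₁, z₁, z₁', G₁, χ, hG, k1, k2, k3, k4⟩
    refine ⟨k3, fun ω hω => ?_, fun t ht1 ht2 => ?_⟩
    · have h1 := hG.1.lb.pos ω hω
      rw [hvi] at h1
      rw [Pool.OWN54.ojet_zero, k2, k1]
      refine h1.trans (inv_mono (Nat.floor_le_floor
        (mul_le_mul_of_nonneg_right ?_ (Nat.cast_nonneg J))))
      rw [hpp0]
      linarith
    · obtain ⟨Va, za, za', Ga, h1⟩ := hG.2 (im t) (him t ht2).1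
      have h2 : VaD F c k κ (max 1 (max D D * max 1 (max D D))) (vv i) (vv (im t)) (pN (im t)) A
          z₁' G₁ := nzq_vad hΨd (by rw [hvi]; exact hw₀) (by rw [hvi]; exact hvlo t ht2)
        (by linarith [hvup t ht2]) h1.nzq
      rw [hvi] at h2
      exact (h2.mono le_rfl (hppl t ht2)).fine k1 k2
  obtain ⟨e₁, he₁, H⟩ := Hp L (κ := κ) (I := (range (k + 1)).image c) (v := w) (j := j) (a := X)
    (q := u) (g₀ := u) (d := d) (P := sN) (pN := pN i) (rG := 0) (eG := eG)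
    (p := fun l => sn l b - φ) (n := nn) (E := E) (rd := rd)
    (Nf := fun l' j' => sn l' w + u + 400 * ((k : ℝ) + 2) * φ - (j' : ℝ) * w) (Kc := Kc) hw hjG
    (by linarith) hwj hjo (by rw [hj]; exact hvX) hX1 hu hu
    (fun l hl => ⟨(hE l hl).1, (hE l hl).2.1⟩)
    (fun l hl => ⟨(hE l hl).2.2.2.1, (hE l hl).2.2.2.2⟩)
    (fun l hl => by
      have h1 := (hE l hl).2.2.1
      have h2 := hl0 l
      rw [hn0]
      linarith) hNst hlo
    (fun l hl => by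
      have h2 := hl0 l
      rw [hn0]
      linarith) (fun l _ => le_rfl)
    (fun l hl j' _ => by
      have h2 := hl0 l
      rw [hn0]
      linarith) hpN1 (by linarith) (by linarith) le_rfl heG0 (by linarith)
    (Ψ := NzW Ψ c k κ D w₀ n vv p₁ p₂ eN uN pN i) (NzW.hs hΨs)
    (fun J F A V z z' G hG => by
      have h1 := hG.1.lb
      rw [hvi] at h1
      refine h1.mono (fun _ h => h) hDD ?_ ?_ le_rfl
      · refine Nat.floor_le_floor (mul_le_mul_of_nonneg_right ?_ (Nat.cast_nonneg J))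
        rw [heG]
        exact le_max_left _ _
      · refine Nat.floor_le_floor (mul_le_mul_of_nonneg_right ?_ (Nat.cast_nonneg J))
        rw [zero_add, heG]
        exact le_max_right _ _)
    hval (hrow.fam fun J F A V z z' G hG => hG.1)
  refine ⟨e₁, he₁, H e₁ he₁ le_rfl ?_⟩
  refine Bas.mono 0 (hlb e₁ he₁) ?_
  rintro J - F A ⟨V, z, z', g, hg⟩
  exact ⟨V, z, z', g, lbe_lbx hg, (hg 0 hk).cls⟩

end Pool.NPZ
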