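import Pool.Agent.H42.V0B.Ljj
import Pool.Agent.H19.V0B.Ral

/-!
# The class theorem of a counted target for natural labels with companions

`v0b_nzw`: the output of the class theorem for a record and the natural labels with companions of a
list of windows: nothing about the codes of the target is assumed.
-/

set_option autoImplicit false

namespace Pool.NPZ

open Finset Real MvPolynomial
open Pool.Agent.H49.Ent Pool.Agent.H32.Dense
open Pool.STK hiding pr2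
open Pool.KA Pool.KSAT Pool.K2S Pool.PB Pool.S6C
open Pool.GEN Pool.CHT Pool.CHX Pool.ISO Pool.LA91 Pool.AVG5 Pool.D2F2
open Pool.RCD Pool.AVG96 Pool.OWN68 Pool.V0F Pool.PKG
open Pool.V0R (LadR)
open Pool.D2R (WinB)
open Pool.ALT (Fml DpI NzF NzQ NzL nzq_vad AlpD)
open Pool.V0N (RowN LowN AlM NzP NzM)
open Pool.V0B19

/-- The rows of the natural labels of a list of windows. -/
theorem alm_rowZ {k : ℕ} {S : PCl (k + 2)} {c : ℕ → Fin (k + 2)} {L : ℕ → ℝ → ℝ → ℝ} {D n : ℕ}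
    {vv : ℕ → ℝ} {b R h δ δ' lam g ℓ μ ρ q t : ℝ} {Ψ : Fml (k + 2)} {w : ℝ}
    {p₁ p₂ eN uN pN : ℕ → ℝ}
    (hpos : ∀ (τ : ℝ) (J : ℕ) (F : Fam (k + 2) J) (A : F.Ω → Prop), S.St τ J F A → 0 < Pe F.p A)
    (H : AlM S c L D n vv b R h δ δ' lam g ℓ μ ρ q t Ψ w p₁ p₂ eN uN pN) (hq : 0 < q) {i j : ℕ}
    (hi : i < n) (hj : j < n) {u d : ℝ} (hlu : lam * q ≤ u) (hij : (lam + g) * q ≤ b * (vv j - vv i))
    (hu : u + g * q ≤ b * (t + R * q - vv i)) (hμ : 8 * b * q + 8 * u ≤ μ) (hμ0 : 0 ≤ μ)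
    (hd : δ * (lam * q) / 4 < d) :
    RowZ S (NzF Ψ c k (c (k + 1)) D D D w (vv i) (p₁ i) (p₂ i) (eN i) (uN i) (pN i)) c k
      (c (k + 1)) (vv i) (L (k + 1) (vv i) (vv i)) u h d := by
  have e1 : u / q * q = u := div_mul_cancel₀ u hq.ne'
  have h1 := H.alp i hi j hj lam (u / q) 1 le_rfl (by rw [le_div_iff₀ hq]; exact hlu) hij
    (by rw [add_mul, e1]; exact hu)
    (by
      have e2 : (8 * b + 8 * (u / q)) * q = 8 * b * q + 8 * (u / q * q) := by ring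
      rw [e2, e1]
      exact hμ) (by linarith) le_rfl
  rw [e1] at h1
  exact alpD_rowZ hpos h1 hd

/-- **The class theorem of a counted target for a record**, for the natural labels with companions of
a list of windows. -/
theorem v0b_nzw (D k : ℕ) (s h κ₂ : ℝ) (hD : 1 ≤ D) (hk : 1 ≤ k) (hs : 1 < s)
    (hh : 0 < h) (hh1 : h ≤ 1) (hκ₂ : 0 < κ₂) (hκh : κ₂ < (s - 1) / s * h) :
    ∃ δ₀ Λ : ℝ, 0 < δ₀ ∧ 1 ≤ Λ ∧ ∀ ι : ℝ, 0 < ι →
    ∃ φ₀ : ℝ, 0 < φ₀ ∧ φ₀ ≤ 1 / 400 ∧ 2 * φ₀ ≤ δ₀ ∧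
    ∀ {S : PCl (k + 2)} {al : ℝ} {g₀ : ℝ → ℝ}
      {P : List (Fin (k + 2)) × Fin (k + 2) → ℝ → ℝ → ℝ}
      {θ : ℝ} {P₂ : ℕ → List (Fin (k + 2)) × Fin (k + 2) → ℝ → ℝ → ℝ} {θ₂ Eb e₂ : ℕ → ℝ}
      {c : ℕ → Fin (k + 2)} {Pt : ℝ → ℝ → ℝ} {rt : ℝ → ℝ} {hr K₀ g : ℝ} {L Tt : ℕ → ℝ → ℝ → ℝ}
      {Sl : ℕ → ℝ} {κ : ℕ → Kg} {G : Set ℝ} {S₀ N : ℕ} {A V : ℕ → ℝ} {S₂ N' : ℕ} {V' : ℕ → ℝ}
      {K ε q t : ℝ}
      (_ : RecG S al g₀ P θ P₂ θ₂ Eb e₂ c Pt rt hr K₀ g L Tt Sl κ G S₀ N A V S₂ N' V' K ε q t)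
      (_ : 0 < ε) (_ : ∀ l < k, Sl l = 1) (_ : ∀ l < k, κ l = .one) (_ : Sl (k + 1) = s)
      (_ : s ≤ Sl k)
      -- the windows of the grid
      {M₀ cb co Cf : ℕ} {w u φ : ℝ} (_ : 1 ≤ M₀) (_ : 0 < u) (_ : φ ≤ φ₀ * u)
      (_ : ∀ j < (cb + co) * M₀ + 1, grV M₀ cb w u j ∈ G)
      (_ : |w - t| + (cb + co + Λ + 1) * u ≤ K * q) (_ : 4 * (ε * q) ≤ φ)
      (_ : 3 * ((1 + Sl k + Sl (k + 1)) * (u / M₀)) ≤ φ)
      (_ : 2 * Λ + 7 * k + 15 ≤ Cf) (_ : cb = Cf + 7 * k + 13) (_ : Λ + 1 ≤ co)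
      -- the free velocities
      {κ' : ℚ} {k₀ : ℕ} {x₀ : ℝ} (_ : (0 : ℝ) < κ') (_ : (κ' : ℝ) ≤ φ₀)
      (_ : FaQ (k, Cf, 1 / 8, κ') k₀ S P θ c Pt rt L Tt κ G x₀) (_ : u < (1 / 2) ^ k₀)
      (_ : w - (Cf + (7 * k + 12) / 2 - Λ) * u ≤ x₀) (_ : x₀ ≤ w - (Cf / 2 + 7 * k + 13) * u)
      -- the labels of the windows
      (_ : ∀ j < (cb + co) * M₀ + 1, ∃ rk E : ℝ, 0 ≤ rk ∧ rk < 1 ∧ 0 ≤ E ∧
        E + L (k + 1) (grV M₀ cb w u j) (grV M₀ cb w u j) < 1 ∧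
        LbU S ((range (k + 1)).image c) (c (k + 1)) (grV M₀ cb w u j)
          (L (k + 1) (grV M₀ cb w u j) (grV M₀ cb w u j)) rk E)
      (_ : ∀ x : ℝ, x = w ∨ x = w - 3 * u → ∃ (Kc : ℕ) (E rd : ℕ → ℝ),
        (∀ l < k, 0 ≤ E l ∧ L l x x + E l + Λ * u ≤ 1 ∧ 0 ≤ rd l ∧ rd l + Λ * u ≤ 1) ∧
        ∀ e : ℝ, 0 < e → Bas S (fun J F A => ∃ (V : Type) (z : PtT F → V) (z' : LnT F → V)
          (g : V → ℕ → MvPolynomial (Option (Fin (k + 2))) ℝ),
          LbE F c k Kc E e x rd (fun l => L l x x) A z z' g))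
      -- the family of labels
      {n : ℕ} {vv : ℕ → ℝ} {R δ δ' lam gg ℓ μ ρ : ℝ} {Ψ : Fml (k + 2)} {wΨ : ℝ}
      {p₁ p₂ eN uN pN : ℕ → ℝ} {i i' : ℕ} {im : ℕ → ℕ}
      (_ : AlM S c L D n vv s R h δ δ' lam gg ℓ μ ρ q t Ψ wΨ p₁ p₂ eN uN pN)
      (_ : i < n) (_ : vv i = w) (_ : i' < n) (_ : vv i' = w - 3 * u)
      (_ : ∀ t' ≤ M₀, im t' < n ∧ vv (im t') = grV M₀ cb w u (cb * M₀ + t'))
      (_ : 0 ≤ ρ) (_ : ρ ≤ (1 - h) * Real.log 2)
      (_ : δ * lam * q ≤ 2 * φ) (_ : 2 * (δ' * q) ≤ δ₀ * u) (_ : 8 * s * q + 24 * s * u ≤ μ)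
      (_ : lam * q ≤ u) (_ : (lam + gg) * q ≤ s * u)
      (_ : s * (w - t) + 3 * u + gg * q + ε * q ≤ s * (R * q)) (_ : |w - t| + u ≤ R * q)
      -- the windows of the charts
      {Dr Nw M : ℕ} {C₀ a Ew ηm : ℝ} {ow η σ : ℕ → ℝ} {lv : ℕ → ℕ → ℝ} {ix : ℕ → ℕ}
      (_ : nzD D ≤ Dr) (_ : ∀ j ≤ cb * M₀ + M₀, ix j ≤ Nw ∧ ow (ix j) = grV M₀ cb w u j)
      (_ : ∀ i ≤ Nw, ∀ l ≤ k + 1, lv i l = L l (ow i) (ow i)) (_ : 4 * (C₀ * ηm) ≤ φ)
      (_ : Ew ≤ Eb (k + 1)),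
      Bas S (fun J F A => ∀ {bb : ℕ → ℕ → ℝ} {κ : ℝ} {z : ℕ → ℕ → ℕ}
        {g₀ : ℕ → ℕ → ℕ} {Gc : ℕ → PtT F → ℕ → MvPolynomial (Option (Fin (k + 2))) ℝ}
        {H : ℕ → LnT F → ℕ → MvPolynomial (Option (Fin (k + 2))) ℝ}, κ ≤ 1 →
        WinB F c (k + 1) D Dr Nw M C₀ a Ew ηm ow η σ lv bb κ z A g₀ Gc H →
        V0Z J M u ow ix (fun j => ix (cb * M₀ + j)) (cb * M₀) M₀ z →
        ∀ (V : Type) (y : PtT F → V) (y' : LnT F → V)
        (g : V → MvPolynomial (Option (Fin (k + 2))) ℝ),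
        NzW Ψ c k (c (k + 1)) D wΨ n vv p₁ p₂ eN uN pN i J F A V y y' g →
        ∃ B : F.Ω → Prop, Sub B A ∧ Pe F.p A ≤ 8 * Pe F.p B ∧
          V0E F c k (nzD D) s κ₂ ι φ w u (Sl k = s) (ix 0) (ix (cb * M₀)) (ix (cb * M₀ + M₀)) g₀ Gc
            (fun x => g (y x)) B) := by
  obtain ⟨δ₀, T₀, hδ₀, hV⟩ := v0b_rec D (nzD D) k s h κ₂ hD (le_nzD D) hk hs hh hh1 hκ₂ hκh
  obtain ⟨T₁, hT₁, hdj⟩ := dj_nat (nzD D) k hk hh hh1 (B := 3 * s) (by linarith) hδ₀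
  obtain ⟨δ₂, hδ₂, hjt⟩ := jt_nat (nzD D) k hk hh hh1 hδ₀
  obtain ⟨T, hT⟩ : ∃ T : ℝ, T = max T₀ T₁ := ⟨_, rfl⟩
  have hTT : T₀ ≤ T := by rw [hT]; exact le_max_left _ _
  have hTT' : T₁ ≤ T := by rw [hT]; exact le_max_right _ _
  have hT0 : 0 < T := by linarith
  obtain ⟨Λ₀, hΛ₀, hV⟩ := hV T hTT
  obtain ⟨δ₃, hδ₃, hdj⟩ := hdj T hTT'
  obtain ⟨Λ, hΛ⟩ : ∃ Λ : ℝ, Λ = max Λ₀ (T + 20) := ⟨_, rfl⟩
  have hΛa : Λ₀ ≤ Λ := by rw [hΛ]; exact le_max_left _ _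
  have hΛb : T + 20 ≤ Λ := by rw [hΛ]; exact le_max_right _ _
  refine ⟨δ₀, Λ, hδ₀, by linarith, fun ι hι => ?_⟩
  obtain ⟨φ₁, hφ₁, hφb, hφδ, hV⟩ := hV ι hι
  obtain ⟨φ₀, hφ₀⟩ : ∃ φ₀ : ℝ, φ₀ = min φ₁ (min (min δ₂ δ₃) (s - 1)) := ⟨_, rfl⟩
  have hφ0 : 0 < φ₀ := by
    rw [hφ₀]
    exact lt_min hφ₁ (lt_min (lt_min hδ₂ hδ₃) (by linarith))
  have hφa : φ₀ ≤ φ₁ := by rw [hφ₀]; exact min_le_left _ _
  have hφ2 : φ₀ ≤ δ₂ := by
    rw [hφ₀]
    exact (min_le_right _ _).trans ((min_le_left _ _).trans (min_le_left _ _))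
  have hφ3 : φ₀ ≤ δ₃ := by
    rw [hφ₀]
    exact (min_le_right _ _).trans ((min_le_left _ _).trans (min_le_right _ _))
  have hφs : φ₀ ≤ s - 1 := by
    rw [hφ₀]
    exact (min_le_right _ _).trans (min_le_right _ _)
  refine ⟨φ₀, hφ0, hφa.trans hφb, by linarith, ?_⟩
  intro S al g₀ P θ P₂ θ₂ Eb e₂ c Pt rt hr K₀ g L Tt Sl κ G S₀ N A V S₂ N' V' K ε q t Rc hε hSl hκ
    hSs hsk M₀ cb co Cf w u φ hM hu hφ hG hK hεφ hMφ hCf hcb hco κ' k₀ x₀ hκ0 hκφ hFa huk hx1 hx2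
    hlab hlb n vv R δ δ' lam gg ℓ μ ρ Ψ wΨ p₁ p₂ eN uN pN i i' im HA hi hvw hi' hvw' him hρ0 hρ
    hδl hδ' hμ hlu hlg hR hRw Dr Nw M C₀ a Ew ηm ow η σ lv ix hDr hix hlv hCη hEw
  have hq := Rc.q0
  have hM0 : (0 : ℝ) < M₀ := by exact_mod_cast hM
  have hk0 : (0 : ℝ) ≤ k := Nat.cast_nonneg k
  have hcb0 : (0 : ℝ) ≤ cb := Nat.cast_nonneg _
  have hco0 : (0 : ℝ) ≤ co := Nat.cast_nonneg _
  have hwt := abs_le.1 (le_refl |w - t|)
  have hcbu : 0 ≤ cb * u := by positivity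
  have hcou : 0 ≤ co * u := by positivity
  have hΛ1 : 0 < Λ := by linarith
  have hΛu : 0 < Λ * u := by positivity
  have hKe : (cb + co + Λ + 1) * u = cb * u + co * u + Λ * u + u := by ring
  have hK' := hK
  rw [hKe] at hK'
  have hwn : |w - t| ≤ K * q := by linarith
  have hs0 : 0 < s := by linarith
  have hlog2 : Real.log 2 ≤ 1 := by
    have := Real.log_le_sub_one_of_pos (show (0 : ℝ) < 2 by norm_num)
    linarith
  have hlog0 : 0 < Real.log 2 := Real.log_pos one_lt_two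
  have hρ1 : ρ ≤ 1 := by
    have h1 : (1 - h) * Real.log 2 ≤ 1 * Real.log 2 :=
      mul_le_mul_of_nonneg_right (by linarith) hlog0.le
    linarith
  have huM : 0 < u / M₀ := by positivity
  have hsu : u < s * u := by
    have := mul_lt_mul_of_pos_right hs hu
    linarith
  have hsum : 3 * (u / M₀ + Sl k * (u / M₀) + s * (u / M₀)) ≤ φ := by
    have e1 : (1 + Sl k + Sl (k + 1)) * (u / M₀) = u / M₀ + Sl k * (u / M₀) +
        s * (u / M₀) := by rw [hSs]; ring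
    rwa [e1] at hMφ
  have hskM : 0 < Sl k * (u / M₀) := by
    have : 0 < Sl k := by linarith
    positivity
  have hsM : 0 < s * (u / M₀) := by positivity
  have hεq : 0 < ε * q := mul_pos hε hq
  have hφp : 0 < φ := by linarith
  have hφu : φ ≤ 1 / 400 * u := hφ.trans (mul_le_mul_of_nonneg_right (hφa.trans hφb) hu.le)
  have hφsu : φ ≤ (s - 1) * u := hφ.trans (mul_le_mul_of_nonneg_right hφs hu.le)
  have hφsu' : u + φ ≤ s * u := by
    have e1 : (s - 1) * u = s * u - u := by ring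
    linarith
  have hks := grV_ks (cb := cb) (w := w) (φ := u / M₀) hM hs hu le_rfl
  have hmid : grV M₀ cb w u (cb * M₀) = w := grV_mid hM w u
  have hgr1 : grV M₀ cb w u (cb * M₀ + M₀) = w + u := grV_one hM _ _
  have hgr0 : grV M₀ cb w u 0 = w - cb * u := grV_zero _ _ _ _
  -- the ladder
  have hCf' : 2 * Λ₀ + 7 * k + 15 ≤ Cf := by linarith
  have hco' : Λ₀ + 1 ≤ co := by linarith
  have hcbR : (cb : ℝ) = Cf + 7 * k + 13 := by rw [hcb]; push_cast; ring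
  have hco1 : 1 ≤ co := by
    have h1 : (1 : ℝ) ≤ co := by linarith
    exact_mod_cast h1
  have hcb3 : 3 ≤ cb := by omega
  have ht0 := Rc.t0
  have ht1 := Rc.t1
  have hK₀' : |w - t| + (cb + co + Λ₀ + 1) * u ≤ K * q := by
    have e1 : (cb + co + Λ₀ + 1) * u = cb * u + co * u + Λ₀ * u + u := by ring
    have e2 : Λ₀ * u ≤ Λ * u := mul_le_mul_of_nonneg_right hΛa hu.le
    rw [e1]
    linarith
  have hlad := rec_ladR Rc (M₀ := M₀) (cb := cb) (co := co) (w := w) (u := u) (φ := φ) hM hu hG (by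
      have e1 : (cb + co + 1) * u = cb * u + co * u + u := by ring
      rw [e1]
      linarith) hε hSl (by linarith) (by linarith) hεφ hMφ (hFa.ch (k + 1) (by omega)) hlab
  have hL := hlad.lad
  have hpos := hL.pos
  have hTu : (T + 20) * u ≤ Λ * u := mul_le_mul_of_nonneg_right hΛb hu.le
  have hTu' : (T + 20) * u = T * u + 20 * u := by ring
  have hTp : 0 < T * u := by positivity
  have hΛcb : Λ * u ≤ cb * u := mul_le_mul_of_nonneg_right (by linarith) hu.le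
  have hΛco : Λ * u + u ≤ co * u := by
    have := mul_le_mul_of_nonneg_right hco hu.le
    linarith
  have h13 : 13 * u ≤ cb * u := mul_le_mul_of_nonneg_right (by
    have : (0 : ℝ) ≤ Cf := Nat.cast_nonneg _
    linarith) hu.le
  have hnear : ∀ x, w - cb * u - Λ * u ≤ x → x ≤ w + co * u + Λ * u → |x - t| ≤ K * q :=
    fun x h1 h2 => by
      rw [abs_le]
      constructor <;> linarith [hwt.1, hwt.2]
  have hb0 : 0 ≤ w - cb * u := hL.b0
  have hwo : w + co * u < 1 := hL.o1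
  have hlow' : ∀ y : ℝ, |y - t| ≤ K * q → ∀ l ≤ k + 1, y ≤ L l y y := fun y h1 l hl => by
    have h2 := abs_le.1 h1
    exact rec_low (r := k + 1) Rc hl (by linarith) (by linarith)
  have hmem : ∀ j ≤ cb * M₀ + M₀, grV M₀ cb w u j ∈ grS M₀ cb co w u := fun j hj =>
    grS_mem (ix_lt hco1 hj)
  have hwG : w ∈ grS M₀ cb co w u := by
    have := hmem (cb * M₀) (by omega)
    rwa [hmid] at this
  obtain ⟨v, hv⟩ : ∃ v : ℝ, v = w - 3 * u := ⟨_, rfl⟩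
  have hvG : v ∈ grS M₀ cb co w u := by
    have h1 := hmem ((cb - 3) * M₀) (by
      have : (cb - 3) * M₀ ≤ cb * M₀ := Nat.mul_le_mul_right _ (by omega)
      omega)
    have e1 : grV M₀ cb w u ((cb - 3) * M₀) = w - 3 * u := by
      unfold grV chV
      have e2 : (((cb - 3) * M₀ : ℕ) : ℝ) = (cb - 3) * M₀ := by
        rw [Nat.cast_mul, Nat.cast_sub hcb3]
        norm_num
      rw [e2]
      field_simp
      ring
    rwa [e1, ← hv] at h1
  have hvn : |v - t| ≤ K * q := hnear v (by rw [hv]; linarith) (by rw [hv]; linarith)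
  have hun : |w + u - t| ≤ K * q := hnear _ (by linarith) (by linarith)
  -- the levels
  have hlev : ∀ y : ℝ, |y - t| ≤ K * q →
      |L (k + 1) y y - L (k + 1) w w - s * (y - w)| ≤ 2 * (ε * q) := fun y hy => by
    have h1 := rec_sl Rc (l := k + 1) (by omega) hwn hy
    rwa [hSs] at h1
  obtain ⟨sN, hsN⟩ : ∃ sN : ℝ, sN = L (k + 1) w w := ⟨_, rfl⟩
  obtain ⟨sv, hsv⟩ : ∃ sv : ℝ, sv = L (k + 1) v v := ⟨_, rfl⟩
  obtain ⟨Q, hQ⟩ : ∃ Q : ℝ, Q = sN - 2 * φ - sv := ⟨_, rfl⟩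
  have hlv1 := abs_le.1 (hlev v hvn)
  have e5 : s * (v - w) = -(3 * (s * u)) := by rw [hv]; ring
  rw [e5, ← hsN, ← hsv] at hlv1
  have hQ1 : u ≤ Q := by rw [hQ]; linarith [hlv1.2]
  have hQ2 : Q ≤ 3 * s * u := by
    have e6 : 3 * s * u = 3 * (s * u) := by ring
    rw [hQ, e6]
    linarith [hlv1.1]
  have hwsN : w ≤ sN := by rw [hsN]; exact hlow' w hwn (k + 1) le_rfl
  have hvsv : v ≤ sv := by rw [hsv]; exact hlow' v hvn (k + 1) le_rfl
  have hδl8 : δ * lam * q / 8 ≤ φ / 4 := by linarith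
  have hpNi : sN - φ / 4 ≤ pN i := by
    have h1 := HA.pN1 i hi
    rw [hvw, ← hsN] at h1
    linarith
  have hpNi' : sv - φ / 4 ≤ pN i' := by
    have h1 := HA.pN1 i' hi'
    rw [hvw', ← hv, ← hsv] at h1
    linarith
  have hpNi1 : pN i < sN := by
    have h1 := HA.pN2 i hi
    rwa [hvw, ← hsN] at h1
  have hpNi1' : pN i' < sv := by
    have h1 := HA.pN2 i' hi'
    rwa [hvw', ← hv, ← hsv] at h1
  -- the family
  obtain ⟨e₀, ρ₀, π₀, -, -, -, hΨl⟩ := HA.lb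
  have hΨd : ∀ (J : ℕ) (F : Fam (k + 2) J) (A : F.Ω → Prop) (V : Type) (z : PtT F → V)
      (z' : LnT F → V) (G : V → MvPolynomial (Option (Fin (k + 2))) ℝ), Ψ J F A V z z' G →
      (∀ y, (G y).totalDegree ≤ D) ∧ (∀ y, DpI ((range (k + 1)).image c) (G y)) ∧
      ∀ ω, A ω → z (ptr F J ω) = z' (slam F ⌊wΨ * J⌋₊ ω) := fun J F A V z z' G hG =>
    ⟨(hΨl J F A V z z' G hG).deg, (hΨl J F A V z z' G hG).dep, (hΨl J F A V z z' G hG).cls⟩
  have hDD : D * max 1 D ≤ nzD D := by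
    unfold nzD
    rw [max_self]
  have him0 : vv (im 0) = w := by
    rw [(him 0 (Nat.zero_le _)).2, add_zero, hmid]
  have himM : vv (im M₀) = w + u := by
    rw [(him M₀ le_rfl).2, hgr1]
  have hwΨ : wΨ ≤ v := by
    have := HA.wv i' hi'
    rwa [hvw', ← hv] at this
  have hd1 : δ * (lam * q) / 4 < φ := by
    have e1 : δ * (lam * q) = δ * lam * q := by ring
    rw [e1]
    linarith
  have hμ0 : 0 ≤ μ := by
    have : 0 < 8 * s * q + 24 * s * u := by positivity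
    linarith
  have e24 : 24 * s * u = 24 * (s * u) := by ring
  have e3s : 3 * s * u = 3 * (s * u) := by ring
  rw [e24] at hμ
  rw [e3s] at hQ2
  have e8 : s * (t + R * q - w) = s * (R * q) - s * (w - t) := by ring
  have hrow1 : RowZ S (NzF Ψ c k (c (k + 1)) D D D wΨ (vv i) (p₁ i) (p₂ i) (eN i) (uN i) (pN i)) c k
      (c (k + 1)) w sN u h φ := by
    have h1 := alm_rowZ (d := φ) (u := u) hpos HA hq hi (him M₀ le_rfl).1 hlu (by
        rw [himM, hvw]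
        have : w + u - w = u := by ring
        rw [this]
        exact hlg) (by
        rw [hvw, e8]
        linarith) (by linarith) hμ0 hd1
    rw [hvw] at h1 ⊢
    rw [← hsN] at h1
    exact h1
  have hrow2 : RowZ S (NzF Ψ c k (c (k + 1)) D D D wΨ (vv i') (p₁ i') (p₂ i') (eN i') (uN i')
      (pN i')) c k (c (k + 1)) v sv Q h φ := by
    have h1 := alm_rowZ (d := φ) (u := Q) hpos HA hq hi' hi (by linarith) (by
        rw [hvw, hvw']
        have e1 : s * (w - (w - 3 * u)) = 3 * (s * u) := by ring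
        rw [e1]
        linarith) (by
        rw [hvw']
        have e1 : s * (t + R * q - (w - 3 * u)) = s * (R * q) - s * (w - t) + 3 * (s * u) := by
          ring
        rw [e1]
        linarith) (by linarith) hμ0 hd1
    rw [hvw', ← hv] at h1 ⊢
    rw [← hsv] at h1
    exact h1
  -- the numbers of the chain
  have hup : ∀ l < k, L l w w ≤ L l v v + 3 * u + φ := by
    intro l hl
    have h1 := abs_le.1 (rec_sl Rc (l := l) (by omega) hvn hwn)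
    rw [hSl l hl, one_mul] at h1
    have h2 : w - v = 3 * u := by rw [hv]; ring
    rw [h2] at h1
    linarith [h1.2]
  obtain ⟨Kw, Ew', rw', hEw1, hEw2⟩ := hlb w (Or.inl rfl)
  obtain ⟨Kv, Ev, rv, hEv1, hEv2⟩ := hlb v (Or.inr hv)
  -- the two codes
  obtain ⟨e₁, he₁, H1⟩ := hjt hL (Ψ := Ψ) (κ := c (k + 1)) (D := D) (w₀ := wΨ) (w := w) (u := u)
    (X := w + u) (sN := sN) (d := φ) (n := n) (M := M₀) (i := i) (vv := vv) (p₁ := p₁) (p₂ := p₂)
    (eN := eN) (uN := uN) (pN := pN) (im := im) (Kc := Kw) (E := Ew') (rd := rw') hu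
    (hφ.trans (mul_le_mul_of_nonneg_right hφ2 hu.le))
    (hφ.trans (mul_le_mul_of_nonneg_right hφ2 hu.le)) hDD hwG (by linarith) (by linarith)
    (by linarith) HA.hs hΨd (by linarith) hvw hM
    (fun t' ht' => ⟨(him t' ht').1, by
      rw [(him t' ht').2]
      exact hmem _ (by omega)⟩) him0
    (fun t' ht' => by
      rw [(him t' (by omega)).2, (him (t' + 1) (by omega)).2,
        show cb * M₀ + (t' + 1) = cb * M₀ + t' + 1 by omega, grV_step]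
      constructor <;> linarith)
    (by rw [himM, sub_self, abs_zero]; exact hφp.le) himM.le (by linarith) (HA.e0 i hi) hpNi1
    (by linarith)
    (fun t' ht' => by
      obtain ⟨a1, a2⟩ := him t' (by omega)
      have h1 := HA.pN1 (im t') a1
      obtain ⟨y, hy⟩ : ∃ y : ℝ, y = vv (im t') := ⟨_, rfl⟩
      have hyw : w ≤ y := by
        rw [hy, a2]
        have := grV_mono (M₀ := M₀) (cb := cb) (w := w) hu.le (show cb * M₀ ≤ cb * M₀ + t' by omega)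
        rwa [hmid] at this
      have hyu : y ≤ w + u := by
        rw [hy, a2, ← hgr1]
        exact grV_mono hu.le (by omega)
      rw [← hy] at h1 ⊢
      have h2 := abs_le.1 (hlev y (hnear y (by linarith) (by linarith)))
      rw [← hsN] at h2
      have h3 : (y - w) ≤ s * (y - w) := by
        have := mul_le_mul_of_nonneg_right hs.le (show 0 ≤ y - w by linarith)
        linarith
      linarith [h2.1])
    (by
      have h1 := HA.pN1 (im M₀) (him M₀ le_rfl).1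
      rw [himM] at h1
      have h2 := abs_le.1 (hlev (w + u) hun)
      have e1 : s * (w + u - w) = s * u := by ring
      rw [← hsN, e1] at h2
      linarith [h2.1])
    hrow1
    (fun l hl => by
      obtain ⟨a1, a2, a3, a4⟩ := hEw1 l hl
      have a5 := hlow' w hwn l (by omega)
      exact ⟨a1, by linarith, by linarith, a3, by linarith⟩)
    hEw2
  obtain ⟨e₂, he₂, H2⟩ := hdj hL (Ψ := Ψ) (κ := c (k + 1)) (D := D) (w₀ := wΨ) (v := v) (w := w)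
    (u := u) (q := Q) (sv := sv) (sN := sN) (d := φ) (n := n) (i := i) (i' := i') (vv := vv)
    (p₁ := p₁) (p₂ := p₂) (eN := eN) (uN := uN) (pN := pN) (Kc := Kv) (E := Ev) (rd := rv) hu
    (hφ.trans (mul_le_mul_of_nonneg_right hφ3 hu.le))
    (hφ.trans (mul_le_mul_of_nonneg_right hφ3 hu.le)) hDD hvG hwG
    (by rw [← hv, sub_self, abs_zero]; exact hφp.le) (by linarith) (by linarith) HA.hs hΨd hwΨ hi
    hi' hvw (hvw'.trans hv.symm) (by rw [hQ]; ring) hQ1 (by rw [e3s]; exact hQ2) (by linarith)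
    (HA.e0 i hi) (HA.e0 i' hi') hpNi1' (by linarith) (by linarith) hrow2
    (fun l hl => by
      obtain ⟨a1, a2, a3, a4⟩ := hEv1 l hl
      have a5 := hlow' v hvn l (by omega)
      have a6 := hup l hl
      exact ⟨a1, by linarith, by linarith, a3, by linarith⟩)
    hEv2
  -- the class theorem
  have hΘs := fun (J : ℕ) (F : Fam (k + 2) J) (A B : F.Ω → Prop) (V : Type) (z : PtT F → V)
    (z' : LnT F → V) (G : V → MvPolynomial (Option (Fin (k + 2))) ℝ) (hB : Sub B A)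
    (hG : NzW Ψ c k (c (k + 1)) D wΨ n vv p₁ p₂ eN uN pN i J F A V z z' G) =>
    NzW.hs HA.hs J F A B V z z' G hB hG
  have hΘf : ∀ (J : ℕ) (F : Fam (k + 2) J) (A : F.Ω → Prop) (V : Type) (z : PtT F → V)
      (z' : LnT F → V) (G : V → MvPolynomial (Option (Fin (k + 2))) ℝ),
      NzW Ψ c k (c (k + 1)) D wΨ n vv p₁ p₂ eN uN pN i J F A V z z' G →
      NzF Ψ c k (c (k + 1)) D D D wΨ w (p₁ i) (p₂ i) (eN i) (uN i) (pN i) J F A V z z' G :=
    fun J F A V z z' G hG => by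
      have h1 := hG.1
      rwa [hvw] at h1
  have hΘl : ∀ (J : ℕ) (F : Fam (k + 2) J) (A : F.Ω → Prop) (V : Type) (z : PtT F → V)
      (z' : LnT F → V) (G : V → MvPolynomial (Option (Fin (k + 2))) ℝ),
      NzW Ψ c k (c (k + 1)) D wΨ n vv p₁ p₂ eN uN pN i J F A V z z' G →
      Pool.GRD.LbP F ((range (k + 1)).image c) (c (k + 1)) (nzD D) J ⌊w * J⌋₊ ⌊pN i * J⌋₊ A z z'
        G := fun J F A V z z' G hG => Pool.GRD.LbP.of (NzF.lb (hΘf J F A V z z' G hG))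
  obtain ⟨j, hj⟩ : ∃ j : ℝ, j = grV M₀ cb w u (cb * M₀ + ⌊(M₀ : ℝ) / s⌋₊) := ⟨_, rfl⟩
  have hj0 : w ≤ j := by
    have h1 := grV_mono (M₀ := M₀) (cb := cb) (w := w) hu.le
      (show cb * M₀ ≤ cb * M₀ + ⌊(M₀ : ℝ) / s⌋₊ by omega)
    rw [hmid] at h1
    rw [hj]
    exact h1
  have hj1 : j ≤ w + u := by
    rw [hj, ← hgr1]
    have := hks.1
    exact grV_mono hu.le (by omega)
  have hjt' : |j - t| ≤ R * q := by
    rw [abs_le]
    constructor <;> linarith [hwt.1, hwt.2]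
  have hjK : |j - t| ≤ K * q := hnear j (by linarith) (by linarith)
  have hjs : |j - (w + u / s)| ≤ u / M₀ := by
    rw [hj]
    exact hks.2
  have hdLw := abs_le.1 (Rc.dL (k + 1) (by omega) w hwn)
  rw [hSs] at hdLw
  have hdLj := abs_le.1 (hlev j hjK)
  have hsj : s * (j - w) ≤ u + s * (u / M₀) := by
    have h1 := (abs_le.1 hjs).2
    have h2 : s * (j - w) ≤ s * (u / s + u / M₀) := mul_le_mul_of_nonneg_left (by linarith) hs0.le
    have h3 : s * (u / s + u / M₀) = u + s * (u / M₀) := by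
      field_simp
    linarith
  have hφδ' : 2 * φ ≤ δ₀ * u := by
    have h1 := mul_le_mul_of_nonneg_right (show 2 * φ₀ ≤ δ₀ by linarith) hu.le
    linarith
  have hhi : L (k + 1) w w + 3 * u + gg * q ≤ L (k + 1) t t + s * (R * q) := by
    linarith [hdLw.2]
  have hsup : 0 < 8 * s * q := by positivity
  have hrow := HA.row i hi (L (k + 1) w w + u) (L (k + 1) w w + 3 * u) (by rw [hvw]; linarith)
    (by linarith) (by rw [hvw]; linarith) hhi
  have hlow := HA.low i hi j (L (k + 1) w w + u) (L (k + 1) w w + 3 * u) (by rw [hvw]; exact hj0)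
    hjt' (by linarith) (by rw [hvw]; linarith) hhi
  rw [hvw] at hrow hlow
  have hw0 : 0 ≤ w := by linarith
  have hw1 : w ≤ 1 := by linarith
  have hbw : w - cb * u ≤ w := by linarith
  have hCη' : C₀ * ηm ≤ φ := by
    rcases le_or_gt (C₀ * ηm) 0 with h4 | h4
    · linarith
    · linarith
  have hix0 := hix 0 (by omega)
  have hixm := hix (cb * M₀) (by omega)
  rw [hgr0] at hix0
  rw [hmid] at hixm
  have hNm : sN + (1 + (s - 1) / s) * u ≤ sN + 2 * u := by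
    have h1 : (s - 1) / s ≤ 1 := by
      rw [div_le_one hs0]
      linarith
    have h2 := mul_le_mul_of_nonneg_right h1 hu.le
    linarith
  refine hV Rc hε hSl hκ hSs hsk hM hu (hφ.trans (mul_le_mul_of_nonneg_right hφa hu.le)) hG hK₀'
    hεφ hMφ hCf' hcb hco' hκ0 (hκφ.trans hφa) hFa huk ?_ hx2
    hlab (Θ := NzW Ψ c k (c (k + 1)) D wΨ n vv p₁ p₂ eN uN pN i) (p := pN i)
    (ρ := ρ) hρ0 hρ hΘs hΘl (by rw [← hsN]; exact hpNi)
    (RowN.fam (RowN.mono hrow (d' := δ₀ * u) (by linarith)) hΘf)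
    ?_ hDr hix hlv hCη hEw ?_ ?_
  · have h1 : (Cf + (7 * k + 12) / 2 - Λ) * u ≤ (Cf + (7 * k + 12) / 2 - Λ₀) * u :=
      mul_le_mul_of_nonneg_right (by linarith) hu.le
    linarith
  · rw [hj] at hlow
    refine LowN.shift (LowN.fam hlow hΘf) ?_
    rw [← hj]
    have h1 : L (k + 1) j j - (L (k + 1) w w + u) ≤ φ := by linarith [hdLj.2]
    have h2 : ρ * (L (k + 1) j j - (L (k + 1) w w + u)) ≤ φ := by
      rcases le_or_gt 0 (L (k + 1) j j - (L (k + 1) w w + u)) with h3 | h3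
      · calc ρ * (L (k + 1) j j - (L (k + 1) w w + u)) ≤
            1 * (L (k + 1) j j - (L (k + 1) w w + u)) := mul_le_mul_of_nonneg_right hρ1 h3
          _ ≤ φ := by linarith
      · have h6 : ρ * (L (k + 1) j j - (L (k + 1) w w + u)) ≤ 0 :=
          mul_nonpos_of_nonneg_of_nonpos hρ0 h3.le
        linarith
    linarith
  · refine codU_of hpos (φ := φ) (sn := fun l x => L l x x) (le_nzD D) hix0.1 hixm.1 hix0.2
      hixm.2 hb0 hbw hw1 hCη' (fun l hl => by rw [hlv _ hix0.1 l hl, hix0.2])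
      (fun l hl => by rw [hlv _ hixm.1 l hl, hixm.2]) (p := pN i)
      (by show L (k + 1) w w - φ ≤ pN i; rw [← hsN]; linarith) hΘl he₂.le ?_
    intro K₀
    refine Bas.mono 0 (H2 K₀) ?_
    intro J _ F A h1 V z z' G hG u₀ hu₀
    obtain ⟨V₁, z₁, hz₁, h2⟩ := h1 V z z' G hG u₀ hu₀
    refine ⟨V₁, z₁, hz₁, fun σ hσ0 hσ => h2 σ hσ0 (hσ.trans ?_)⟩
    refine Real.rpow_le_rpow_of_exponent_le one_le_two
      (mul_le_mul_of_nonneg_right ?_ (Nat.cast_nonneg J))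
    rw [← hsN]
    exact hNm
  · refine codU_of hpos (φ := φ) (sn := fun l x => L l x x) (le_nzD D) hix0.1 hixm.1 hix0.2
      hixm.2 hb0 hbw hw1 hCη' (fun l hl => by rw [hlv _ hix0.1 l hl, hix0.2])
      (fun l hl => by rw [hlv _ hixm.1 l hl, hixm.2]) (p := pN i)
      (by show L (k + 1) w w - φ ≤ pN i; rw [← hsN]; linarith) hΘl he₁.le ?_
    intro K₀
    refine Bas.mono 0 (H1 K₀) ?_
    intro J _ F A h1 V z z' G hG u₀ hu₀
    obtain ⟨V₁, z₁, hz₁, h2⟩ := h1 V z z' G hG u₀ hu₀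
    refine ⟨V₁, z₁, hz₁, fun σ hσ0 hσ => h2 σ hσ0 ?_⟩
    rw [← hsN] at hσ
    exact hσ

end Pool.NPZ
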