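import Pool.Agent.H42.V0B.Nxc
import Pool.Agent.H71.V0F.Jt
import Pool.Agent.H71.V0F.Nup
import Pool.Agent.H91.FR.AllG
import Pool.Agent.H44.V0F.Cla

/-!
# The near path theorem in a ladder of windows

`Lad.low`: a place of the chain as the target. `chX_lad`: two windows of a ladder. `valH_few`: the value
from few bits.
-/

set_option autoImplicit false

namespace Pool.V0F

open Finset Real MvPolynomial
open Pool.Agent.H49.Ent Pool.Agent.H32.Dense Pool.STK Pool.KA Pool.KSAT Pool.K2S Pool.PB Pool.GEN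
open Pool.S6C Pool.RCD Pool.LA91 Pool.AVG96 Pool.OWN68
open Pool.GRD (LbP)

/-- **A place of the chain as the target.** -/
theorem Lad.low {m : ℕ} {S : PCl m} {c : ℕ → Fin m} {r : ℕ} {sn : ℕ → ℝ → ℝ} {G : Set ℝ}
    {b o φ : ℝ} (L : Lad S c r sn G b o φ) {i : ℕ} (hi : i < r) :
    Lad S c i sn G b o (2 * φ) where
  tm := L.tm
  pos := L.pos
  inj := L.inj.mono fun y hy => by
    have h1 : y < i + 1 := hy
    exact show y < r + 1 by omega
  ch := ⟨fun w hw => by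
    obtain ⟨u₁, rd, h1, h2⟩ := L.ch.ch w hw
    exact ⟨u₁, rd, fun l hl => h1 l (by omega), h2.take (Nat.zero_le i) hi.le⟩⟩
  att := fun w hw => by
    obtain ⟨u₁, rd, h1, h2⟩ := L.ch.ch w hw
    refine ⟨rd i, 0, h1 i hi, h2.r1 i (Nat.zero_le i) hi, le_rfl, ?_, fun e he => ?_⟩
    · rw [zero_add]
      exact (h2.s0 i (Nat.zero_le i) hi).2
    · rw [zero_add]
      exact h2.att i (Nat.zero_le i) hi e he
  bG := L.bG
  oG := L.oG
  b0 := L.b0
  bo := L.bo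
  o1 := L.o1
  φ0 := by linarith [L.φ0]
  gap := fun x h1 h2 => by
    obtain ⟨v, hv, h3⟩ := L.gap x h1 h2
    exact ⟨v, hv, h3.trans (by linarith [L.φ0])⟩
  fl := fun l hl v hv h1 h2 => (L.fl l (by omega) v hv h1 h2).trans (by linarith [L.φ0])
  st := fun v hv v' hv' h1 h2 h3 => by
    have h4 := abs_le.1 (L.flat hi hv' hv (h1.trans h2) h3 h1 (h2.trans h3))
    linarith [h4.1]

end Pool.V0F

namespace Pool.NPZ

open Finset Real MvPolynomial
open Pool.Agent.H49.Ent Pool.Agent.H32.Dense Pool.STK Pool.KA Pool.KSAT Pool.K2S Pool.PB Pool.GEN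
open Pool.S6C Pool.RCD Pool.LA91 Pool.OWN68 Pool.CHT Pool.AJW Pool.V0F
open Pool.GRD (LbP)
open Pool.UNJ (ceI Tub)
open Pool.AJX (LbX)

variable {m : ℕ} {S : PCl m} {c : ℕ → Fin m} {r : ℕ} {sn : ℕ → ℝ → ℝ} {G : Set ℝ} {b o φ : ℝ}

/-- The empty base and `F.W`. -/
theorem kn_bW (c : ℕ → Fin m) (u : ℝ) : Kn ((range 0).image c) 1 1 (fun J (F : Fam m J) ω =>
    (bI ((range 0).image c) u J F ω, F.W ω)) := by
  intro J F
  obtain ⟨φ, hφ⟩ := kn_W (c := c) J F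
  exact ⟨fun x => φ x.2, fun ω => hφ ω⟩

/-- **Two windows of a ladder.** -/
theorem chX_lad (L : Lad S c r sn G b o φ) {v j lam g₀ τ : ℝ} {E n rd : ℕ → ℝ} (hv : v ∈ G)
    (hj : j ∈ G) (hbv : b ≤ v) (hvj : v ≤ j) (hjo : j ≤ o) (hg : 0 < g₀) (hτ : 0 < τ)
    (hwl : j < v + lam) (hl1 : v + lam < 1) (hE : ∀ i < r, 0 ≤ E i ∧ E i ≤ 1)
    (hrd : ∀ i < r, 0 ≤ rd i ∧ rd i + g₀ ≤ 1) (hn1 : ∀ i < r, n i + E i + g₀ ≤ 1)
    (hn : Nst r sn v (2 * φ) n) (hlo : ∀ i < r, sn i j + 40 * φ ≤ n i) :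
    ∃ e₁ : ℝ, 0 < e₁ ∧ ∀ e : ℝ, e ≤ e₁ → ChX S c 0 r v j lam (40 * φ) g₀ e τ E
      (fun l => sn l v) (fun l => sn l j) n rd := by
  obtain ⟨C₀, htm⟩ := L.tm
  have hφ := L.φ0
  have hj1 : j ≤ 1 := (hjo.trans_lt L.o1).le
  have key : ∀ i < r, ∃ e : ℝ, 0 < e ∧ F1 S (fun J F => ptr F J) (vg j)
      (fun J (F : Fam m J) ω => (bI ((range 0).image c) (v + lam) J F ω, F.W ω))
      (qJets m c 0 i 0 (fun _ _ => v) (fun l _ => sn l v) (fun l _ => n l))
      (qJet m ((range i).image c) (c i) 0 v (sn i v) (sn i j - 40 * φ)) e τ := by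
    intro i hi
    have L' := (L.cut hv hbv (hvj.trans hjo)).low hi
    have h1 := t_nup L' (f := fun J F => ptr F J) (y := fun J (F : Fam m J) ω =>
      (bI ((range 0).image c) (v + lam) J F ω, F.W ω)) (fun J F => ⟨fun x => x, fun _ => rfl⟩)
      (kn_bW c _) (w := v) (j := j) (oj := j) (pr := sn i v) (N := sn i j - 40 * φ)
      (p := fun l => sn l v) (n := n) hv hj le_rfl hvj hjo le_rfl hj1
      (fun l _ => by linarith) (by linarith)
      ⟨fun l hl => hn.lo l (by omega), fun l hl => hn.hi l (by omega),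
        fun l hl l' hl' => hn.ne l (by omega) l' hl'⟩
      (fun l hl => by linarith [hlo l (by omega)]) (by linarith)
      (fun l hl => by
        have a1 := hlo l (by omega)
        have a2 := abs_le.1 (L.flat (show l < r by omega) hj hv (hbv.trans hvj) hjo hbv
          (hvj.trans hjo))
        have a3 := abs_le.1 (L.flat hi hj hv (hbv.trans hvj) hjo hbv (hvj.trans hjo))
        linarith [a2.1, a3.2])
    exact few_iff.1 h1 τ hτ
  have key' : ∀ i, ∃ e : ℝ, 0 < e ∧ (i < r → F1 S (fun J F => ptr F J) (vg j)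
      (fun J (F : Fam m J) ω => (bI ((range 0).image c) (v + lam) J F ω, F.W ω))
      (qJets m c 0 i 0 (fun _ _ => v) (fun l _ => sn l v) (fun l _ => n l))
      (qJet m ((range i).image c) (c i) 0 v (sn i v) (sn i j - 40 * φ)) e τ) := fun i => by
    by_cases hi : i < r
    · obtain ⟨e, he, h1⟩ := key i hi
      exact ⟨e, he, fun _ => h1⟩
    · exact ⟨1, one_pos, fun h => absurd h hi⟩
  choose eF heF hF using key'
  obtain ⟨e₁, he₁, hle⟩ := min_fam r eF heF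
  obtain ⟨u₁, rw₁, -, hch⟩ := L.ch.ch j hj
  refine ⟨e₁, he₁, fun e hee => ?_⟩
  exact
    { hr := Nat.zero_le r
      v0 := L.b0.trans hbv
      vw := hvj
      ρ0 := by linarith
      g0 := hg
      τ0 := hτ
      wl := hwl
      l1 := hl1
      E0 := fun i _ hi => hE i hi
      chn := ⟨u₁, rw₁, hch⟩
      rd0 := fun i _ hi => hrd i hi
      n1 := fun i _ hi => hn1 i hi
      nn := fun i _ hi => by
        show sn i j - 40 * φ ≤ n i
        linarith [hlo i hi]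
      hts := fun i _ hi => (hF i hi).mono (hee.trans (hle i hi)) le_rfl }

/-- **The value** from few bits. -/
theorem valH_few {C₀ : ℝ} (htm : TmC S C₀) {Θ : Fm4 m} {κ : Fin m} {K Kc : ℕ}
    {v j N e eG rG pN h : ℝ} {E rd p n : ℕ → ℝ} (he : 0 < e) (heG : 0 < eG) (hrG : 0 ≤ rG)
    (hE : ∀ i < r, E i ≤ 1) (hrd : ∀ i < r, 0 ≤ rd i)
    (hΘ : ∀ (J : ℕ) (F : Fam m J) (A : F.Ω → Prop) (V : Type) (z : PtT F → V) (z' : LnT F → V)
      (G : V → MvPolynomial (Option (Fin m)) ℝ) (g : V → ℕ → MvPolynomial (Option (Fin m)) ℝ),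
      Θ J F A V z z' G g → LbX F c 0 r Kc e E v rd p A z z' g ∧
      LbOK F ((range r).image c) κ K ⌊eG * J⌋₊ J ⌊v * J⌋₊ ⌊(rG + eG) * J⌋₊ ⌊pN * J⌋₊ A z z' G)
    {α γ : ∀ J : ℕ, Fam m J → Type} {f : ∀ (J : ℕ) (F : Fam m J), F.Ω → α J F}
    {y : ∀ (J : ℕ) (F : Fam m J), F.Ω → γ J F}
    (hF : F1 S f (vg j) y (qJets m c 0 r 0 (fun _ _ => v) (fun l _ => p l) (fun l _ => n l))
      (qJet m ((range r).image c) κ 0 v pN N) e h) :
    ValH S Θ c 0 r κ v j N n f y h := by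
  obtain ⟨M₁, J₁, hc1⟩ := cnt_jets m Kc (e := e + 1) (w := v) (by linarith) n rd r hrd
  obtain ⟨M₂, J₂, hc2⟩ := cnt_jet m K 0 (N := N) (w := v) hrG heG
  refine Bas.mono (max J₁ J₂) ((hF (max (max Kc M₁) (max K M₂))).and
    (Pool.GRW.tmc_bas htm one_pos)) ?_
  rintro J hJ F A ⟨h1, hA, -⟩ V z z' G g hTh
  obtain ⟨hlb, hlG⟩ := hΘ J F A V z z' G g hTh
  have hJ1 : J₁ ≤ J := (le_max_left _ _).trans hJ
  have hJ2 : J₂ ≤ J := (le_max_right _ _).trans hJ
  have hJ0 : (0 : ℝ) ≤ J := Nat.cast_nonneg J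
  have hQ : (qJets m c 0 r 0 (fun _ _ => v) (fun l _ => p l) (fun l _ => n l)).P
      (max (max Kc M₁) (max K M₂)) e J F A
      (fun ω i' j' => if j' = 0 then hts F c 0 r z' ⌊v * J⌋₊ g n ω i' else 0) := by
    refine (qJets m c 0 r 0 _ _ _).mono (le_max_left _ _) le_rfl
      (Pool.AJX.qJets_htx (R := r) le_rfl hlb fun l hl0 hl => ?_)
    exact hc1 l hl J hJ1 F _ _ _ A V z z' (fun v => g v l) (hlb.wk hl0 hl (hE l hl))
  have hQ' : (qJet m ((range r).image c) κ 0 v pN N).P (max (max Kc M₁) (max K M₂)) e J F A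
      (fun ω => ⌊(2 : ℝ) ^ (N * J) * ojet F κ 0 (G (z' (slam F ⌊v * J⌋₊ ω))) ω⌋) := by
    refine ⟨?_, V, z, z', G, ?_, fun ω _ => rfl⟩
    · refine (hc2 J hJ2 F _ _ _ A V z z' G hlG).trans
        (Real.exp_le_exp.2 (mul_le_mul_of_nonneg_right ?_ hJ0))
      exact_mod_cast (le_max_right K M₂).trans (le_max_right _ _)
    · exact (LbP.of hlG).mono (Finset.Subset.refl _) ((le_max_left _ _).trans (le_max_right _ _))
        (Nat.floor_le_floor (mul_le_mul_of_nonneg_right (by linarith) hJ0))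
  obtain ⟨V₁, z₁, hz₁, h2⟩ := h1 _ _ hQ hQ'
  refine ⟨V₁, z₁, hz₁, le_trans (CH_mono_cond (isLaw_cond F.isLaw hA).nonneg
    fun ω ω' _ _ e1 => ?_) h2⟩
  simp only [Prod.mk.injEq] at e1 ⊢
  refine ⟨?_, e1.2⟩
  rw [e1.1]

end Pool.NPZ
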