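import Pool.Agent.H42.V0B.Ljc

/-!
# Closed polynomials of the chain in a ladder of windows

`jet_cvk`: the jets over the labels of a later window, any coordinate. `few_clo`, `jet_clo`: the values
and the jets of a closed polynomial of the chain.
-/

set_option autoImplicit false

namespace Pool.NPZ

open Finset Real MvPolynomial
open Pool.Agent.H49.Ent Pool.Agent.H32.Dense Pool.STK Pool.KA Pool.KSAT Pool.K2S Pool.PB Pool.GEN
open Pool.S6C Pool.RCD Pool.LA91 Pool.OWN68 Pool.CHT Pool.AJW Pool.V0F Pool.AVG96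
open Pool.GRD (LbP)
open Pool.UNJ (ceI Tub)
open Pool.AJX (LbX FwX)
open Pool.ALT (Fml DpI)
open Pool.AVG71 (cod cod_few)

/-- **The jets over the labels of a later window**, any coordinate. -/
theorem jet_cvk {m : ℕ} {S : PCl m} {c : ℕ → Fin m} {r : ℕ} {sn : ℕ → ℝ → ℝ} {Gs : Set ℝ}
    {b o φ : ℝ} (L : Lad S c r sn Gs b o φ) {v w : ℝ} (hv : v ∈ Gs) (hw : w ∈ Gs) (hbv : b ≤ v)
    (hvw : v ≤ w) (hwo : w ≤ o) {n : ℕ → ℝ} {N pm pN P₂ : ℝ} {K : ℕ} (κ : Fin m) (hm₁ : pm ≤ pN)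
    (hm₂ : pm ≤ P₂) (hNp : pm ≤ N)
    (h1 : ∀ i < r, (N - pm) + ((K : ℝ) + 2 * r + 8) * (w - v) + 60 * ((r : ℝ) + 2) * φ ≤
      n i - sn i w)
    (h0 : (N - pm) + ((K : ℝ) + 2 * r + 8) * (w - v) + 60 * ((r : ℝ) + 2) * φ ≤ 1 - w)
    {j : ℕ} (hj : j ≤ K + 1) {α γ : ∀ J : ℕ, Fam m J → Type}
    {f : ∀ (J : ℕ) (F : Fam m J), F.Ω → α J F} {y : ∀ (J : ℕ) (F : Fam m J), F.Ω → γ J F}
    (hf : ∀ (J : ℕ) (F : Fam m J), ∃ χ : α J F → PtT F, ∀ ω, ptr F J ω = χ (f J F ω))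
    (hy : Kn ((range 0).image c) 1 1 y) {η : ℝ} (hη : 0 < η) :
    F1 S f (vg w) y ((qJets m c 0 r j (fun _ _ => v) (fun l _ => sn l v)
      (fun l j' => n l - (j' : ℝ) * v)).prod
      (qJet m ((range r).image c) κ j v pN (N - (j : ℝ) * v)))
      (qJet m ((range r).image c) κ j w P₂ (N - (j : ℝ) * v)) (φ / 8) η := by
  obtain ⟨C₀, htm⟩ := L.tm
  have hφ := L.φ0
  have hr0 : (0 : ℝ) ≤ r := Nat.cast_nonneg r
  have hK0 : (0 : ℝ) ≤ K := Nat.cast_nonneg K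
  have hwv : 0 ≤ w - v := by linarith
  obtain ⟨u₁, rw₁, -, hch⟩ := L.ch.ch w hw
  have hw1 : w < 1 := hch.u0
  have hmin : min (1 : ℝ) (1 - w) = 1 - w := min_eq_right (by linarith [hch.w0])
  have d2 : ∀ i < r, sn i w - sn i v ≤ w - v + 2 * φ := fun i hi =>
    L.dif hi hv hw hbv (by linarith) (by linarith) hwo
  obtain ⟨a, ha⟩ : ∃ a : ℝ, a = (w - v) + 3 * φ := ⟨_, rfl⟩
  have ha0 : 0 < a := by rw [ha]; linarith
  obtain ⟨B, hB⟩ : ∃ B : ℝ, B = (N - pm) + ((K : ℝ) + 1) * (w - v) + φ := ⟨_, rfl⟩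
  have hB0 : 0 < B := by
    rw [hB]
    have : 0 ≤ ((K : ℝ) + 1) * (w - v) := by positivity
    linarith
  obtain ⟨lv, hlv⟩ : ∃ lv : ℕ → ℝ, lv = fun i : ℕ => B + ((r : ℝ) - i) * a := ⟨_, rfl⟩
  have hlv0 : ∀ i < r, B ≤ lv i ∧ lv i ≤ B + r * a := fun i hi => by
    have h2 : (i : ℝ) ≤ r := by exact_mod_cast hi.le
    have h3 : (0 : ℝ) ≤ i := Nat.cast_nonneg i
    rw [hlv]
    constructor <;> dsimp only <;> nlinarith
  have hra : B + r * a + 4 * (w - v) + 20 * φ ≤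
      (N - pm) + ((K : ℝ) + 2 * r + 8) * (w - v) + 60 * ((r : ℝ) + 2) * φ := by
    rw [hB, ha]
    have e1 : 0 ≤ (r : ℝ) * (w - v) := by positivity
    have e2 : 0 ≤ (r : ℝ) * φ := by positivity
    nlinarith
  have hmn : ∀ i < r, sn i w - (w - v) - 2 * φ ≤ min (sn i v) (sn i w) := fun i hi =>
    le_min (by linarith [d2 i hi]) (by linarith)
  have hmp : pm ≤ min pN P₂ := le_min hm₁ hm₂
  have hjK : (j : ℝ) * (w - v) ≤ ((K : ℝ) + 1) * (w - v) := by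
    refine mul_le_mul_of_nonneg_right ?_ hwv
    exact_mod_cast hj
  have hj0 : (0 : ℝ) ≤ j := Nat.cast_nonneg j
  intro K₁
  refine Bas.mono 0 (few_jetN_e htm hch (k := κ) (j := j) (wv := fun _ _ => v)
    (pv := fun l _ => sn l v)
    (Nv := fun l j' => n l - (j' : ℝ) * v) (lv := lv) (w₁ := v) (w₂ := w)
    (p₁ := pN) (p₂ := P₂) (N₁ := N - (j : ℝ) * v) (N₂ := N - (j : ℝ) * v) (p₀ := 1) (lam := 1)
    (σ₀ := φ) (κ := -φ) (fun _ _ _ _ _ => hvw) hvw le_rfl hw1 le_rfl one_pos hφ (by linarith)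
    ?_ ?_ ?_ ?_ le_rfl ?_ ?_ hf hy hη K₁) ?_
  · intro i _ hi
    linarith [(hlv0 i hi).1]
  · intro i _ hi j' _
    show sn i w + lv i + φ ≤ n i - (j' : ℝ) * v + (j' : ℝ) * w
    have e1 : 0 ≤ (j' : ℝ) * (w - v) := mul_nonneg (Nat.cast_nonneg j') hwv
    have e2 : (j' : ℝ) * (w - v) = j' * w - j' * v := by ring
    linarith [(hlv0 i hi).2, h1 i hi]
  · intro i _ hi j' _
    show sn i w + lv i + φ ≤ min (sn i v) (sn i w) + min 1 (1 - w)
    rw [hmin]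
    linarith [hmn i hi, (hlv0 i hi).2]
  · intro i _ hi j' _ l _ hl
    show sn i w + lv i + φ ≤ min (sn i v) (sn i w) + lv l
    have e1 : lv i + a ≤ lv l := by
      rw [hlv]
      dsimp only
      have : (l : ℝ) + 1 ≤ i := by exact_mod_cast hl
      nlinarith
    rw [ha] at e1
    linarith [hmn i hi]
  · rw [hmin]
    have e2 : (j : ℝ) * (w - v) = j * w - j * v := by ring
    rw [hB] at hra
    have e3 : 0 ≤ (r : ℝ) * a := by positivity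
    linarith
  · intro l _ hl
    have e1 := (hlv0 l hl).1
    rw [hB] at e1
    have e2 : (j : ℝ) * (w - v) = j * w - j * v := by ring
    linarith
  · rintro J - F A H u u' ⟨hu1, hu2⟩ hu'
    obtain ⟨V, z, hz, hH⟩ := H (fun ω => (u ω).1) (fun ω => (u ω).2) u' hu1 hu2 hu'
    refine ⟨V, z, hz, hH.trans (le_of_eq ?_)⟩
    ring


/-- A quantity with a constant value. -/
theorem F1.cst {m : ℕ} {U U₁ U' : Type} {α β γ : ∀ J : ℕ, Fam m J → Type} {S : PCl m}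
    {f : ∀ (J : ℕ) (F : Fam m J), F.Ω → α J F} {g : ∀ (J : ℕ) (F : Fam m J), F.Ω → β J F}
    {y : ∀ (J : ℕ) (F : Fam m J), F.Ω → γ J F} {Q : Qt m U} {Q₁ : Qt m U₁} {Q' : Qt m U'}
    {e η : ℝ}
    (hpos : ∀ (τ : ℝ) (J : ℕ) (F : Fam m J) (A : F.Ω → Prop), S.St τ J F A → 0 < Pe F.p A)
    {x₀ : U₁} (h₁ : ∀ K ≥ 1, ∀ (J : ℕ) (F : Fam m J) (A : F.Ω → Prop),
      Q₁.P K e J F A (fun _ => x₀)) (h : F1 S f g y (Q.prod Q₁) Q' e η) :
    F1 S f g y Q Q' e η := by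
  intro K
  refine Bas.mono 0 ((h (max K 1)).and (pos_bas hpos)) ?_
  rintro J - F A ⟨H, hA⟩ u u' hu hu'
  obtain ⟨V, z, hz, h2⟩ := H (fun ω => (u ω, x₀)) u'
    (And.intro (Q.mono (le_max_left _ _) le_rfl hu) (h₁ _ (le_max_right _ _) J F A))
    (Q'.mono (le_max_left _ _) le_rfl hu')
  refine ⟨V, z, hz, le_trans (CH_mono_cond (isLaw_cond F.isLaw hA).nonneg fun ω ω' _ _ e1 => ?_)
    h2⟩
  simp only [Prod.mk.injEq] at e1 ⊢
  exact ⟨⟨e1.1, trivial⟩, e1.2⟩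

theorem ojet_clo {m J : ℕ} (F : Fam m J) (κ : Fin m) (j : ℕ) (D : MvPolynomial (Option (Fin m)) ℝ)
    (ω : F.Ω) : ojet F κ j (X (some κ) - D) ω = jet j D (bt F ω) (bd F ω) := by
  unfold ojet
  rw [sub_sub_cancel]

theorem ojet_nul {m J : ℕ} (F : Fam m J) (κ : Fin m) (j : ℕ) (ω : F.Ω) :
    ojet F κ j (X (some κ)) ω = 0 := by
  unfold ojet
  rw [jet_sub, sub_self]

theorem dpi_X {m : ℕ} {c : ℕ → Fin m} {r : ℕ} (hr : 1 ≤ r) :
    DpI ((range r).image c) (X (some (c 0)) : MvPolynomial (Option (Fin m)) ℝ) := by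
  intro b b' _ hb
  rw [eval_X, eval_X]
  exact hb _ (mem_image_of_mem c (mem_range.2 (by omega)))

/-- The trivial label. -/
theorem qjet_triv {m : ℕ} {c : ℕ → Fin m} {r : ℕ} (hr : 1 ≤ r) (j : ℕ) (w p N e : ℝ) {K : ℕ}
    (hK : 1 ≤ K) (J : ℕ) (F : Fam m J) (A : F.Ω → Prop) :
    (qJet m ((range r).image c) (c 0) j w p N).P K e J F A (fun _ => 0) := by
  refine ⟨?_, Unit, fun _ => (), fun _ => (), fun _ => X (some (c 0)), ⟨fun _ =>
    (totalDegree_X _).le.trans hK, fun _ => dpi_X hr, fun _ _ => rfl, fun ω _ => ?_⟩,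
    fun ω _ => ?_⟩
  · have h2 := cnt_le_of_abs (p := F.p) (A := A) (u := fun _ : F.Ω => (0 : ℤ)) (B := 0) le_rfl
      (fun ω _ => by simp)
    refine h2.trans ?_
    rw [mul_zero, zero_add]
    exact Real.one_le_exp (by positivity)
  · rw [eval_X]
    show |F.x ω (c 0) - F.x ω (c 0)| ≤ _
    rw [sub_self, abs_zero]
    positivity
  · rw [ojet_nul, mul_zero, Int.floor_zero]

/-- The quantity of a closed polynomial of the chain. -/
theorem qjet_clo {m : ℕ} {c : ℕ → Fin m} {r : ℕ} (hr : 1 ≤ r) {j : ℕ} {w p N e : ℝ} {J : ℕ}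
    {F : Fam m J} {A : F.Ω → Prop} {Va : Type} {za : PtT F → Va} {za' : LnT F → Va}
    {Da : Va → MvPolynomial (Option (Fin m)) ℝ} {K' K : ℕ}
    (d1 : ∀ y, (Da y).totalDegree ≤ K') (d2 : ∀ y, DpI ((range r).image c) (Da y))
    (d3 : ∀ ω, A ω → za (ptr F J ω) = za' (slam F ⌊w * J⌋₊ ω))
    (d4 : ∀ ω, A ω → |eval (bt F ω) (Da (za' (slam F ⌊w * J⌋₊ ω)))| ≤ 1 / 2 ^ ⌊(p - e) * J⌋₊)
    (hK : K' ≤ K) (hK1 : 1 ≤ K)
    (hcnt : (cnt F.p (fun ω => ⌊(2 : ℝ) ^ (N * J) *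
      jet j (Da (za' (slam F ⌊w * J⌋₊ ω))) (bt F ω) (bd F ω)⌋) A : ℝ) ≤ Real.exp (K * J)) :
    (qJet m ((range r).image c) (c 0) j w p N).P K e J F A (fun ω => ⌊(2 : ℝ) ^ (N * J) *
      jet j (Da (za' (slam F ⌊w * J⌋₊ ω))) (bt F ω) (bd F ω)⌋) := by
  refine ⟨hcnt, Va, za, za', fun y => X (some (c 0)) - Da y, ⟨fun y => ?_, fun y => ?_, d3,
    fun ω hω => ?_⟩, fun ω _ => ?_⟩
  · exact (totalDegree_sub _ _).trans (max_le ((totalDegree_X _).le.trans hK1) ((d1 y).trans hK))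
  · exact (dpi_X hr).sub (d2 y)
  · rw [map_sub, eval_X]
    show |F.x ω (c 0) - (F.x ω (c 0) - eval (bt F ω) (Da (za' (slam F ⌊w * J⌋₊ ω))))| ≤ _
    rw [sub_sub_cancel]
    exact d4 ω hω
  · rw [ojet_clo]

variable {m : ℕ} {S : PCl m} {c : ℕ → Fin m} {r : ℕ} {sn : ℕ → ℝ → ℝ} {G : Set ℝ} {b o φ : ℝ}
  {α γ : ∀ J : ℕ, Fam m J → Type} {f : ∀ (J : ℕ) (F : Fam m J), F.Ω → α J F}
  {y : ∀ (J : ℕ) (F : Fam m J), F.Ω → γ J F}

/-- **The value of a closed polynomial of the chain** at its window. -/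
theorem few_clo (L : Lad S c r sn G b o φ) (hr : 1 ≤ r)
    (hf : ∀ (J : ℕ) (F : Fam m J), ∃ χ : α J F → PtT F, ∀ ω, ptr F J ω = χ (f J F ω))
    (hy : Kn ((range 0).image c) 1 1 y) {x p N : ℝ} {n : ℕ → ℝ} (hx : x ∈ G)
    (hbx : b ≤ x) (lo : ∀ i < r, sn i x + 2 * φ ≤ n i)
    (hi : ∀ i < r, n i + 8 * φ ≤ sn i x + (1 - x))
    (ne : ∀ i < r, ∀ l < i, n i - sn i x + 8 * φ ≤ n l - sn l x)
    (h3 : N + φ ≤ p + (1 - x)) (h3' : ∀ l < r, N + 2 * φ ≤ p + (n l - sn l x)) :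
    Few S f (vg x) y (qJets m c 0 r 0 (fun _ _ => x) (fun l _ => sn l x) (fun l _ => n l))
      (qJet m ((range r).image c) (c 0) 0 x p N) := by
  obtain ⟨C₀, htm⟩ := L.tm
  obtain ⟨u₁, rd, hrd, hch⟩ := L.ch.ch x hx
  have hφ := L.φ0
  have hup1 := hch.u0
  have hup0 : 0 ≤ x := L.b0.trans hbx
  have hmin : min (1 : ℝ) (1 - x) = 1 - x := min_eq_right (by linarith)
  have h1 : Few S f (vg x) y ((qJets m c 0 r 0 (fun _ _ => x) (fun l _ => sn l x)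
      (fun l _ => n l)).prod (qJet m ((range r).image c) (c 0) 0 x p N))
      (qJet m ((range r).image c) (c 0) 0 x p N) := by
    refine few_jetN htm hch (k := c 0) (j := 0) (wv := fun _ _ => x) (pv := fun l _ => sn l x)
      (Nv := fun l _ => n l) (lv := fun l => n l - sn l x - φ) (w₁ := x) (w₂ := x)
      (p₁ := p) (p₂ := p) (N₁ := N) (N₂ := N) (p₀ := 1) (lam := 1) (σ₀ := φ)
      (fun _ _ _ _ _ => le_rfl) le_rfl le_rfl hup1 le_rfl one_pos hφ ?_ ?_ ?_ ?_ le_rfl ?_ ?_ hf hy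
    · intro i _ hir
      linarith [lo i hir]
    · intro i _ hir j' hj'
      obtain rfl : j' = 0 := by omega
      push_cast
      linarith
    · intro i _ hir j' hj'
      rw [hmin, min_self]
      linarith [hi i hir]
    · intro i _ hir j' hj' l _ hl
      rw [min_self]
      linarith [ne i hir l hl]
    · rw [hmin, min_self]
      push_cast
      linarith
    · intro l _ hl
      rw [min_self]
      push_cast
      linarith [h3' l hl]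
  rw [few_iff] at h1 ⊢
  intro h hh
  obtain ⟨e, he, h2⟩ := h1 h hh
  exact ⟨e, he, F1.cst L.pos (fun _ hK J F A => qjet_triv hr 0 x p N e hK J F A) h2⟩

/-- **The value of a closed polynomial of the chain**, over the labels of an earlier window. -/
theorem clo_up (L : Lad S c r sn G b o φ) (hr : 1 ≤ r)
    (hf : ∀ (J : ℕ) (F : Fam m J), ∃ χ : α J F → PtT F, ∀ ω, ptr F J ω = χ (f J F ω))
    (hy : Kn ((range 0).image c) 1 1 y) {v x p N : ℝ} {n : ℕ → ℝ} (hv : v ∈ G) (hx : x ∈ G)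
    (hbv : b ≤ v) (hvx : v ≤ x) (hxo : x ≤ o) (hn : Nst r sn v φ n)
    (hlo : ∀ i < r, sn i x + 10 * φ ≤ n i) (h3 : N + φ ≤ p + (1 - x))
    (h3' : ∀ l < r, N + 2 * φ ≤ p + (n l - sn l x)) :
    Few S f (vg x) y (qJets m c 0 r 0 (fun _ _ => v) (fun l _ => sn l v) (fun l _ => n l))
      (qJet m ((range r).image c) (c 0) 0 x p N) := by
  have hφ := L.φ0
  have hbx := hbv.trans hvx
  have hfl : ∀ u ∈ G, b ≤ u → u ≤ x → ∀ i < r,
      |(sn i u - u) - (sn i v - v)| ≤ 2 * φ ∧ |(sn i u - u) - (sn i x - x)| ≤ 2 * φ :=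
    fun u hu h1 h2 i hi => ⟨L.flat hi hu hv h1 (h2.trans hxo) hbv (hvx.trans hxo),
      L.flat hi hu hx h1 (h2.trans hxo) hbx hxo⟩
  have lo' : ∀ u ∈ G, b ≤ u → u ≤ x → ∀ i < r, sn i u + 2 * φ ≤ n i := by
    intro u hu h1 h2 i hi
    have a := abs_le.1 (hfl u hu h1 h2 i hi).2
    linarith [hlo i hi, a.2]
  have hi' : ∀ u ∈ G, b ≤ u → u ≤ x → ∀ i < r, n i + 8 * φ ≤ sn i u + (1 - u) := by
    intro u hu h1 h2 i hi
    have a := abs_le.1 (hfl u hu h1 h2 i hi).1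
    linarith [hn.hi i hi, a.1]
  have ne' : ∀ u ∈ G, b ≤ u → u ≤ x → ∀ i < r, ∀ l < i,
      n i - sn i u + 8 * φ ≤ n l - sn l u := by
    intro u hu h1 h2 i hi l hl
    have a := abs_le.1 (hfl u hu h1 h2 i hi).1
    have a' := abs_le.1 (hfl u hu h1 h2 l (by omega)).1
    linarith [hn.ne i hi l hl, a.1, a.2, a'.1, a'.2]
  have L' := L.cut hv hbv (hvx.trans hxo)
  have h1 := L'.pos_up hf hy (v := x) (p := fun l => sn l v) (n := n) hx hvx hxo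
    (fun i _ => by linarith) (fun u hu h1 h2 => lo' u hu (hbv.trans h1) h2)
    (fun u hu h1 h2 => hi' u hu (hbv.trans h1) h2) (fun u hu h1 h2 => ne' u hu (hbv.trans h1) h2)
  exact Few.trans L.pos (L.exs hx) h1 (few_clo L hr hf hy hx hbx (lo' x hx hbx le_rfl)
    (hi' x hx hbx le_rfl) (ne' x hx hbx le_rfl) h3 h3')

/-- **The jets of a closed polynomial of the chain**, over the labels of an earlier window. -/
theorem jet_clo (L : Lad S c r sn G b o φ) (hr : 1 ≤ r) {v w : ℝ} (hv : v ∈ G) (hw : w ∈ G)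
    (hbv : b ≤ v) (hvw : v ≤ w) (hwo : w ≤ o) {n : ℕ → ℝ} {N pm P₂ : ℝ} {K : ℕ}
    (hm₂ : pm ≤ P₂) (hNp : pm ≤ N)
    (h1 : ∀ i < r, (N - pm) + ((K : ℝ) + 2 * r + 8) * (w - v) + 60 * ((r : ℝ) + 2) * φ ≤
      n i - sn i w)
    (h0 : (N - pm) + ((K : ℝ) + 2 * r + 8) * (w - v) + 60 * ((r : ℝ) + 2) * φ ≤ 1 - w)
    {j : ℕ} (hj : j ≤ K + 1)
    (hf : ∀ (J : ℕ) (F : Fam m J), ∃ χ : α J F → PtT F, ∀ ω, ptr F J ω = χ (f J F ω))
    (hy : Kn ((range 0).image c) 1 1 y) {η : ℝ} (hη : 0 < η) :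
    F1 S f (vg w) y (qJets m c 0 r j (fun _ _ => v) (fun l _ => sn l v)
      (fun l j' => n l - (j' : ℝ) * v))
      (qJet m ((range r).image c) (c 0) j w P₂ (N - (j : ℝ) * v)) (φ / 8) η :=
  F1.cst L.pos (fun _ hK J F A => qjet_triv hr j v pm (N - (j : ℝ) * v) (φ / 8) hK J F A)
    (jet_cvk L hv hw hbv hvw hwo (c 0) le_rfl hm₂ hNp h1 h0 hj hf hy hη)

end Pool.NPZ
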