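import Pool.Agent.H42.V0B.Lja
import Pool.Agent.H60.ALT.Nzf

/-!
# The jets of the own path over the labels of a family, in a ladder of windows

`JnF`: a label of the family and labels of the chain over one code. `ojs_lad`: the jets of the own path
over the labels of a family at the window `v` of a ladder, from a later record and from positions and
velocities of the chain over the charts of the base window.
-/

set_option autoImplicit false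

namespace Pool.NPZ

open Finset Real MvPolynomial
open Pool.Agent.H49.Ent Pool.Agent.H32.Dense Pool.STK Pool.KA Pool.KSAT Pool.K2S Pool.PB Pool.GEN
open Pool.S6C Pool.RCD Pool.LA91 Pool.OWN68 Pool.CHT Pool.AJW Pool.V0F Pool.AVG96
open Pool.GRD (LbP)
open Pool.UNJ (ceI Tub)
open Pool.AJX (LbX FwX)
open Pool.ALT (Fml)

variable {m : ℕ}

/-- **A label of the family and labels of the chain**, over one code. -/
def JnF (Ψ : Fml m) (c : ℕ → Fin m) (r K : ℕ) (v e : ℝ) (E rd p : ℕ → ℝ) : Fm4 m :=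
  fun J F A V z z' G g => ∃ (V₁ : Type) (z₁ : PtT F → V₁) (z₁' : LnT F → V₁)
    (G₁ : V₁ → MvPolynomial (Option (Fin m)) ℝ) (χ : V → V₁),
    Ψ J F A V₁ z₁ z₁' G₁ ∧ (∀ x, χ (z' x) = z₁' x) ∧ (∀ x, G x = G₁ (χ x)) ∧
    LbX F c 0 r K e E v rd p A z z' g ∧ ∀ ω, A ω → z (ptr F J ω) = z' (slam F ⌊v * J⌋₊ ω)

/-- A label with a finer code. -/
theorem lbok_fine {J : ℕ} {F : Fam m J} {I : Finset (Fin m)} {k : Fin m} {K e r w ρ P : ℕ}
    {A : F.Ω → Prop} {V V' : Type} {z : PtT F → V} {z' : LnT F → V}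
    {G : V → MvPolynomial (Option (Fin m)) ℝ} (h : LbOK F I k K e r w ρ P A z z' G)
    (y : PtT F → V') (y' : LnT F → V') (φ : V' → V) (h1 : ∀ x, φ (y' x) = z' x)
    (h2 : ∀ ω, A ω → y (ptr F r ω) = y' (slam F w ω)) :
    LbOK F I k K e r w ρ P A y y' (fun x => G (φ x)) := by
  refine ⟨fun x => h.deg _, fun x => h.dep _, h2, fun ω hω => ?_, fun ω hω => ?_, fun ω hω => ?_⟩
  · simp only [h1]
    exact h.pos ω hω
  · simp only [h1]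
    exact h.vel ω hω
  · simp only [h1]
    exact h.lip ω hω

theorem JnF.ex {Ψ : Fml m} {c : ℕ → Fin m} {r K : ℕ} {v e : ℝ} {E rd p : ℕ → ℝ} {J : ℕ}
    {F : Fam m J} {A : F.Ω → Prop} {V₁ : Type} {z₁ : PtT F → V₁} {z₁' : LnT F → V₁}
    {G₁ : V₁ → MvPolynomial (Option (Fin m)) ℝ} (h : Ψ J F A V₁ z₁ z₁' G₁)
    (hc : ∀ ω, A ω → z₁ (ptr F J ω) = z₁' (slam F ⌊v * J⌋₊ ω)) {V₂ : Type} {z₂ : PtT F → V₂}
    {z₂' : LnT F → V₂} {g : V₂ → ℕ → MvPolynomial (Option (Fin m)) ℝ}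
    (hg : LbX F c 0 r K e E v rd p A z₂ z₂' g)
    (hc₂ : ∀ ω, A ω → z₂ (ptr F J ω) = z₂' (slam F ⌊v * J⌋₊ ω)) :
    JnF Ψ c r K v e E rd p J F A (V₁ × V₂) (fun x => (z₁ x, z₂ x)) (fun x => (z₁' x, z₂' x))
      (fun x => G₁ x.1) (fun x => g x.2) := by
  have hcc : ∀ ω, A ω → (fun x => (z₁ x, z₂ x)) (ptr F J ω) =
      (fun x => (z₁' x, z₂' x)) (slam F ⌊v * J⌋₊ ω) := fun ω hω =>
    Prod.ext (hc ω hω) (hc₂ ω hω)
  refine ⟨V₁, z₁, z₁', G₁, Prod.fst, h, fun _ => rfl, fun _ => rfl, fun i h0 hi => ?_, hcc⟩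
  exact lbok_fine (hg i h0 hi) (fun x => (z₁ x, z₂ x)) (fun x => (z₁' x, z₂' x)) Prod.snd
    (fun _ => rfl) hcc

theorem JnF.hs {Ψ : Fml m} {c : ℕ → Fin m} {r K : ℕ} {v e : ℝ} {E rd p : ℕ → ℝ}
    (hs : ∀ (J : ℕ) (F : Fam m J) (A B : F.Ω → Prop) (V : Type) (z : PtT F → V)
      (z' : LnT F → V) (G : V → MvPolynomial (Option (Fin m)) ℝ), Sub B A → Ψ J F A V z z' G →
      Ψ J F B V z z' G) (J : ℕ) (F : Fam m J) (A B : F.Ω → Prop) (V : Type) (z : PtT F → V)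
    (z' : LnT F → V) (G : V → MvPolynomial (Option (Fin m)) ℝ)
    (g : V → ℕ → MvPolynomial (Option (Fin m)) ℝ) (hB : Sub B A)
    (h : JnF Ψ c r K v e E rd p J F A V z z' G g) :
    JnF Ψ c r K v e E rd p J F B V z z' G g := by
  obtain ⟨V₁, z₁, z₁', G₁, χ, h1, h3, h4, h5, h6⟩ := h
  exact ⟨V₁, z₁, z₁', G₁, χ, hs J F A B V₁ z₁ z₁' G₁ hB h1, h3, h4, h5.sub hB,
    fun ω hω => h6 ω (hB ω hω)⟩

theorem JnF.lb {Ψ : Fml m} {c : ℕ → Fin m} {r K K' : ℕ} {v e eG rG pN : ℝ} {E rd p : ℕ → ℝ}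
    {I : Finset (Fin m)} {κ : Fin m}
    (hl : ∀ (J : ℕ) (F : Fam m J) (A : F.Ω → Prop) (V : Type) (z : PtT F → V)
      (z' : LnT F → V) (G : V → MvPolynomial (Option (Fin m)) ℝ), Ψ J F A V z z' G →
      LbOK F I κ K' ⌊eG * J⌋₊ J ⌊v * J⌋₊ ⌊(rG + eG) * J⌋₊ ⌊pN * J⌋₊ A z z' G)
    (J : ℕ) (F : Fam m J) (A : F.Ω → Prop) (V : Type) (z : PtT F → V)
    (z' : LnT F → V) (G : V → MvPolynomial (Option (Fin m)) ℝ)
    (g : V → ℕ → MvPolynomial (Option (Fin m)) ℝ)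
    (h : JnF Ψ c r K v e E rd p J F A V z z' G g) :
    LbOK F I κ K' ⌊eG * J⌋₊ J ⌊v * J⌋₊ ⌊(rG + eG) * J⌋₊ ⌊pN * J⌋₊ A z z' G := by
  obtain ⟨V₁, z₁, z₁', G₁, χ, h1, h3, h4, h5, h6⟩ := h
  have h7 := lbok_fine (hl J F A V₁ z₁ z₁' G₁ h1) z z' χ h3 h6
  have e1 : G = fun x => G₁ (χ x) := funext h4
  rw [e1]
  exact h7

theorem kn0_W (c : ℕ → Fin m) (p₀ : ℝ) :
    Kn0 ((range 0).image c) p₀ (fun (J : ℕ) (F : Fam m J) => F.W) := by
  intro J F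
  exact ⟨fun x => (x.1, fun _ => 0), fun ω => by simp [Fam.W]⟩

/-- **The jets of the own path over the labels of a family**, in a ladder. -/
theorem ojs_lad (K r : ℕ) {h : ℝ} (hh : 0 < h) (hh1 : h ≤ 1) {ε : ℝ} (hε : 0 < ε) :
    ∃ δ : ℝ, 0 < δ ∧ ∀ {m : ℕ} {S : PCl m} {c : ℕ → Fin m} {sn : ℕ → ℝ → ℝ} {Gs : Set ℝ}
    {b o φ : ℝ}, Lad S c r sn Gs b o φ → ∀ {v j a q g₀ d P pN rG eG : ℝ} {p n E rd : ℕ → ℝ}
    {Nf : ℕ → ℕ → ℝ} {Kc : ℕ}, v ∈ Gs → j ∈ Gs → b ≤ v → v ≤ j → j ≤ o → j ≤ a → a ≤ 1 → 0 < q →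
    0 < g₀ → (∀ i < r, 0 ≤ E i ∧ E i ≤ 1) → (∀ i < r, 0 ≤ rd i ∧ rd i + g₀ ≤ 1) →
    (∀ i < r, n i + E i + g₀ ≤ 1) → Nst r sn v (2 * φ) n → (∀ i < r, sn i j + 40 * φ ≤ n i) →
    (∀ i < r, P + q + 20 * φ ≤ sn r v + (n i - sn i v)) → P + q + 20 * φ ≤ sn r j →
    (∀ i < r, n i - sn i v + 3 * φ ≤ v - b) → (∀ i < r, sn i b - φ ≤ p i) →
    (∀ i < r, ∀ j : ℕ, j ≤ 1 → n i - (j : ℝ) * v ≤ Nf i j) → sn r v - φ ≤ pN →
    pN < P → P - pN ≤ δ * q / 8 → v + q ≤ 1 → 0 ≤ rG → 0 < eG →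
    d + (r + 1) * (40 * φ) < δ * q / 2 → ∀ {Ψ : Fml m},
    (∀ (J : ℕ) (F : Fam m J) (A B : F.Ω → Prop) (V : Type) (z : PtT F → V)
      (z' : LnT F → V) (G : V → MvPolynomial (Option (Fin m)) ℝ), Sub B A → Ψ J F A V z z' G →
      Ψ J F B V z z' G) →
    (∀ (J : ℕ) (F : Fam m J) (A : F.Ω → Prop) (V : Type) (z : PtT F → V)
      (z' : LnT F → V) (G : V → MvPolynomial (Option (Fin m)) ℝ), Ψ J F A V z z' G →
      LbOK F ((range r).image c) (c r) K ⌊eG * J⌋₊ J ⌊v * J⌋₊ ⌊(rG + eG) * J⌋₊ ⌊pN * J⌋₊ A z z'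
        G) →
    (∀ sa sb : ℝ, P ≤ sa → sa ≤ sb → sb ≤ P + q →
      Bas S (fun J F A => ∀ (V : Type) (z : PtT F → V) (z' : LnT F → V)
      (G : V → MvPolynomial (Option (Fin m)) ℝ), Ψ J F A V z z' G →
      CH (Pool.Agent.H49.Ent.cond F.p A True)
        (fun ω => ⌊(2 : ℝ) ^ (sb * J) * ojet F (c r) 0 (G (z' (slam F ⌊v * J⌋₊ ω))) ω⌋)
        (fun ω => (⌊(2 : ℝ) ^ (sa * J) * ojet F (c r) 0 (G (z' (slam F ⌊v * J⌋₊ ω))) ω⌋,
          (ceI ((range r).image c) (fun _ => J) (F.x ω),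
            (z' (slam F ⌊v * J⌋₊ ω), F.W ω)))) ≤
        ((1 - h) * (sb - sa) * Real.log 2 + d) * J)) →
    ∃ e₁ : ℝ, 0 < e₁ ∧ ∀ e : ℝ, 0 < e → e ≤ e₁ →
    Bas S (fun J F A => ∃ (V : Type) (z : PtT F → V) (z' : LnT F → V)
      (g : V → ℕ → MvPolynomial (Option (Fin m)) ℝ),
      LbX F c 0 r Kc e E v rd (fun l => sn l v) A z z' g ∧
      ∀ ω, A ω → z (ptr F J ω) = z' (slam F ⌊v * J⌋₊ ω)) →
    ∀ K₀ : ℕ, Bas S (fun J F A => ∀ (V : Type) (z : PtT F → V) (z' : LnT F → V)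
      (G : V → MvPolynomial (Option (Fin m)) ℝ), Ψ J F A V z z' G → ∀ u₀ : F.Ω → ℕ → ℕ → ℤ,
      (jetQ m c 0 r b p Nf).P K₀ e J F A u₀ →
      ∃ (V₁ : Type) (z₁ : F.Ω → V₁), Cl2 (ptr F J) (vg a J F) A z₁ ∧
        CH (Pool.Agent.H49.Ent.cond F.p A True) (ojs F (c r) v (P + q) z' G (K + 2))
          (fun ω => (u₀ ω, (z₁ ω, F.W ω))) ≤ ε * q * J) := by
  classical
  obtain ⟨δ, hδ, Hp⟩ := jets_npx K hh hh1 hε
  refine ⟨δ, hδ, ?_⟩
  intro m S c sn Gs b o φ L v j a q g₀ d P pN rG eG p n E rd Nf Kc hv hj hbv hvj hjo hja ha hq hg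
    hE hrd hn1 hn hlo hNn hNj hnb hp hNf hpN hpP hPδ hvq hrG heG hd Ψ hs hl hrow
  obtain ⟨C₀, htm⟩ := L.tm
  have hφ := L.φ0
  have hr0 : (0 : ℝ) ≤ r := Nat.cast_nonneg r
  have hδq : 0 < δ * q := by positivity
  have hj1 : j < 1 := hjo.trans_lt L.o1
  obtain ⟨τ, hτ⟩ : ∃ τ : ℝ, τ = (δ * q / 2 - d - (r + 1) * (40 * φ)) / (8 * (r + 1)) := ⟨_, rfl⟩
  have hτ0 : 0 < τ := by
    rw [hτ]
    exact div_pos (by linarith) (by linarith)
  have hτe : 8 * ((r + 1) * τ) = δ * q / 2 - d - (r + 1) * (40 * φ) := by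
    rw [hτ]
    field_simp
  obtain ⟨lam, hlam⟩ : ∃ lam : ℝ, lam = (1 + j) / 2 - v := ⟨_, rfl⟩
  have hwl : j < v + lam := by rw [hlam]; linarith
  have hl1 : v + lam < 1 := by rw [hlam]; linarith
  have hlam0 : 0 ≤ lam := by linarith
  have hn' : Nst r sn v φ n :=
    ⟨fun i hi => by linarith [hn.lo i hi], fun i hi => by linarith [hn.hi i hi],
      fun i hi l hl => by linarith [hn.ne i hi l hl]⟩
  obtain ⟨e₁, he₁, hch⟩ := chX_lad L (E := E) (n := n) (rd := rd) hv hj hbv hvj hjo hg hτ0 hwl hl1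
    hE hrd hn1 hn hlo
  obtain ⟨e₂, he₂, hctx⟩ := vuj_ctx (f := fun J F => ptr F J) (y := fun _ (F : Fam m _) => F.W)
    (E := E) (rd := rd) L (fun J F => ⟨fun x => x, fun _ => rfl⟩) kn_W (fun i hi => (hE i hi).2)
    hv hbv (hvj.trans hjo) (hvj.trans hja) ha hn' hp hnb (Nf := Nf) hNf
    (kn_zero (p₁ := v + lam) (lam₁ := lam) kn_W) hlam0 (fun i hi => (hrd i hi).1) Kc r le_rfl
    (show 0 < δ * q / 4 by positivity)
  have hLc := L.cut hv hbv (hvj.trans hjo)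
  obtain ⟨e₃, he₃, hv₁⟩ := few_iff.1 (t_nup hLc (f := fun J F => ptr F J)
    (y := fun J (F : Fam m J) ω => (bI ((range 0).image c) (v + lam) J F ω, F.W ω))
    (fun J F => ⟨fun x => x, fun _ => rfl⟩) (kn_bW c _) (w := v) (j := j) (oj := j) (pr := pN)
    (N := P + q) (p := fun l => sn l v) (n := n) hv hj le_rfl hvj hjo le_rfl hj1.le
    (fun l _ => by linarith) hpN hn' (fun l hl => by linarith [hlo l hl]) hNj hNn) τ hτ0
  obtain ⟨e₄, he₄, hv₂⟩ := few_iff.1 (t_nup hLc (f := fun J F => ptr F J)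
    (y := fun _ (F : Fam m _) => F.W)
    (fun J F => ⟨fun x => x, fun _ => rfl⟩) kn_W (w := v) (j := j) (oj := j) (pr := pN)
    (N := P + q) (p := fun l => sn l v) (n := n) hv hj le_rfl hvj hjo le_rfl hj1.le
    (fun l _ => by linarith) hpN hn' (fun l hl => by linarith [hlo l hl]) hNj hNn)
    (δ * q / 4) (by positivity)
  obtain ⟨e₀, he₀⟩ : ∃ e₀ : ℝ, e₀ = min (min e₁ e₂) (min (min e₃ e₄) (g₀ / 2)) := ⟨_, rfl⟩
  refine ⟨e₀, by rw [he₀]; exact lt_min (lt_min he₁ he₂) (lt_min (lt_min he₃ he₄)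
    (by linarith)), fun e he hee hlb K₀ => ?_⟩
  have b1 : e ≤ e₁ := hee.trans (he₀ ▸ (min_le_left _ _).trans (min_le_left _ _))
  have b2 : e ≤ e₂ := hee.trans (he₀ ▸ (min_le_left _ _).trans (min_le_right _ _))
  have b3 : e ≤ e₃ := hee.trans (he₀ ▸ (min_le_right _ _).trans ((min_le_left _ _).trans
    (min_le_left _ _)))
  have b4 : e ≤ e₄ := hee.trans (he₀ ▸ (min_le_right _ _).trans ((min_le_left _ _).trans
    (min_le_right _ _)))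
  have b5 : e ≤ g₀ / 2 := hee.trans (he₀ ▸ (min_le_right _ _).trans (min_le_right _ _))
  have hΘ : ∀ (J : ℕ) (F : Fam m J) (A : F.Ω → Prop) (V : Type) (z : PtT F → V) (z' : LnT F → V)
      (G : V → MvPolynomial (Option (Fin m)) ℝ) (g : V → ℕ → MvPolynomial (Option (Fin m)) ℝ),
      JnF Ψ c r Kc v e E rd (fun l => sn l v) J F A V z z' G g →
      LbX F c 0 r Kc e E v rd (fun l => sn l v) A z z' g ∧
      LbOK F ((range r).image c) (c r) K ⌊eG * J⌋₊ J ⌊v * J⌋₊ ⌊(rG + eG) * J⌋₊ ⌊pN * J⌋₊ A z z'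
        G := fun J F A V z z' G g hg => ⟨by
    obtain ⟨V₁, z₁, z₁', G₁, χ, h1, h3, h4, h5, h6⟩ := hg
    exact h5, JnF.lb hl J F A V z z' G g hg⟩
  have H : NpX K h δ S c 0 r v j lam (40 * φ) g₀ e τ E (fun l => sn l v) (fun l => sn l j) n rd
      (c r) ((range r).image c) Kc P pN q d rG eG a
      (JnF Ψ c r Kc v e E rd (fun l => sn l v)) :=
    { ch := hch e b1
      e0 := he
      eg := b5
      pNP := hpP
      Pδ := hPδ
      q0 := hq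
      vq := hvq
      wa := hja
      a1 := ha
      rG0 := hrG
      eG0 := heG
      dd := by linarith
      npl := fun J F A V z z' G g hg => by
        obtain ⟨V₁, z₁, z₁', G₁, χ, h1, h3, h4, h5, h6⟩ := hg
        exact ⟨h5, h6⟩
      val := valH_few htm he heG hrG (fun i hi => (hE i hi).2) (fun i hi => (hrd i hi).1) hΘ
        (hv₁.mono b3 le_rfl)
      lb := fun J F A V z z' G g hg => (hΘ J F A V z z' G g hg).2
      hs := JnF.hs hs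
      row := fun sa sb h1 h2 h3 => by
        refine Bas.mono 0 ((hrow sa sb h1 h2 h3).and (Pool.GRW.tmc_bas htm one_pos)) ?_
        rintro J - F A ⟨h4, hA, -⟩ V z z' G g ⟨V₁, z₁, z₁', G₁, χ, k1, k3, k4, k5, k6⟩
        have h5 := h4 V₁ z₁ z₁' G₁ k1
        have h0 := (isLaw_cond F.isLaw hA).nonneg
        have e1 : ∀ ω, G (z' (slam F ⌊v * J⌋₊ ω)) = G₁ (z₁' (slam F ⌊v * J⌋₊ ω)) := fun ω => by
          rw [k4, k3]
        simp only [e1]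
        refine le_trans (CH_mono_cond h0 fun ω ω' _ _ e => ?_) h5
        simp only [Prod.mk.injEq] at e ⊢
        exact ⟨e.1, e.2.1, by rw [← k3, ← k3, e.2.2.1], e.2.2.2⟩ }
  have HJ := Hp htm H (Qu := jetQ m c 0 r b p Nf) (f := fun J F => ptr F J)
    (y := fun _ (F : Fam m _) => F.W) (fun J F => ⟨fun x => x, fun _ => rfl⟩)
    (kn0_W c _)
    (valH_few htm he heG hrG (fun i hi => (hE i hi).2) (fun i hi => (hrd i hi).1) hΘ
      (hv₂.mono b4 le_rfl)) e (fun K₁ => by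
      refine Bas.mono 0 (hctx e he b2 K₁) ?_
      intro J _ F A h1 V z z' G g hg u₀ hu₀
      exact h1 V z z' g (hΘ J F A V z z' G g hg).1 u₀ hu₀) K₀
  refine Bas.mono 0 (HJ.and hlb) ?_
  rintro J - F A ⟨h1, V₂, z₂, z₂', g, hg, hc₂⟩ V z z' G hG u₀ hu₀
  have h2 := h1 _ _ _ _ _ (JnF.ex hG (hl J F A V z z' G hG).cls hg hc₂) u₀ hu₀
  obtain ⟨V₁, z₁, hz₁, h3⟩ := h2
  exact ⟨V₁, z₁, hz₁, h3⟩

end Pool.NPZ
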