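import Pool.Agent.H42.V0B.Ljb

/-!
# The codes of the target over any labels, in a ladder of windows

`jet_conv`: the jets over the labels of a later window. `cod_lad`: the codes of the own path of the
target over labels of the window `w`, from the labels of a family at the window `v ≤ w`.
-/

set_option autoImplicit false

namespace Pool.NPZ

open Finset Real MvPolynomial
open Pool.Agent.H49.Ent Pool.Agent.H32.Dense Pool.STK Pool.KA Pool.KSAT Pool.K2S Pool.PB Pool.GEN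
open Pool.S6C Pool.RCD Pool.LA91 Pool.OWN68 Pool.CHT Pool.AJW Pool.V0F Pool.AVG96
open Pool.GRD (LbP)
open Pool.UNJ (ceI Tub)
open Pool.AJX (LbX FwX)
open Pool.ALT (Fml)
open Pool.AVG71 (cod cod_few)

/-- **The jets over the labels of a later window.** -/
theorem jet_conv {m : ℕ} {S : PCl m} {c : ℕ → Fin m} {r : ℕ} {sn : ℕ → ℝ → ℝ} {Gs : Set ℝ}
    {b o φ : ℝ} (L : Lad S c r sn Gs b o φ) {v w : ℝ} (hv : v ∈ Gs) (hw : w ∈ Gs) (hbv : b ≤ v)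
    (hvw : v ≤ w) (hwo : w ≤ o) {n : ℕ → ℝ} {N pm pN P₂ : ℝ} {K : ℕ} (hm₁ : pm ≤ pN)
    (hm₂ : pm ≤ P₂) (hNp : pm ≤ N)
    (h1 : ∀ i < r, (N - pm) + ((K : ℝ) + 2 * r + 8) * (w - v) + 60 * ((r : ℝ) + 2) * φ ≤
      n i - sn i w)
    (h0 : (N - pm) + ((K : ℝ) + 2 * r + 8) * (w - v) + 60 * ((r : ℝ) + 2) * φ ≤ 1 - w)
    {j : ℕ} (hj : j ≤ K + 1) {α γ : ∀ J : ℕ, Fam m J → Type}
    {f : ∀ (J : ℕ) (F : Fam m J), F.Ω → α J F} {y : ∀ (J : ℕ) (F : Fam m J), F.Ω → γ J F}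
    (hf : ∀ (J : ℕ) (F : Fam m J), ∃ χ : α J F → PtT F, ∀ ω, ptr F J ω = χ (f J F ω))
    (hy : Kn ((range 0).image c) 1 1 y) {η : ℝ} (hη : 0 < η) :
    F1 S f (vg w) y ((qJets m c 0 r j (fun _ _ => v) (fun l _ => sn l v)
      (fun l j' => n l - (j' : ℝ) * v)).prod
      (qJet m ((range r).image c) (c r) j v pN (N - (j : ℝ) * v)))
      (qJet m ((range r).image c) (c r) j w P₂ (N - (j : ℝ) * v)) (φ / 8) η := by
  obtain ⟨C₀, htm⟩ := L.tm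
  have hφ := L.φ0
  have hr0 : (0 : ℝ) ≤ r := Nat.cast_nonneg r
  have hK0 : (0 : ℝ) ≤ K := Nat.cast_nonneg K
  have hwv : 0 ≤ w - v := by linarith
  obtain ⟨u₁, rw₁, -, hch⟩ := L.ch.ch w hw
  have hw1 : w < 1 := hch.u0
  have hmin : min (1 : ℝ) (1 - w) = 1 - w := min_eq_right (by linarith [hch.w0])
  have d2 : ∀ i < r, sn i w - sn i v ≤ w - v + 2 * φ := fun i hi =>
    L.dif hi hv hw hbv (by linarith) (by linarith) hwo
  obtain ⟨a, ha⟩ : ∃ a : ℝ, a = (w - v) + 3 * φ := ⟨_, rfl⟩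
  have ha0 : 0 < a := by rw [ha]; linarith
  obtain ⟨B, hB⟩ : ∃ B : ℝ, B = (N - pm) + ((K : ℝ) + 1) * (w - v) + φ := ⟨_, rfl⟩
  have hB0 : 0 < B := by
    rw [hB]
    have : 0 ≤ ((K : ℝ) + 1) * (w - v) := by positivity
    linarith
  obtain ⟨lv, hlv⟩ : ∃ lv : ℕ → ℝ, lv = fun i : ℕ => B + ((r : ℝ) - i) * a := ⟨_, rfl⟩
  have hlv0 : ∀ i < r, B ≤ lv i ∧ lv i ≤ B + r * a := fun i hi => by
    have h2 : (i : ℝ) ≤ r := by exact_mod_cast hi.le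
    have h3 : (0 : ℝ) ≤ i := Nat.cast_nonneg i
    rw [hlv]
    constructor <;> dsimp only <;> nlinarith
  have hra : B + r * a + 4 * (w - v) + 20 * φ ≤
      (N - pm) + ((K : ℝ) + 2 * r + 8) * (w - v) + 60 * ((r : ℝ) + 2) * φ := by
    rw [hB, ha]
    have e1 : 0 ≤ (r : ℝ) * (w - v) := by positivity
    have e2 : 0 ≤ (r : ℝ) * φ := by positivity
    nlinarith
  have hmn : ∀ i < r, sn i w - (w - v) - 2 * φ ≤ min (sn i v) (sn i w) := fun i hi =>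
    le_min (by linarith [d2 i hi]) (by linarith)
  have hmp : pm ≤ min pN P₂ := le_min hm₁ hm₂
  have hjK : (j : ℝ) * (w - v) ≤ ((K : ℝ) + 1) * (w - v) := by
    refine mul_le_mul_of_nonneg_right ?_ hwv
    exact_mod_cast hj
  have hj0 : (0 : ℝ) ≤ j := Nat.cast_nonneg j
  intro K₁
  refine Bas.mono 0 (few_jetN_e htm hch (k := c r) (j := j) (wv := fun _ _ => v)
    (pv := fun l _ => sn l v)
    (Nv := fun l j' => n l - (j' : ℝ) * v) (lv := lv) (w₁ := v) (w₂ := w)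
    (p₁ := pN) (p₂ := P₂) (N₁ := N - (j : ℝ) * v) (N₂ := N - (j : ℝ) * v) (p₀ := 1) (lam := 1)
    (σ₀ := φ) (κ := -φ) (fun _ _ _ _ _ => hvw) hvw le_rfl hw1 le_rfl one_pos hφ (by linarith)
    ?_ ?_ ?_ ?_ le_rfl ?_ ?_ hf hy hη K₁) ?_
  · intro i _ hi
    linarith [(hlv0 i hi).1]
  · intro i _ hi j' _
    show sn i w + lv i + φ ≤ n i - (j' : ℝ) * v + (j' : ℝ) * w
    have e1 : 0 ≤ (j' : ℝ) * (w - v) := mul_nonneg (Nat.cast_nonneg j') hwv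
    have e2 : (j' : ℝ) * (w - v) = j' * w - j' * v := by ring
    linarith [(hlv0 i hi).2, h1 i hi]
  · intro i _ hi j' _
    show sn i w + lv i + φ ≤ min (sn i v) (sn i w) + min 1 (1 - w)
    rw [hmin]
    linarith [hmn i hi, (hlv0 i hi).2]
  · intro i _ hi j' _ l _ hl
    show sn i w + lv i + φ ≤ min (sn i v) (sn i w) + lv l
    have e1 : lv i + a ≤ lv l := by
      rw [hlv]
      dsimp only
      have : (l : ℝ) + 1 ≤ i := by exact_mod_cast hl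
      nlinarith
    rw [ha] at e1
    linarith [hmn i hi]
  · rw [hmin]
    have e2 : (j : ℝ) * (w - v) = j * w - j * v := by ring
    rw [hB] at hra
    have e3 : 0 ≤ (r : ℝ) * a := by positivity
    linarith
  · intro l _ hl
    have e1 := (hlv0 l hl).1
    rw [hB] at e1
    have e2 : (j : ℝ) * (w - v) = j * w - j * v := by ring
    linarith
  · rintro J - F A H u u' ⟨hu1, hu2⟩ hu'
    obtain ⟨V, z, hz, hH⟩ := H (fun ω => (u ω).1) (fun ω => (u ω).2) u' hu1 hu2 hu'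
    refine ⟨V, z, hz, hH.trans (le_of_eq ?_)⟩
    ring

/-- **The codes of the target over any labels of a window**, from the labels of a family at an earlier
window (or the same), in a ladder. -/
theorem cod_lad (K r : ℕ) {h : ℝ} (hh : 0 < h) (hh1 : h ≤ 1) {ε : ℝ} (hε : 0 < ε) :
    ∃ δ : ℝ, 0 < δ ∧ ∀ {m : ℕ} {S : PCl m} {c : ℕ → Fin m} {sn : ℕ → ℝ → ℝ} {Gs : Set ℝ}
    {b o φ : ℝ}, Lad S c r sn Gs b o φ → ∀ {v j w a q g₀ d P pN pm N' rG eG : ℝ}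
    {p n E rd : ℕ → ℝ} {Nf : ℕ → ℕ → ℝ} {Kc j₀ : ℕ}, v ∈ Gs → j ∈ Gs → w ∈ Gs → b ≤ v → v ≤ j →
    j ≤ o → j ≤ a → v ≤ w → w ≤ o → w ≤ a → a ≤ 1 → 0 < q →
    0 < g₀ → (∀ i < r, 0 ≤ E i ∧ E i ≤ 1) → (∀ i < r, 0 ≤ rd i ∧ rd i + g₀ ≤ 1) →
    (∀ i < r, n i + E i + g₀ ≤ 1) → Nst r sn v (2 * φ) n → (∀ i < r, sn i j + 40 * φ ≤ n i) →
    (∀ i < r, P + q + 20 * φ ≤ sn r v + (n i - sn i v)) → P + q + 20 * φ ≤ sn r j →
    (∀ i < r, n i - sn i v + 3 * φ ≤ v - b) → (∀ i < r, sn i b - φ ≤ p i) →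
    (∀ i < r, ∀ j : ℕ, j ≤ 1 → n i - (j : ℝ) * v ≤ Nf i j) → sn r v - φ ≤ pN →
    pN < P → P - pN ≤ δ * q / 8 → v + q ≤ 1 → 0 ≤ rG → 0 < eG →
    d + (r + 1) * (40 * φ) < δ * q / 2 → pm ≤ pN →
    (∀ i < r, (P + q - pm) + ((K : ℝ) + 2 * r + 8) * (w - v) + 60 * ((r : ℝ) + 2) * φ ≤
      n i - sn i w) →
    (P + q - pm) + ((K : ℝ) + 2 * r + 8) * (w - v) + 60 * ((r : ℝ) + 2) * φ ≤ 1 - w →
    (∀ i : ℕ, j₀ ≤ i → N' - (i : ℝ) * w ≤ P + q - (i : ℝ) * v) →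
    ∀ {Ψ : Fml m},
    (∀ (J : ℕ) (F : Fam m J) (A B : F.Ω → Prop) (V : Type) (z : PtT F → V)
      (z' : LnT F → V) (G : V → MvPolynomial (Option (Fin m)) ℝ), Sub B A → Ψ J F A V z z' G →
      Ψ J F B V z z' G) →
    (∀ (J : ℕ) (F : Fam m J) (A : F.Ω → Prop) (V : Type) (z : PtT F → V)
      (z' : LnT F → V) (G : V → MvPolynomial (Option (Fin m)) ℝ), Ψ J F A V z z' G →
      LbOK F ((range r).image c) (c r) K ⌊eG * J⌋₊ J ⌊v * J⌋₊ ⌊(rG + eG) * J⌋₊ ⌊pN * J⌋₊ A z z'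
        G) →
    (∀ sa sb : ℝ, P ≤ sa → sa ≤ sb → sb ≤ P + q →
      Bas S (fun J F A => ∀ (V : Type) (z : PtT F → V) (z' : LnT F → V)
      (G : V → MvPolynomial (Option (Fin m)) ℝ), Ψ J F A V z z' G →
      CH (Pool.Agent.H49.Ent.cond F.p A True)
        (fun ω => ⌊(2 : ℝ) ^ (sb * J) * ojet F (c r) 0 (G (z' (slam F ⌊v * J⌋₊ ω))) ω⌋)
        (fun ω => (⌊(2 : ℝ) ^ (sa * J) * ojet F (c r) 0 (G (z' (slam F ⌊v * J⌋₊ ω))) ω⌋,
          (ceI ((range r).image c) (fun _ => J) (F.x ω),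
            (z' (slam F ⌊v * J⌋₊ ω), F.W ω)))) ≤
        ((1 - h) * (sb - sa) * Real.log 2 + d) * J)) →
    Bas S (fun J F A => ∃ (V : Type) (z : PtT F → V) (z' : LnT F → V)
      (G : V → MvPolynomial (Option (Fin m)) ℝ), Ψ J F A V z z' G) →
    ∃ e₁ : ℝ, 0 < e₁ ∧ ∀ e : ℝ, 0 < e → e ≤ e₁ →
    Bas S (fun J F A => ∃ (V : Type) (z : PtT F → V) (z' : LnT F → V)
      (g : V → ℕ → MvPolynomial (Option (Fin m)) ℝ),
      LbX F c 0 r Kc e E v rd (fun l => sn l v) A z z' g ∧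
      ∀ ω, A ω → z (ptr F J ω) = z' (slam F ⌊v * J⌋₊ ω)) →
    ∀ (K₀ K' : ℕ) (P₂ Ec : ℝ), K' ≤ K → pm ≤ P₂ →
    Bas S (fun J F A => ∀ u₀ : F.Ω → ℕ → ℕ → ℤ, (jetQ m c 0 r b p Nf).P K₀ e J F A u₀ →
      ∀ (V : Type) (z : PtT F → V) (z' : LnT F → V)
        (G' : V → MvPolynomial (Option (Fin m)) ℝ), LbP F ((range r).image c) (c r) K'
          J ⌊w * J⌋₊ ⌊(P₂ - e) * J⌋₊ A z z' G' → CfB F ⌊w * J⌋₊ Ec (c r) A z' G' →
      ∃ (V₁ : Type) (z₁ : F.Ω → V₁), Cl2 (ptr F J) (vg a J F) A z₁ ∧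
        ∀ σ : ℝ, 0 < σ → σ ≤ 2 ^ (N' * J) →
        CH (Pool.Agent.H49.Ent.cond F.p A True)
          (cod F ⌊w * J⌋₊ j₀ (K' + 1) σ (c r) z' G')
          (fun ω => (u₀ ω, (z₁ ω, F.W ω))) ≤ ε * q * J) := by
  classical
  obtain ⟨δ, hδ, Hj⟩ := ojs_lad K r hh hh1 (ε := ε / 8) (by positivity)
  refine ⟨δ, hδ, ?_⟩
  intro m S c sn Gs b o φ L v j w a q g₀ d P pN pm N' rG eG p n E rd Nf Kc j₀ hv hj hw hbv hvj hjo
    hja hvw hwo hwa ha hq hg hE hrd hn1 hn hlo hNn hNj hnb hp hNf hpN hpP hPδ hvq hrG heG hd hpm hc1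
    hc0 hN' Ψ hs hl hrow hex
  obtain ⟨C₀, htm⟩ := L.tm
  have hφ := L.φ0
  have hr0 : (0 : ℝ) ≤ r := Nat.cast_nonneg r
  have hv0 : 0 ≤ v := L.b0.trans hbv
  have hw0 : 0 ≤ w := hv0.trans hvw
  have hn' : Nst r sn v φ n :=
    ⟨fun i hi => by linarith [hn.lo i hi], fun i hi => by linarith [hn.hi i hi],
      fun i hi l hl => by linarith [hn.ne i hi l hl]⟩
  obtain ⟨e₁, he₁, Hj⟩ := Hj L (a := a) hv hj hbv hvj hjo hja ha hq hg hE hrd hn1 hn hlo hNn hNj hnb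
    hp hNf hpN hpP hPδ hvq hrG heG hd (Kc := Kc) hs hl hrow
  -- the chain
  obtain ⟨k, hk⟩ := exists_nat_ge ((v - b) / φ)
  rw [div_le_iff₀ hφ] at hk
  have hcF := vuj_all (f := fun J F => ptr F J) (y := fun _ (F : Fam m _) => F.W) L
    (fun J F => ⟨fun x => x, fun _ => rfl⟩) kn_W hv hbv (hvw.trans hwo) hn' hp hnb (Nf := Nf) hNf
    (K + 1) k v hv hbv le_rfl hk
  have hup : ∀ (J : ℕ) (F : Fam m J), ∃ χ : LnT F → LnT F, ∀ ω,
      vg v J F ω = χ (vg a J F ω) := fun J F => vg_mono (hvw.trans hwa) ha J F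
  have hcF' := Few.up (f' := fun J F => ptr F J) (y' := fun _ (F : Fam m _) => F.W) L.pos
    (fun J F => ⟨fun x => x, fun _ => rfl⟩) hup (fun J F => ⟨fun x => x, fun _ => rfl⟩) hcF
  obtain ⟨e₂, he₂, hch⟩ := few_iff.1 hcF' (ε * q / 8) (by positivity)
  -- the change of the labels
  obtain ⟨η, hη⟩ : ∃ η : ℝ, η = ε * q / (8 * ((K : ℝ) + 2)) := ⟨_, rfl⟩
  have hη0 : 0 < η := by rw [hη]; positivity
  have hηe : ((K : ℝ) + 2) * η = ε * q / 8 := by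
    rw [hη]
    field_simp
  have hpmP : pm ≤ P + q := by linarith
  obtain ⟨e₀, he₀⟩ : ∃ e₀ : ℝ, e₀ = min (min e₁ e₂) (φ / 8) := ⟨_, rfl⟩
  refine ⟨e₀, by rw [he₀]; exact lt_min (lt_min he₁ he₂) (by linarith),
    fun e he hee hlb K₀ K' P₂ Ec hK' hP₂ => ?_⟩
  have b1 : e ≤ e₁ := hee.trans (he₀ ▸ (min_le_left _ _).trans (min_le_left _ _))
  have b2 : e ≤ e₂ := hee.trans (he₀ ▸ (min_le_left _ _).trans (min_le_right _ _))
  have b3 : e ≤ φ / 8 := hee.trans (he₀ ▸ min_le_right _ _)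
  have hC : ∀ i < K + 2, F1 S (fun J F => ptr F J) (vg a)
      (fun _ (F : Fam m _) => F.W) ((qJets m c 0 r i (fun _ _ => v) (fun l _ => sn l v)
      (fun l j' => n l - (j' : ℝ) * v)).prod
      (qJet m ((range r).image c) (c r) i v pN (P + q - (i : ℝ) * v)))
      (qJet m ((range r).image c) (c r) i w P₂ (P + q - (i : ℝ) * v)) e η := fun i hi =>
    ((jet_conv L hv hw hbv hvw hwo (N := P + q) hpm hP₂ hpmP hc1 hc0 (j := i) (by omega)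
      (f := fun J F => ptr F J) (y := fun _ (F : Fam m _) => F.W)
      (fun J F => ⟨fun x => x, fun _ => rfl⟩) kn_W hη0).up hwa ha).mono b3 le_rfl
  -- the numbers of values
  choose MT JT hcT using fun i : ℕ => cnt_jet m K i (N := P + q - (i : ℝ) * v) (w := v) hrG heG
  choose MR JR hcR using fun i : ℕ => cnt_cfb m K' i (N := P + q - (i : ℝ) * v) (w := w) (E := Ec)
    hw0 (hwa.trans ha)
  have hxs : Exs S (qJets m c 0 r (K + 1) (fun _ _ => v) (fun l _ => sn l v)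
      (fun l j' => n l - (j' : ℝ) * v)) := L.exs hv
  obtain ⟨Kx, Mx', hx⟩ := hxs e he
  obtain ⟨K₁, hK₁⟩ : ∃ K₁ : ℕ, K₁ = K₀ + K + Kx + ∑ i ∈ range (K + 2), (MT i + MR i) := ⟨_, rfl⟩
  obtain ⟨J₁, hJ₁⟩ : ∃ J₁ : ℕ, J₁ = ∑ i ∈ range (K + 2), (JT i + JR i) := ⟨_, rfl⟩
  obtain ⟨L', hL'⟩ : ∃ L' : ℝ, L' = ((K' + 1 + 1 : ℕ) : ℝ) *
    Real.log (2 * (2 ^ (2 * (K' + 1) + 1) + 1) + 1) := ⟨_, rfl⟩
  obtain ⟨J₂, hJ₂⟩ := exists_nat_ge (L' / (ε / 2 * q))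
  have hMT : ∀ i < K + 2, MT i ≤ K₁ ∧ MR i ≤ K₁ := fun i hi => by
    have h1 : MT i + MR i ≤ ∑ i ∈ range (K + 2), (MT i + MR i) :=
      Finset.single_le_sum (f := fun i => MT i + MR i) (fun i _ => Nat.zero_le _)
        (Finset.mem_range.2 hi)
    omega
  have hJT : ∀ i < K + 2, JT i ≤ J₁ ∧ JR i ≤ J₁ := fun i hi => by
    have h1 : JT i + JR i ≤ ∑ i ∈ range (K + 2), (JT i + JR i) :=
      Finset.single_le_sum (f := fun i => JT i + JR i) (fun i _ => Nat.zero_le _)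
        (Finset.mem_range.2 hi)
    omega
  have hCall : Bas S (fun J F A => ∀ i < K + 2, ∀ (u : F.Ω → (ℕ → ℕ → ℤ) × ℤ) (u' : F.Ω → ℤ),
      ((qJets m c 0 r i (fun _ _ => v) (fun l _ => sn l v)
        (fun l j' => n l - (j' : ℝ) * v)).prod
        (qJet m ((range r).image c) (c r) i v pN (P + q - (i : ℝ) * v))).P K₁ e J F A u →
      (qJet m ((range r).image c) (c r) i w P₂ (P + q - (i : ℝ) * v)).P K₁ e J F A u' →
      ∃ (V : Type) (z : F.Ω → V), Cl2 (ptr F J) (vg a J F) A z ∧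
        CH (Pool.Agent.H49.Ent.cond F.p A True) u' (fun ω => (u ω, (z ω, F.W ω))) ≤ η * J) :=
    Bas.all (K + 2) fun i hi => hC i hi K₁
  refine Bas.mono (max J₁ J₂) (((Hj e he b1 hlb K₀).and (hch.mono b2 le_rfl K₁)).and
    ((hCall.and hx).and (hex.and (Pool.GRW.tmc_bas htm one_pos)))) ?_
  rintro J hJ F A ⟨⟨HJ, HC⟩, ⟨HV, uc, huc, -⟩, ⟨V₀, z₀, z₀', G₀, hG₀⟩, hA, -⟩ u₀ hu₀ V z z' G hl' hcf
  have hJ1 : J₁ ≤ J := (le_max_left _ _).trans hJ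
  have hJ2 : (J₂ : ℝ) ≤ J := by exact_mod_cast (le_max_right _ _).trans hJ
  have hJ0 : (0 : ℝ) ≤ J := Nat.cast_nonneg J
  have f1 : L' ≤ ε / 2 * q * J := by
    have := hJ₂.trans hJ2
    rw [div_le_iff₀ (by positivity)] at this
    linarith
  have hlG := hl J F A V₀ z₀ z₀' G₀ hG₀
  obtain ⟨Va, za, hza, h1⟩ := HJ V₀ z₀ z₀' G₀ hG₀ u₀ hu₀
  obtain ⟨Vc, zc, hzc, h2⟩ := HC u₀ uc ((jetQ m c 0 r b p Nf).mono (by omega) le_rfl hu₀)
    ((qJets m c 0 r (K + 1) _ _ _).mono (by omega) le_rfl huc)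
  obtain ⟨q', hq'⟩ : ∃ q' : F.Ω → ℝ, q' = Pool.Agent.H49.Ent.cond F.p A True := ⟨_, rfl⟩
  have hq'l : IsLaw q' := by
    rw [hq']
    exact isLaw_cond F.isLaw hA
  have h0 := hq'l.nonneg
  rw [← hq'] at h1 h2
  obtain ⟨uT, huT⟩ : ∃ uT : F.Ω → Fin (K + 2) → ℤ, uT = ojs F (c r) v (P + q) z₀' G₀ (K + 2) :=
    ⟨_, rfl⟩
  rw [← huT] at h1
  obtain ⟨uW, huW⟩ : ∃ uW : F.Ω → Fin (K + 2) → ℤ, uW = fun ω (i : Fin (K + 2)) =>
    ⌊(2 : ℝ) ^ ((P + q - ((i : ℕ) : ℝ) * v) * J) *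
      ojet F (c r) (i : ℕ) (G (z' (slam F ⌊w * J⌋₊ ω))) ω⌋ := ⟨_, rfl⟩
  have hcd : ∀ i : Fin (K + 2), ∃ (V₁ : Type) (z₁ : F.Ω → V₁), Cl2 (ptr F J) (vg a J F) A z₁ ∧
      CH q' (fun ω => uW ω i) (fun ω => ((uc ω, uT ω i), (z₁ ω, F.W ω))) ≤ η * J := by
    intro i
    have g1 : (qJets m c 0 r i (fun _ _ => v) (fun l _ => sn l v)
        (fun l j' => n l - (j' : ℝ) * v)).P K₁ e J F A (fun ω i' j' =>
          if 0 ≤ i' ∧ i' < r ∧ j' ≤ (i : ℕ) then uc ω i' j' else 0) :=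
      qJets_take le_rfl (by omega) ((qJets m c 0 r (K + 1) _ _ _).mono (by omega) le_rfl huc)
    have g2 : (qJet m ((range r).image c) (c r) (i : ℕ) v pN
        (P + q - ((i : ℕ) : ℝ) * v)).P K₁ e J F A (fun ω => uT ω i) := by
      refine ⟨?_, V₀, z₀, z₀', G₀, (LbP.of hlG).mono (Finset.Subset.refl _) (by omega)
        (Nat.floor_le_floor (mul_le_mul_of_nonneg_right (by linarith) hJ0)),
        fun ω _ => by rw [huT]; rfl⟩
      have e1 : (fun ω => uT ω i) = fun ω => ⌊(2 : ℝ) ^ ((P + q - ((i : ℕ) : ℝ) * v) * J) *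
          ojet F (c r) (i : ℕ) (G₀ (z₀' (slam F ⌊v * J⌋₊ ω))) ω⌋ := by
        funext ω
        rw [huT]
        rfl
      show (cnt F.p (fun ω => uT ω i) A : ℝ) ≤ _
      rw [e1]
      refine (hcT i J ((hJT i i.2).1.trans hJ1) F _ _ _ A V₀ z₀ z₀' G₀ hlG).trans
        (Real.exp_le_exp.2 (mul_le_mul_of_nonneg_right ?_ hJ0))
      exact_mod_cast (hMT i i.2).1
    have g3 : (qJet m ((range r).image c) (c r) (i : ℕ) w P₂
        (P + q - ((i : ℕ) : ℝ) * v)).P K₁ e J F A (fun ω => uW ω i) := by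
      refine ⟨?_, V, z, z', G, hl'.mono (Finset.Subset.refl _) (by omega) le_rfl,
        fun ω _ => by rw [huW]⟩
      show (cnt F.p (fun ω => uW ω i) A : ℝ) ≤ _
      rw [huW]
      refine (hcR i J ((hJT i i.2).2.trans hJ1) F _ A V z' G hl'.deg hcf).trans
        (Real.exp_le_exp.2 (mul_le_mul_of_nonneg_right ?_ hJ0))
      exact_mod_cast (hMT i i.2).2
    obtain ⟨V₁, z₁, hz₁, h3⟩ := HV (i : ℕ) i.2 (fun ω => ((fun i' j' =>
      if 0 ≤ i' ∧ i' < r ∧ j' ≤ (i : ℕ) then uc ω i' j' else 0 : ℕ → ℕ → ℤ), uT ω i))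
      (fun ω => uW ω i) (And.intro g1 g2) g3
    refine ⟨V₁, z₁, hz₁, le_trans (CH_mono_cond h0 fun ω ω' _ _ e1 => ?_) (hq' ▸ h3)⟩
    simp only [Prod.mk.injEq] at e1 ⊢
    refine ⟨⟨?_, e1.1.2⟩, e1.2⟩
    rw [e1.1.1]
  choose V₁ z₁ hz₁ h3 using hcd
  refine ⟨Va × (Vc × (∀ i, V₁ i)), fun ω => (za ω, (zc ω, fun i => z₁ i ω)),
    hza.join (hzc.join (Cl2.pi hz₁)), fun σ hσ0 hσ => ?_⟩
  rw [← hq']
  obtain ⟨Y, hY⟩ : ∃ Y : F.Ω → (ℕ → ℕ → ℤ) × ((Va × (Vc × (∀ i, V₁ i))) × (ℕ × F.ζ)), Y = fun ω =>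
    (u₀ ω, ((za ω, (zc ω, fun i => z₁ i ω)), F.W ω)) := ⟨_, rfl⟩
  rw [← hY]
  have k1 : CH q' uT Y ≤ ε / 8 * q * J := by
    refine le_trans (CH_mono_cond h0 fun ω ω' _ _ e1 => ?_) h1
    rw [hY] at e1
    simp only [Prod.mk.injEq] at e1 ⊢
    exact ⟨e1.1, e1.2.1.1, e1.2.2⟩
  have k2 : CH q' uc Y ≤ ε * q / 8 * J := by
    refine le_trans (CH_mono_cond h0 fun ω ω' _ _ e1 => ?_) h2
    rw [hY] at e1
    simp only [Prod.mk.injEq] at e1 ⊢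
    exact ⟨e1.1, e1.2.1.2.1, e1.2.2⟩
  have k3 : CH q' uW (fun ω => ((uc ω, uT ω), Y ω)) ≤ ∑ _i : Fin (K + 2), η * J := by
    refine Pool.OWN83.ch_vecs h0 _ (K + 2) uW (fun _ => η * J) fun i => ?_
    refine le_trans (CH_mono_cond h0 fun ω ω' _ _ e1 => ?_) (h3 i)
    rw [hY] at e1
    simp only [Prod.mk.injEq] at e1 ⊢
    exact ⟨⟨e1.1.1, congrFun e1.1.2 i⟩, congrFun e1.2.2.1.2.2 i, e1.2.2.2⟩
  have k3' : ∑ _i : Fin (K + 2), η * J = ε * q / 8 * J := by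
    rw [Finset.sum_const, Finset.card_univ, Fintype.card_fin, nsmul_eq_mul]
    push_cast
    rw [← hηe]
    ring
  have k4 : CH q' (cod F ⌊w * J⌋₊ j₀ (K' + 1) σ (c r) z' G) (fun ω => (uW ω, Y ω)) ≤ L' := by
    rw [hL']
    refine cod_few (w := w) (N := N') hw0 (floor_le (hwa.trans ha) J) hσ0 hσ (fun v => ?_) hq'l
      (fun ω => (uW ω, Y ω)) j₀ (s := fun i => P + q - (i : ℕ) * v) (fun i hi _ => hN' i hi)
      fun ω ω' _ _ e1 => ⟨?_, fun i hi hi' => ?_⟩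
    · exact Nat.succ_le_succ (hl'.deg v)
    · have e2 := (Prod.ext_iff.mp e1).2
      rw [hY] at e2
      simp only [Prod.mk.injEq] at e2
      exact (Prod.ext_iff.mp e2.2.2).1
    · have e2 := congrFun (Prod.ext_iff.mp e1).1 ⟨i, by omega⟩
      rw [huW] at e2
      exact e2
  have s1 := CH_le_add h0 (cod F ⌊w * J⌋₊ j₀ (K' + 1) σ (c r) z' G) uW Y
  have s2 := CH_le_add h0 uW (fun ω => (uc ω, uT ω)) Y
  have s3 := CH_subadd h0 uc uT Y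
  rw [k3'] at k3
  have e4 : ε * q * J = ε / 2 * q * J + 4 * (ε * q / 8 * J) := by ring
  have e5 : ε / 8 * q * J = ε * q / 8 * J := by ring
  have e6 : 0 ≤ ε * q / 8 * J := by positivity
  rw [e4]
  linarith only [s1, s2, s3, k1, k2, k3, k4, f1, e5, e6]

end Pool.NPZ
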