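import Pool.Agent.H42.V0B.Ljd

/-!
# The value over a mesh of windows

`valH_mesh`: the own height over a label is few bits given the heights of the chain, when it is a closed
polynomial of the chain at each window of a mesh.
-/

set_option autoImplicit false

namespace Pool.NPZ

open Finset Real MvPolynomial
open Pool.Agent.H49.Ent Pool.Agent.H32.Dense Pool.STK Pool.KA Pool.KSAT Pool.K2S Pool.PB Pool.GEN
open Pool.S6C Pool.RCD Pool.LA91 Pool.OWN68 Pool.CHT Pool.AJW Pool.V0F Pool.AVG96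
open Pool.GRD (LbP)
open Pool.UNJ (ceI Tub)
open Pool.AJX (LbX FwX)
open Pool.ALT (Fml DpI wz wz_slam floorw)

/-- The number of the values of a small quantity. -/
theorem cnt_val {Ω : Type} [Fintype Ω] {q : Ω → ℝ} {A : Ω → Prop} {x : Ω → ℝ} {N p : ℝ} {J : ℕ}
    (hJ : (1 : ℝ) ≤ J) (hx : ∀ ω, A ω → |x ω| ≤ 2 * (1 / 2 ^ ⌊p * J⌋₊)) :
    (cnt q (fun ω => ⌊(2 : ℝ) ^ (N * J) * x ω⌋) A : ℝ) ≤
      Real.exp (((⌈|N| + |p| + 3⌉₊ + 2 : ℕ) : ℝ) * J) := by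
  have hJ0 : (0 : ℝ) ≤ J := Nat.cast_nonneg J
  have p0 : ∀ x : ℝ, (0 : ℝ) < 2 ^ x := fun x => Real.rpow_pos_of_pos (by norm_num) _
  have hNd : ∀ ω, A ω → |(2 : ℝ) ^ (N * J) * x ω| ≤ 4 * 2 ^ ((|N| + |p|) * J) := fun ω hω => by
    rw [abs_mul, abs_of_pos (p0 _)]
    calc (2 : ℝ) ^ (N * J) * |x ω| ≤ 2 ^ (N * J) * (2 * (2 * 2 ^ (-(p * J)))) :=
          mul_le_mul_of_nonneg_left ((hx ω hω).trans
            (mul_le_mul_of_nonneg_left (ip2_le _) (by norm_num))) (p0 _).le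
      _ = 4 * 2 ^ (N * J + -(p * J)) := by
          rw [Real.rpow_add (by norm_num)]
          ring
      _ ≤ 4 * 2 ^ ((|N| + |p|) * J) := by
          refine mul_le_mul_of_nonneg_left ?_ (by norm_num)
          refine Real.rpow_le_rpow_of_exponent_le (by norm_num) ?_
          have k1 := mul_le_mul_of_nonneg_right (le_abs_self N) hJ0
          have k2 := mul_le_mul_of_nonneg_right (neg_abs_le p) hJ0
          linarith
  have h1 : (1 : ℝ) ≤ 2 ^ ((|N| + |p|) * J) := Real.one_le_rpow (by norm_num) (by positivity)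
  have h2 := cnt_le_of_abs (p := q) (A := A) (u := fun ω => ⌊(2 : ℝ) ^ (N * J) * x ω⌋)
    (B := 4 * 2 ^ ((|N| + |p|) * J) + 1) (by positivity) (fun ω hω => by
      have h3 := hNd ω hω
      obtain ⟨dd, hdd⟩ : ∃ dd : ℝ, dd = (2 : ℝ) ^ (N * J) * x ω := ⟨_, rfl⟩
      rw [← hdd] at h3 ⊢
      have c1 := Int.floor_le dd
      have c2 := Int.lt_floor_add_one dd
      rw [abs_le] at h3 ⊢
      constructor <;> linarith [h3.1, h3.2])
  refine h2.trans ?_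
  calc 2 * (4 * (2 : ℝ) ^ ((|N| + |p|) * J) + 1) + 1 ≤ 11 * 2 ^ ((|N| + |p|) * J) := by linarith
    _ ≤ Real.exp (3 * J) * 2 ^ ((|N| + |p|) * J) := by
        refine mul_le_mul_of_nonneg_right ?_ (p0 _).le
        have e1 : (11 : ℝ) ≤ Real.exp 3 := by
          have e2 : Real.exp 3 = Real.exp 1 ^ 3 := by
            rw [← Real.exp_nat_mul]
            norm_num
          have e3 := Real.exp_one_gt_d9
          rw [e2]
          nlinarith [mul_self_nonneg (Real.exp 1), e3]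
        refine e1.trans (Real.exp_le_exp.2 ?_)
        linarith
    _ ≤ Real.exp (((⌈|N| + |p| + 3⌉₊ + 2 : ℕ) : ℝ) * J) := by
        rw [← exp_p2, ← Real.exp_add]
        refine Real.exp_le_exp.2 ?_
        have e1 : |N| + |p| + 3 ≤ ((⌈|N| + |p| + 3⌉₊ + 2 : ℕ) : ℝ) := by
          push_cast
          linarith [Nat.le_ceil (|N| + |p| + 3)]
        have e2 : (|N| + |p|) * J * Real.log 2 ≤ (|N| + |p|) * J * 1 :=
          mul_le_mul_of_nonneg_left (by have := Real.log_two_lt_d9; linarith) (by positivity)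
        have e3 := mul_le_mul_of_nonneg_right e1 hJ0
        linarith

/-- A small loss of the precision. -/
theorem two_inv {p e : ℝ} {J : ℕ} (h1 : 1 ≤ e * J) (h2 : 1 ≤ p * J) :
    2 * (1 / (2 : ℝ) ^ ⌊p * J⌋₊) ≤ 1 / 2 ^ ⌊(p - e) * J⌋₊ := by
  have hfl : ⌊(p - e) * J⌋₊ + 1 ≤ ⌊p * J⌋₊ := by
    have e1 : (p - e) * J = p * J - e * J := by ring
    rcases le_or_gt 0 ((p - e) * J) with h5 | h5
    · rw [← Nat.floor_add_one h5]
      exact Nat.floor_le_floor (by linarith)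
    · rw [Nat.floor_of_nonpos h5.le]
      exact Nat.le_floor (by push_cast; linarith)
  have h3 : (1 : ℝ) / 2 ^ ⌊p * J⌋₊ ≤ 1 / 2 ^ (⌊(p - e) * J⌋₊ + 1) := inv_mono hfl
  have h4 : (1 : ℝ) / 2 ^ (⌊(p - e) * J⌋₊ + 1) = 1 / 2 ^ ⌊(p - e) * J⌋₊ / 2 := by
    rw [pow_succ]
    field_simp
  rw [h4] at h3
  linarith

variable {m : ℕ}

theorem vad_zero {J : ℕ} {F : Fam m J} {c : ℕ → Fin m} {r : ℕ} {κ : Fin m} {K : ℕ} {v p : ℝ}
    {A : F.Ω → Prop} {V : Type} {z' : LnT F → V} {G : V → MvPolynomial (Option (Fin m)) ℝ}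
    (h : ∀ ω, A ω → |ojet F κ 0 (G (z' (slam F ⌊v * J⌋₊ ω))) ω| ≤ 1 / 2 ^ ⌊p * J⌋₊) :
    VaD F c r κ K v v p A z' G := by
  refine ⟨Unit, fun _ => (), fun _ => (), fun _ => 0, fun _ => ?_, fun _ b b' _ _ => rfl,
    fun _ _ => rfl, fun ω hω => ?_⟩
  · rw [totalDegree_zero]
    exact Nat.zero_le _
  · rw [map_zero, sub_zero]
    exact h ω hω

variable {S : PCl m} {c : ℕ → Fin m} {r : ℕ} {sn : ℕ → ℝ → ℝ} {Gs : Set ℝ} {b o φ : ℝ}
  {α γ : ∀ J : ℕ, Fam m J → Type} {f : ∀ (J : ℕ) (F : Fam m J), F.Ω → α J F}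
  {y : ∀ (J : ℕ) (F : Fam m J), F.Ω → γ J F}

/-- **The value over a mesh of windows.** -/
theorem valH_mesh (L : Lad S c r sn Gs b o φ) (hr : 1 ≤ r)
    (hf : ∀ (J : ℕ) (F : Fam m J), ∃ χ : α J F → PtT F, ∀ ω, ptr F J ω = χ (f J F ω))
    (hy : Kn ((range 0).image c) 1 1 y) {κ : Fin m} {K' Kc M : ℕ} {v j N : ℝ}
    {W p n E rd : ℕ → ℝ} (hv : v ∈ Gs) (hj : j ∈ Gs) (hbv : b ≤ v) (hjo : j ≤ o)
    (hW0 : W 0 = v) (hW : ∀ t ≤ M, W t ∈ Gs ∧ W t ≤ j)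
    (hWm : ∀ t < M, W t ≤ W (t + 1)) (hn : Nst r sn v φ n)
    (hlo : ∀ i < r, sn i j + 12 * φ ≤ n i) (hp0 : 0 < p 0) (hpm : ∀ t < M, p t ≤ p (t + 1))
    (hN : N ≤ p M) (h3 : ∀ t < M, N + φ ≤ p t + (1 - W (t + 1)))
    (h3' : ∀ t < M, ∀ l < r, N + 2 * φ ≤ p t + (n l - sn l (W (t + 1))))
    (hE : ∀ i < r, E i ≤ 1) (hrd : ∀ i < r, 0 ≤ rd i) {h : ℝ} (hh : 0 < h) :
    ∃ e₁ : ℝ, 0 < e₁ ∧ ∀ e : ℝ, 0 < e → e ≤ e₁ → ∀ {Θ : Fm4 m},
    (∀ (J : ℕ) (F : Fam m J) (A : F.Ω → Prop) (V : Type) (z : PtT F → V) (z' : LnT F → V)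
      (G : V → MvPolynomial (Option (Fin m)) ℝ) (g : V → ℕ → MvPolynomial (Option (Fin m)) ℝ),
      Θ J F A V z z' G g → LbX F c 0 r Kc e E v rd (fun l => sn l v) A z z' g ∧
      (∀ ω, A ω → |ojet F κ 0 (G (z' (slam F ⌊v * J⌋₊ ω))) ω| ≤ 1 / 2 ^ ⌊p 0 * J⌋₊) ∧
      ∀ t : ℕ, 1 ≤ t → t ≤ M → VaD F c r κ K' v (W t) (p t) A z' G) →
    ValH S Θ c 0 r κ v j N n f y h := by
  classical
  obtain ⟨C₀, htm⟩ := L.tm
  have hφ := L.φ0
  have hj1 : j ≤ 1 := (hjo.trans_lt L.o1).le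
  have hWv : ∀ t ≤ M, v ≤ W t := by
    intro t
    induction t with
    | zero => exact fun _ => hW0.ge
    | succ t ih => exact fun ht => (ih (by omega)).trans (hWm t (by omega))
  have hpp : ∀ t ≤ M, p 0 ≤ p t := by
    intro t
    induction t with
    | zero => exact fun _ => le_rfl
    | succ t ih => exact fun ht => (ih (by omega)).trans (hpm t (by omega))
  obtain ⟨η, hη⟩ : ∃ η : ℝ, η = h / (2 * ((M : ℝ) + 1)) := ⟨_, rfl⟩
  have hη0 : 0 < η := by rw [hη]; positivity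
  have hηe : ((M : ℝ) + 1) * η = h / 2 := by
    rw [hη]
    field_simp
  have key : ∀ t, ∃ e : ℝ, 0 < e ∧ (t < M → F1 S f (vg j) y
      (qJets m c 0 r 0 (fun _ _ => v) (fun l _ => sn l v) (fun l _ => n l))
      (qJet m ((range r).image c) (c 0) 0 (W (t + 1)) (p t) N) e η) := fun t => by
    by_cases ht : t < M
    · obtain ⟨w1, w2⟩ := hW (t + 1) (by omega)
      have h1 := clo_up L hr hf hy (v := v) (x := W (t + 1)) (p := p t) (N := N) (n := n) hv w1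
        hbv (hWv (t + 1) (by omega)) (w2.trans hjo) hn (fun i hi => by
          have a := abs_le.1 (L.flat hi w1 hj (hbv.trans (hWv (t + 1) (by omega)))
            (w2.trans hjo) (hbv.trans ((hWv (t + 1) (by omega)).trans w2)) hjo)
          linarith [hlo i hi, a.2]) (h3 t ht) (h3' t ht)
      obtain ⟨e, he, h2⟩ := few_iff.1 h1 η hη0
      exact ⟨e, he, fun _ => h2.up w2 hj1⟩
    · exact ⟨1, one_pos, fun h => absurd h ht⟩
  choose eF heF hF using key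
  obtain ⟨e₁, he₁, hle⟩ := min_fam M eF heF
  refine ⟨e₁, he₁, fun e he hee Θ hΘ => ?_⟩
  obtain ⟨M₁, J₁, hc1⟩ := cnt_jets m Kc (e := e + 1) (w := v) (by linarith) n rd r hrd
  obtain ⟨Mv, hMv⟩ : ∃ Mv : ℕ, Mv = ∑ t ∈ range M, (⌈|N| + |p t| + 3⌉₊ + 2) := ⟨_, rfl⟩
  have hMt : ∀ t < M, ⌈|N| + |p t| + 3⌉₊ + 2 ≤ Mv := fun t ht => by
    rw [hMv]
    exact Finset.single_le_sum (f := fun t => ⌈|N| + |p t| + 3⌉₊ + 2) (fun i _ => Nat.zero_le _)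
      (Finset.mem_range.2 ht)
  obtain ⟨K₁, hK₁⟩ : ∃ K₁ : ℕ, K₁ = Kc + K' + M₁ + Mv + 1 := ⟨_, rfl⟩
  have hall : Bas S (fun J F A => ∀ t < M, ∀ (u : F.Ω → ℕ → ℕ → ℤ) (u' : F.Ω → ℤ),
      (qJets m c 0 r 0 (fun _ _ => v) (fun l _ => sn l v) (fun l _ => n l)).P K₁ e J F A u →
      (qJet m ((range r).image c) (c 0) 0 (W (t + 1)) (p t) N).P K₁ e J F A u' →
      ∃ (V : Type) (z : F.Ω → V), Cl2 (f J F) (vg j J F) A z ∧
        CH (Pool.Agent.H49.Ent.cond F.p A True) u' (fun ω => (u ω, (z ω, y J F ω))) ≤ η * J) :=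
    Bas.all M fun t ht => ((hF t ht).mono (hee.trans (hle t ht)) le_rfl) K₁
  obtain ⟨J₂, hJ₂⟩ := exists_nat_ge (1 / e)
  obtain ⟨J₃, hJ₃⟩ := exists_nat_ge (1 / p 0)
  obtain ⟨J₄, hJ₄⟩ := exists_nat_ge (Real.log (2 * ((M + 5 : ℕ) : ℝ) + 1) / (h / 2))
  refine Bas.mono (max (max J₁ J₂) (max J₃ (max J₄ 1))) (hall.and (pos_bas L.pos)) ?_
  rintro J hJ F A ⟨HA, hA⟩ V z z' G g hTh
  obtain ⟨hlb, hps, hva⟩ := hΘ J F A V z z' G g hTh
  have hJ1 : J₁ ≤ J := by omega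
  have hJ01 : (1 : ℝ) ≤ J := by exact_mod_cast (by omega : 1 ≤ J)
  have hJ0 : (0 : ℝ) ≤ J := Nat.cast_nonneg J
  have f2 : 1 ≤ e * J := by
    have e1 : (J₂ : ℝ) ≤ J := by exact_mod_cast (by omega : J₂ ≤ J)
    have e2 := hJ₂.trans e1
    rw [div_le_iff₀ he] at e2
    linarith
  have f3 : ∀ t ≤ M, 1 ≤ p t * J := fun t ht => by
    have e1 : (J₃ : ℝ) ≤ J := by exact_mod_cast (by omega : J₃ ≤ J)
    have e2 := hJ₃.trans e1
    rw [div_le_iff₀ hp0] at e2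
    have e3 := mul_le_mul_of_nonneg_right (hpp t ht) hJ0
    linarith
  have f4 : Real.log (2 * ((M + 5 : ℕ) : ℝ) + 1) ≤ h / 2 * J := by
    have e1 : (J₄ : ℝ) ≤ J := by exact_mod_cast (by omega : J₄ ≤ J)
    have e2 := hJ₄.trans e1
    rw [div_le_iff₀ (by positivity)] at e2
    linarith
  obtain ⟨q', hq'⟩ : ∃ q' : F.Ω → ℝ, q' = Pool.Agent.H49.Ent.cond F.p A True := ⟨_, rfl⟩
  have hq'l : IsLaw q' := by
    rw [hq']
    exact isLaw_cond F.isLaw hA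
  have h0 := hq'l.nonneg
  have p0 : ∀ x : ℝ, (0 : ℝ) < 2 ^ x := fun x => Real.rpow_pos_of_pos (by norm_num) _
  have hva' : ∀ t : ℕ, ∃ (Va : Type) (za : PtT F → Va) (za' : LnT F → Va)
      (Da : Va → MvPolynomial (Option (Fin m)) ℝ), (t = 0 → ∀ y, Da y = 0) ∧ (t ≤ M →
      (∀ y, (Da y).totalDegree ≤ K') ∧ (∀ y, DpI ((range r).image c) (Da y)) ∧
      (∀ ω, A ω → za (ptr F J ω) = za' (slam F ⌊W t * J⌋₊ ω)) ∧
      ∀ ω, A ω → |ojet F κ 0 (G (z' (slam F ⌊v * J⌋₊ ω))) ω -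
        eval (bt F ω) (Da (za' (slam F ⌊W t * J⌋₊ ω)))| ≤ 1 / 2 ^ ⌊p t * J⌋₊) := by
    intro t
    rcases Nat.eq_zero_or_pos t with ht0 | ht0
    · subst ht0
      refine ⟨Unit, fun _ => (), fun _ => (), fun _ => 0, fun _ _ => rfl, fun _ =>
        ⟨fun _ => ?_, fun _ b b' _ _ => rfl, fun _ _ => rfl, fun ω hω => ?_⟩⟩
      · rw [totalDegree_zero]
        exact Nat.zero_le _
      · rw [map_zero, sub_zero]
        exact hps ω hω
    · by_cases ht : t ≤ M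
      · obtain ⟨Va, za, za', Da, a1, a2, a3, a4⟩ := hva t ht0 ht
        exact ⟨Va, za, za', Da, fun h => absurd h (by omega), fun _ => ⟨a1, a2, a3, a4⟩⟩
      · exact ⟨Unit, fun _ => (), fun _ => (), fun _ => 0, fun _ _ => rfl, fun h => absurd h ht⟩
  choose Va za za' Da hD0 hD using hva'
  obtain ⟨o₁, ho₁⟩ : ∃ o₁ : F.Ω → ℝ, o₁ = fun ω => ojet F κ 0 (G (z' (slam F ⌊v * J⌋₊ ω))) ω :=
    ⟨_, rfl⟩
  have hod : ∀ t ≤ M, ∀ ω, A ω → |o₁ ω - eval (bt F ω) (Da t (za' t (slam F ⌊W t * J⌋₊ ω)))| ≤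
      1 / 2 ^ ⌊p t * J⌋₊ := fun t ht ω hω => by
    rw [ho₁]
    exact (hD t ht).2.2.2 ω hω
  -- the steps
  obtain ⟨st, hst⟩ : ∃ st : ℕ → F.Ω → ℝ, st = fun t ω =>
    eval (bt F ω) (Da (t + 1) (za' (t + 1) (slam F ⌊W (t + 1) * J⌋₊ ω))) -
      eval (bt F ω) (Da t (za' t (slam F ⌊W t * J⌋₊ ω))) := ⟨_, rfl⟩
  have hstp : ∀ t < M, ∀ ω, A ω → |st t ω| ≤ 2 * (1 / 2 ^ ⌊p t * J⌋₊) := by
    intro t ht ω hω
    have a1 := abs_le.1 (hod t (by omega) ω hω)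
    have a2 := abs_le.1 (hod (t + 1) (by omega) ω hω)
    have a3 : (1 : ℝ) / 2 ^ ⌊p (t + 1) * J⌋₊ ≤ 1 / 2 ^ ⌊p t * J⌋₊ :=
      inv_mono (Nat.floor_le_floor (mul_le_mul_of_nonneg_right (hpm t ht) hJ0))
    rw [hst]
    dsimp only
    rw [abs_le]
    constructor <;> linarith [a1.1, a1.2, a2.1, a2.2]
  have hsum : ∀ T ≤ M, ∀ ω, ∑ t ∈ range T, st t ω =
      eval (bt F ω) (Da T (za' T (slam F ⌊W T * J⌋₊ ω))) := by
    intro T
    induction T with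
    | zero => intro _ ω; rw [Finset.sum_range_zero, hD0 0 rfl, map_zero]
    | succ T ih =>
      intro hT ω
      rw [Finset.sum_range_succ, ih (by omega), hst]
      ring
  -- the quantities
  have hQ : (qJets m c 0 r 0 (fun _ _ => v) (fun l _ => sn l v) (fun l _ => n l)).P K₁ e J F A
      (fun ω i' j' => if j' = 0 then hts F c 0 r z' ⌊v * J⌋₊ g n ω i' else 0) := by
    refine (qJets m c 0 r 0 _ _ _).mono (show max Kc M₁ ≤ K₁ by omega) le_rfl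
      (Pool.AJX.qJets_htx le_rfl hlb fun l hl0 hl => ?_)
    exact hc1 l hl J hJ1 F _ _ _ A V z z' (fun v => g v l) (hlb.wk hl0 hl (hE l hl))
  have hcd : ∀ t : ℕ, ∃ (V₁ : Type) (z₁ : F.Ω → V₁), Cl2 (f J F) (vg j J F) A z₁ ∧ (t < M →
      CH q' (fun ω => ⌊(2 : ℝ) ^ (N * J) * st t ω⌋)
        (fun ω => (hts F c 0 r z' ⌊v * J⌋₊ g n ω, (z₁ ω, y J F ω))) ≤ η * J) := by
    intro t
    by_cases ht : t < M
    swap
    · exact ⟨Unit, fun _ => (), ⟨⟨fun _ => (), fun _ _ => rfl⟩, fun _ => (), fun _ _ => rfl⟩,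
        fun h => absurd h ht⟩
    obtain ⟨b1, b2, b3, -⟩ := hD (t + 1) (by omega)
    obtain ⟨c1, c2, c3, -⟩ := hD t (by omega)
    have hw1 : W (t + 1) ≤ 1 := (hW (t + 1) (by omega)).2.trans hj1
    obtain ⟨k1, k2⟩ := floorw (hWm t ht) hw1 J
    have hst' : ∀ ω, st t ω = eval (bt F ω) ((fun x : Va (t + 1) × Va t => Da (t + 1) x.1 -
        Da t x.2) ((fun x => (za' (t + 1) x, wz (za' t) ⌊W t * J⌋₊ ⌊W (t + 1) * J⌋₊ x))
          (slam F ⌊W (t + 1) * J⌋₊ ω))) := by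
      intro ω
      rw [hst]
      dsimp only
      rw [wz_slam (za' t) k1 k2, map_sub]
    have hq1 := qjet_clo (F := F) (A := A) (c := c) (r := r) hr (j := 0) (w := W (t + 1))
      (p := p t) (N := N) (e := e) (K' := K') (K := K₁)
      (za := fun x => (za (t + 1) x, za t x))
      (za' := fun x => (za' (t + 1) x, wz (za' t) ⌊W t * J⌋₊ ⌊W (t + 1) * J⌋₊ x))
      (Da := fun x : Va (t + 1) × Va t => Da (t + 1) x.1 - Da t x.2)
      (fun x => (totalDegree_sub _ _).trans (max_le (b1 x.1) (c1 x.2)))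
      (fun x => (b2 x.1).sub (c2 x.2))
      (fun ω hω => by
        rw [wz_slam (za' t) k1 k2, b3 ω hω, c3 ω hω])
      (fun ω hω => by
        rw [← hst' ω]
        exact (hstp t ht ω hω).trans (two_inv f2 (f3 t (by omega))))
      (by omega) (by omega) (by
        have e1 : (fun ω => ⌊(2 : ℝ) ^ (N * J) * jet 0 ((fun x : Va (t + 1) × Va t =>
            Da (t + 1) x.1 - Da t x.2) ((fun x => (za' (t + 1) x, wz (za' t) ⌊W t * J⌋₊
              ⌊W (t + 1) * J⌋₊ x)) (slam F ⌊W (t + 1) * J⌋₊ ω))) (bt F ω) (bd F ω)⌋) =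
            fun ω => ⌊(2 : ℝ) ^ (N * J) * st t ω⌋ := by
          funext ω
          rw [jet_zero, ← hst' ω]
        rw [e1]
        refine (cnt_val (N := N) hJ01 (hstp t ht)).trans
          (Real.exp_le_exp.2 (mul_le_mul_of_nonneg_right ?_ hJ0))
        exact_mod_cast (hMt t ht).trans (by omega))
    obtain ⟨V₁, z₁, hz₁, h4⟩ := HA t ht _ _ hQ hq1
    refine ⟨V₁, z₁, hz₁, fun _ => ?_⟩
    rw [← hq'] at h4
    have e1 : (fun ω => ⌊(2 : ℝ) ^ (N * J) * jet 0 ((fun x : Va (t + 1) × Va t =>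
        Da (t + 1) x.1 - Da t x.2) ((fun x => (za' (t + 1) x, wz (za' t) ⌊W t * J⌋₊
          ⌊W (t + 1) * J⌋₊ x)) (slam F ⌊W (t + 1) * J⌋₊ ω))) (bt F ω) (bd F ω)⌋) =
        fun ω => ⌊(2 : ℝ) ^ (N * J) * st t ω⌋ := by
      funext ω
      rw [jet_zero, ← hst' ω]
    rw [e1] at h4
    refine le_trans (CH_mono_cond h0 fun ω ω' _ _ e2 => ?_) h4
    simp only [Prod.mk.injEq] at e2 ⊢
    refine ⟨funext fun i' => funext fun j' => ?_, e2.2⟩
    rw [e2.1]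
  choose V₁ z₁ hz₁ h4 using hcd
  refine ⟨∀ t, V₁ t, fun ω t => z₁ t ω, Cl2.pi hz₁, ?_⟩
  rw [← hq']
  obtain ⟨Y, hY⟩ : ∃ Y : F.Ω → (ℕ → ℤ) × ((∀ t, V₁ t) × γ J F), Y = fun ω =>
    (hts F c 0 r z' ⌊v * J⌋₊ g n ω, ((fun t => z₁ t ω), y J F ω)) := ⟨_, rfl⟩
  obtain ⟨Xs, hXs⟩ : ∃ Xs : F.Ω → Fin M → ℤ, Xs = fun ω (t : Fin M) =>
    ⌊(2 : ℝ) ^ (N * J) * st t ω⌋ := ⟨_, rfl⟩
  obtain ⟨Xo, hXo⟩ : ∃ Xo : F.Ω → ℤ, Xo = fun ω => ⌊(2 : ℝ) ^ (N * J) * o₁ ω⌋ := ⟨_, rfl⟩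
  have hXo' : (fun ω => ⌊(2 : ℝ) ^ (N * J) * ojet F κ 0 (G (z' (slam F ⌊v * J⌋₊ ω))) ω⌋) = Xo := by
    rw [hXo, ho₁]
  rw [hXo', ← hY]
  have s1 := CH_le_add h0 Xo Xs Y
  have s2 : CH q' Xs Y ≤ ∑ _t : Fin M, η * J := by
    refine Pool.OWN83.ch_vecs h0 Y M Xs (fun _ => η * J) fun i => ?_
    have e1 : (fun ω => Xs ω i) = fun ω => ⌊(2 : ℝ) ^ (N * J) * st i ω⌋ := by
      funext ω
      rw [hXs]
    rw [e1]
    refine le_trans (CH_mono_cond h0 fun ω ω' _ _ e2 => ?_) (h4 i i.2)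
    rw [hY] at e2
    simp only [Prod.mk.injEq] at e2 ⊢
    exact ⟨e2.1, congrFun e2.2.1 i, e2.2.2⟩
  have s3 : CH q' Xo (fun ω => (Xs ω, Y ω)) ≤ Real.log (2 * ((M + 5 : ℕ) : ℝ) + 1) := by
    refine CH_pair hq'l _ _ fun ω ω' hω hω' e2 => ?_
    have hAω : A ω := by rw [hq'] at hω; exact of_cond_pos hω
    have hAω' : A ω' := by rw [hq'] at hω'; exact of_cond_pos hω'
    have e3 := (Prod.ext_iff.mp e2).1
    have hap : ∀ ν, A ν → |(2 : ℝ) ^ (N * J) * o₁ ν - ∑ t : Fin M, (2 : ℝ) ^ (N * J) * st t ν| ≤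
        2 := by
      intro ν hν
      have a1 := hod M le_rfl ν hν
      rw [← hsum M le_rfl ν] at a1
      have a2 : ∑ t : Fin M, (2 : ℝ) ^ (N * J) * st t ν =
          2 ^ (N * J) * ∑ t ∈ range M, st t ν := by
        rw [← Finset.mul_sum, Finset.sum_range]
      rw [a2, ← mul_sub, abs_mul, abs_of_pos (p0 _)]
      refine (mul_le_mul_of_nonneg_left (a1.trans (ip2_le _)) (p0 _).le).trans ?_
      have a3 : (2 : ℝ) ^ (N * J) * (2 * 2 ^ (-(p M * J))) = 2 * 2 ^ (N * J + -(p M * J)) := by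
        rw [Real.rpow_add (by norm_num)]
        ring
      rw [a3]
      have a4 : (2 : ℝ) ^ (N * J + -(p M * J)) ≤ 1 := by
        refine Real.rpow_le_one_of_one_le_of_nonpos (by norm_num) ?_
        have := mul_le_mul_of_nonneg_right hN hJ0
        linarith
      linarith
    have hfl : ∀ t : Fin M, |(2 : ℝ) ^ (N * J) * st t ω - 2 ^ (N * J) * st t ω'| ≤ 1 := by
      intro t
      have e4 := congrFun e3 t
      rw [hXs] at e4
      exact (Int.abs_sub_lt_one_of_floor_eq_floor e4).le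
    have hfs : |∑ t : Fin M, (2 : ℝ) ^ (N * J) * st t ω -
        ∑ t : Fin M, (2 : ℝ) ^ (N * J) * st t ω'| ≤ M := by
      rw [← Finset.sum_sub_distrib]
      refine (Finset.abs_sum_le_sum_abs _ _).trans ((Finset.sum_le_sum fun t _ => hfl t).trans ?_)
      rw [Finset.sum_const, Finset.card_univ, Fintype.card_fin, nsmul_eq_mul, mul_one]
    rw [hXo]
    refine floor_sub_le (D := M + 4) ?_
    have a1 := abs_le.1 (hap ω hAω)
    have a2 := abs_le.1 (hap ω' hAω')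
    have a3 := abs_le.1 hfs
    push_cast
    rw [abs_le]
    constructor <;> linarith [a1.1, a1.2, a2.1, a2.2, a3.1, a3.2]
  rw [Finset.sum_const, Finset.card_univ, Fintype.card_fin, nsmul_eq_mul] at s2
  have e5 : (M : ℝ) * (η * J) ≤ h / 2 * J := by
    rw [← hηe]
    have : 0 ≤ η * J := by positivity
    linarith
  linarith

end Pool.NPZ
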