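import Pool.Agent.H42.V0B.Lje

/-!
# The jets of the own path in a ladder of windows, the value as a hypothesis
-/

set_option autoImplicit false

namespace Pool.NPZ

open Finset Real MvPolynomial
open Pool.Agent.H49.Ent Pool.Agent.H32.Dense Pool.STK Pool.KA Pool.KSAT Pool.K2S Pool.PB Pool.GEN
open Pool.S6C Pool.RCD Pool.LA91 Pool.OWN68 Pool.CHT Pool.AJW Pool.V0F Pool.AVG96
open Pool.GRD (LbP)
open Pool.UNJ (ceI Tub)
open Pool.AJX (LbX FwX)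
open Pool.ALT (Fml)

variable {m : ℕ}

/-- A value given more. -/
theorem ValH.kn {S : PCl m} {C₀ : ℝ} {Θ : Fm4 m} {c : ℕ → Fin m} {r₀ r : ℕ} {κ : Fin m}
    {v w N h : ℝ} {n : ℕ → ℝ} {α γ γ' : ∀ J : ℕ, Fam m J → Type}
    {f : ∀ (J : ℕ) (F : Fam m J), F.Ω → α J F} {y : ∀ (J : ℕ) (F : Fam m J), F.Ω → γ J F}
    {y' : ∀ (J : ℕ) (F : Fam m J), F.Ω → γ' J F} (H : ValH S Θ c r₀ r κ v w N n f y h)
    (htm : TmC S C₀) (hy : ∀ (J : ℕ) (F : Fam m J), ∃ χ : γ' J F → γ J F, ∀ ω,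
      y J F ω = χ (y' J F ω)) : ValH S Θ c r₀ r κ v w N n f y' h := by
  refine Bas.mono 0 (H.and (Pool.GRW.tmc_bas htm one_pos)) ?_
  rintro J - F A ⟨h1, hA, -⟩ V z z' G g hTh
  obtain ⟨V₁, z₁, hz₁, h2⟩ := h1 V z z' G g hTh
  obtain ⟨χ, hχ⟩ := hy J F
  refine ⟨V₁, z₁, hz₁, le_trans (CH_mono_cond (isLaw_cond F.isLaw hA).nonneg
    fun ω ω' _ _ e => ?_) h2⟩
  simp only [Prod.mk.injEq] at e ⊢
  exact ⟨e.1, e.2.1, by rw [hχ ω, hχ ω', e.2.2]⟩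

/-- **The jets of the own path over the labels of a family**, in a ladder, any coordinate; the value as
a hypothesis. -/
theorem ojs_core (K r : ℕ) {h : ℝ} (hh : 0 < h) (hh1 : h ≤ 1) {ε : ℝ} (hε : 0 < ε) :
    ∃ δ : ℝ, 0 < δ ∧ ∀ {m : ℕ} {S : PCl m} {c : ℕ → Fin m} {sn : ℕ → ℝ → ℝ} {Gs : Set ℝ}
    {b o φ : ℝ}, Lad S c r sn Gs b o φ → ∀ {κ : Fin m} {I : Finset (Fin m)}
    {v j a q g₀ d P pN rG eG : ℝ} {p n E rd : ℕ → ℝ} {Nf : ℕ → ℕ → ℝ} {Kc : ℕ}, v ∈ Gs → j ∈ Gs → b ≤ v → v ≤ j → j ≤ o → j ≤ a → a ≤ 1 → 0 < q →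
    0 < g₀ → (∀ i < r, 0 ≤ E i ∧ E i ≤ 1) → (∀ i < r, 0 ≤ rd i ∧ rd i + g₀ ≤ 1) →
    (∀ i < r, n i + E i + g₀ ≤ 1) → Nst r sn v (2 * φ) n → (∀ i < r, sn i j + 40 * φ ≤ n i) →
    (∀ i < r, n i - sn i v + 3 * φ ≤ v - b) → (∀ i < r, sn i b - φ ≤ p i) →
    (∀ i < r, ∀ j : ℕ, j ≤ 1 → n i - (j : ℝ) * v ≤ Nf i j) →
    pN < P → P - pN ≤ δ * q / 8 → v + q ≤ 1 → 0 ≤ rG → 0 < eG →
    d + (r + 1) * (40 * φ) < δ * q / 2 → ∀ {Ψ : Fml m},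
    (∀ (J : ℕ) (F : Fam m J) (A B : F.Ω → Prop) (V : Type) (z : PtT F → V)
      (z' : LnT F → V) (G : V → MvPolynomial (Option (Fin m)) ℝ), Sub B A → Ψ J F A V z z' G →
      Ψ J F B V z z' G) →
    (∀ (J : ℕ) (F : Fam m J) (A : F.Ω → Prop) (V : Type) (z : PtT F → V)
      (z' : LnT F → V) (G : V → MvPolynomial (Option (Fin m)) ℝ), Ψ J F A V z z' G →
      LbOK F I κ K ⌊eG * J⌋₊ J ⌊v * J⌋₊ ⌊(rG + eG) * J⌋₊ ⌊pN * J⌋₊ A z z' G) →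
    (∀ τ : ℝ, 0 < τ → ∃ e₀ : ℝ, 0 < e₀ ∧ ∀ e : ℝ, 0 < e → e ≤ e₀ →
      ValH S (JnF Ψ c r Kc v e E rd (fun l => sn l v)) c 0 r κ v j (P + q) n
        (fun J F => ptr F J) (fun _ (F : Fam m _) => F.W) τ) →
    (∀ sa sb : ℝ, P ≤ sa → sa ≤ sb → sb ≤ P + q →
      Bas S (fun J F A => ∀ (V : Type) (z : PtT F → V) (z' : LnT F → V)
      (G : V → MvPolynomial (Option (Fin m)) ℝ), Ψ J F A V z z' G →
      CH (Pool.Agent.H49.Ent.cond F.p A True)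
        (fun ω => ⌊(2 : ℝ) ^ (sb * J) * ojet F κ 0 (G (z' (slam F ⌊v * J⌋₊ ω))) ω⌋)
        (fun ω => (⌊(2 : ℝ) ^ (sa * J) * ojet F κ 0 (G (z' (slam F ⌊v * J⌋₊ ω))) ω⌋,
          (ceI ((range r).image c) (fun _ => J) (F.x ω),
            (z' (slam F ⌊v * J⌋₊ ω), F.W ω)))) ≤
        ((1 - h) * (sb - sa) * Real.log 2 + d) * J)) →
    ∃ e₁ : ℝ, 0 < e₁ ∧ ∀ e : ℝ, 0 < e → e ≤ e₁ →
    Bas S (fun J F A => ∃ (V : Type) (z : PtT F → V) (z' : LnT F → V)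
      (g : V → ℕ → MvPolynomial (Option (Fin m)) ℝ),
      LbX F c 0 r Kc e E v rd (fun l => sn l v) A z z' g ∧
      ∀ ω, A ω → z (ptr F J ω) = z' (slam F ⌊v * J⌋₊ ω)) →
    ∀ K₀ : ℕ, Bas S (fun J F A => ∀ (V : Type) (z : PtT F → V) (z' : LnT F → V)
      (G : V → MvPolynomial (Option (Fin m)) ℝ), Ψ J F A V z z' G → ∀ u₀ : F.Ω → ℕ → ℕ → ℤ,
      (jetQ m c 0 r b p Nf).P K₀ e J F A u₀ →
      ∃ (V₁ : Type) (z₁ : F.Ω → V₁), Cl2 (ptr F J) (vg a J F) A z₁ ∧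
        CH (Pool.Agent.H49.Ent.cond F.p A True) (ojs F κ v (P + q) z' G (K + 2))
          (fun ω => (u₀ ω, (z₁ ω, F.W ω))) ≤ ε * q * J) := by
  classical
  obtain ⟨δ, hδ, Hp⟩ := jets_npx K hh hh1 hε
  refine ⟨δ, hδ, ?_⟩
  intro m S c sn Gs b o φ L κ I v j a q g₀ d P pN rG eG p n E rd Nf Kc hv hj hbv hvj hjo hja ha hq hg
    hE hrd hn1 hn hlo hnb hp hNf hpP hPδ hvq hrG heG hd Ψ hs hl hval hrow
  obtain ⟨C₀, htm⟩ := L.tm
  have hφ := L.φ0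
  have hr0 : (0 : ℝ) ≤ r := Nat.cast_nonneg r
  have hδq : 0 < δ * q := by positivity
  have hj1 : j < 1 := hjo.trans_lt L.o1
  obtain ⟨τ, hτ⟩ : ∃ τ : ℝ, τ = (δ * q / 2 - d - (r + 1) * (40 * φ)) / (8 * (r + 1)) := ⟨_, rfl⟩
  have hτ0 : 0 < τ := by
    rw [hτ]
    exact div_pos (by linarith) (by linarith)
  have hτe : 8 * ((r + 1) * τ) = δ * q / 2 - d - (r + 1) * (40 * φ) := by
    rw [hτ]
    field_simp
  obtain ⟨lam, hlam⟩ : ∃ lam : ℝ, lam = (1 + j) / 2 - v := ⟨_, rfl⟩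
  have hwl : j < v + lam := by rw [hlam]; linarith
  have hl1 : v + lam < 1 := by rw [hlam]; linarith
  have hlam0 : 0 ≤ lam := by linarith
  have hn' : Nst r sn v φ n :=
    ⟨fun i hi => by linarith [hn.lo i hi], fun i hi => by linarith [hn.hi i hi],
      fun i hi l hl => by linarith [hn.ne i hi l hl]⟩
  obtain ⟨e₁, he₁, hch⟩ := chX_lad L (E := E) (n := n) (rd := rd) hv hj hbv hvj hjo hg hτ0 hwl hl1
    hE hrd hn1 hn hlo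
  obtain ⟨e₂, he₂, hctx⟩ := vuj_ctx (f := fun J F => ptr F J) (y := fun _ (F : Fam m _) => F.W)
    (E := E) (rd := rd) L (fun J F => ⟨fun x => x, fun _ => rfl⟩) kn_W (fun i hi => (hE i hi).2)
    hv hbv (hvj.trans hjo) (hvj.trans hja) ha hn' hp hnb (Nf := Nf) hNf
    (kn_zero (p₁ := v + lam) (lam₁ := lam) kn_W) hlam0 (fun i hi => (hrd i hi).1) Kc r le_rfl
    (show 0 < δ * q / 4 by positivity)
  obtain ⟨e₃, he₃, hv₁⟩ := hval τ hτ0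
  obtain ⟨e₄, he₄, hv₂⟩ := hval (δ * q / 4) (by positivity)
  obtain ⟨e₀, he₀⟩ : ∃ e₀ : ℝ, e₀ = min (min e₁ e₂) (min (min e₃ e₄) (g₀ / 2)) := ⟨_, rfl⟩
  refine ⟨e₀, by rw [he₀]; exact lt_min (lt_min he₁ he₂) (lt_min (lt_min he₃ he₄)
    (by linarith)), fun e he hee hlb K₀ => ?_⟩
  have b1 : e ≤ e₁ := hee.trans (he₀ ▸ (min_le_left _ _).trans (min_le_left _ _))
  have b2 : e ≤ e₂ := hee.trans (he₀ ▸ (min_le_left _ _).trans (min_le_right _ _))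
  have b3 : e ≤ e₃ := hee.trans (he₀ ▸ (min_le_right _ _).trans ((min_le_left _ _).trans
    (min_le_left _ _)))
  have b4 : e ≤ e₄ := hee.trans (he₀ ▸ (min_le_right _ _).trans ((min_le_left _ _).trans
    (min_le_right _ _)))
  have b5 : e ≤ g₀ / 2 := hee.trans (he₀ ▸ (min_le_right _ _).trans (min_le_right _ _))
  have hΘ : ∀ (J : ℕ) (F : Fam m J) (A : F.Ω → Prop) (V : Type) (z : PtT F → V) (z' : LnT F → V)
      (G : V → MvPolynomial (Option (Fin m)) ℝ) (g : V → ℕ → MvPolynomial (Option (Fin m)) ℝ),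
      JnF Ψ c r Kc v e E rd (fun l => sn l v) J F A V z z' G g →
      LbX F c 0 r Kc e E v rd (fun l => sn l v) A z z' g ∧
      LbOK F I κ K ⌊eG * J⌋₊ J ⌊v * J⌋₊ ⌊(rG + eG) * J⌋₊ ⌊pN * J⌋₊ A z z' G := fun J F A V z z' G g hg => ⟨by
    obtain ⟨V₁, z₁, z₁', G₁, χ, h1, h3, h4, h5, h6⟩ := hg
    exact h5, JnF.lb hl J F A V z z' G g hg⟩
  have H : NpX K h δ S c 0 r v j lam (40 * φ) g₀ e τ E (fun l => sn l v) (fun l => sn l j) n rd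
      κ I Kc P pN q d rG eG a
      (JnF Ψ c r Kc v e E rd (fun l => sn l v)) :=
    { ch := hch e b1
      e0 := he
      eg := b5
      pNP := hpP
      Pδ := hPδ
      q0 := hq
      vq := hvq
      wa := hja
      a1 := ha
      rG0 := hrG
      eG0 := heG
      dd := by linarith
      npl := fun J F A V z z' G g hg => by
        obtain ⟨V₁, z₁, z₁', G₁, χ, h1, h3, h4, h5, h6⟩ := hg
        exact ⟨h5, h6⟩
      val := (hv₁ e he b3).kn htm fun J F => ⟨fun x => x.2, fun _ => rfl⟩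
      lb := fun J F A V z z' G g hg => (hΘ J F A V z z' G g hg).2
      hs := JnF.hs hs
      row := fun sa sb h1 h2 h3 => by
        refine Bas.mono 0 ((hrow sa sb h1 h2 h3).and (Pool.GRW.tmc_bas htm one_pos)) ?_
        rintro J - F A ⟨h4, hA, -⟩ V z z' G g ⟨V₁, z₁, z₁', G₁, χ, k1, k3, k4, k5, k6⟩
        have h5 := h4 V₁ z₁ z₁' G₁ k1
        have h0 := (isLaw_cond F.isLaw hA).nonneg
        have e1 : ∀ ω, G (z' (slam F ⌊v * J⌋₊ ω)) = G₁ (z₁' (slam F ⌊v * J⌋₊ ω)) := fun ω => by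
          rw [k4, k3]
        simp only [e1]
        refine le_trans (CH_mono_cond h0 fun ω ω' _ _ e => ?_) h5
        simp only [Prod.mk.injEq] at e ⊢
        exact ⟨e.1, e.2.1, by rw [← k3, ← k3, e.2.2.1], e.2.2.2⟩ }
  have HJ := Hp htm H (Qu := jetQ m c 0 r b p Nf) (f := fun J F => ptr F J)
    (y := fun _ (F : Fam m _) => F.W) (fun J F => ⟨fun x => x, fun _ => rfl⟩)
    (kn0_W c _)
    (hv₂ e he b4) e (fun K₁ => by
      refine Bas.mono 0 (hctx e he b2 K₁) ?_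
      intro J _ F A h1 V z z' G g hg u₀ hu₀
      exact h1 V z z' g (hΘ J F A V z z' G g hg).1 u₀ hu₀) K₀
  refine Bas.mono 0 (HJ.and hlb) ?_
  rintro J - F A ⟨h1, V₂, z₂, z₂', g, hg, hc₂⟩ V z z' G hG u₀ hu₀
  have h2 := h1 _ _ _ _ _ (JnF.ex hG (hl J F A V z z' G hG).cls hg hc₂) u₀ hu₀
  obtain ⟨V₁, z₁, hz₁, h3⟩ := h2
  exact ⟨V₁, z₁, hz₁, h3⟩

end Pool.NPZ
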