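import Pool.Agent.H42.V0B.Ljf

/-!
# The codes over labels of a family, in a ladder of windows

`jt_core`: the codes of the own path over the labels of a family. `dj_core`: the codes over labels of a
later window which differ by closed polynomials of the chain.
-/

set_option autoImplicit false

namespace Pool.NPZ

open Finset Real MvPolynomial
open Pool.Agent.H49.Ent Pool.Agent.H32.Dense Pool.STK Pool.KA Pool.KSAT Pool.K2S Pool.PB Pool.GEN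
open Pool.S6C Pool.RCD Pool.LA91 Pool.OWN68 Pool.CHT Pool.AJW Pool.V0F Pool.AVG96
open Pool.GRD (LbP)
open Pool.UNJ (ceI Tub)
open Pool.AJX (LbX FwX)
open Pool.ALT (Fml DpI)
open Pool.AVG71 (cod cod_few)

/-- The number of the values of a difference. -/
theorem cnt_sub {Ω : Type} [Fintype Ω] {p : Ω → ℝ} {A : Ω → Prop} (x y : Ω → ℝ) {u₁ u₂ : ℝ}
    (h₁ : (cnt p (fun ω => ⌊x ω⌋) A : ℝ) ≤ u₁) (h₂ : (cnt p (fun ω => ⌊y ω⌋) A : ℝ) ≤ u₂) :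
    (cnt p (fun ω => ⌊x ω - y ω⌋) A : ℝ) ≤ u₁ * (u₂ * 3) := by
  obtain ⟨b, hb⟩ : ∃ b : Ω → ℤ, b = fun ω => ⌊x ω - y ω⌋ - (⌊x ω⌋ - ⌊y ω⌋) := ⟨_, rfl⟩
  have h3 := cnt_le_of_abs (p := p) (u := b) (A := A) (B := 1) (by norm_num) (by
    intro ω _
    rw [hb]
    simp only
    push_cast
    have e1 := Int.floor_le (x ω)
    have e2 := Int.lt_floor_add_one (x ω)
    have e3 := Int.floor_le (y ω)
    have e4 := Int.lt_floor_add_one (y ω)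
    have e5 := Int.floor_le (x ω - y ω)
    have e6 := Int.lt_floor_add_one (x ω - y ω)
    have g1 : ⌊x ω - y ω⌋ ≤ ⌊x ω⌋ - ⌊y ω⌋ := by
      have : (⌊x ω - y ω⌋ : ℝ) < ((⌊x ω⌋ - ⌊y ω⌋ + 1 : ℤ) : ℝ) := by push_cast; linarith
      have := Int.cast_lt.1 this
      omega
    have g2 : ⌊x ω⌋ - ⌊y ω⌋ ≤ ⌊x ω - y ω⌋ + 1 := by
      have : ((⌊x ω⌋ - ⌊y ω⌋ : ℤ) : ℝ) < ((⌊x ω - y ω⌋ + 2 : ℤ) : ℝ) := by push_cast; linarith
      have := Int.cast_lt.1 this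
      omega
    have g1' : (⌊x ω - y ω⌋ : ℝ) ≤ ⌊x ω⌋ - ⌊y ω⌋ := by exact_mod_cast g1
    have g2' : (⌊x ω⌋ : ℝ) - ⌊y ω⌋ ≤ ⌊x ω - y ω⌋ + 1 := by exact_mod_cast g2
    rw [abs_le]
    constructor <;> linarith)
  have h4 : (cnt p (fun ω => ⌊x ω - y ω⌋) A : ℝ) ≤
      cnt p (fun ω => (⌊x ω⌋, (⌊y ω⌋, b ω))) A := by
    exact_mod_cast cnt_comp_le p _ _ (fun v : ℤ × (ℤ × ℤ) => v.2.2 + (v.1 - v.2.1)) fun ω _ _ => by
      rw [hb]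
      simp only
      ring
  have h5 : (cnt p (fun ω => (⌊x ω⌋, (⌊y ω⌋, b ω))) A : ℝ) ≤ (cnt p (fun ω => ⌊x ω⌋) A : ℝ) *
      cnt p (fun ω => (⌊y ω⌋, b ω)) A := by
    have := cnt_pair p (fun ω => ⌊x ω⌋) (fun ω => (⌊y ω⌋, b ω)) A
    exact_mod_cast this
  have h6 : (cnt p (fun ω => (⌊y ω⌋, b ω)) A : ℝ) ≤ (cnt p (fun ω => ⌊y ω⌋) A : ℝ) *
      cnt p b A := by
    have := cnt_pair p (fun ω => ⌊y ω⌋) b A
    exact_mod_cast this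
  have n1 : (0 : ℝ) ≤ cnt p (fun ω => ⌊x ω⌋) A := Nat.cast_nonneg _
  have n2 : (0 : ℝ) ≤ cnt p (fun ω => ⌊y ω⌋) A := Nat.cast_nonneg _
  have n3 : (0 : ℝ) ≤ cnt p b A := Nat.cast_nonneg _
  have h7 : (cnt p b A : ℝ) ≤ 3 := by linarith
  refine h4.trans (h5.trans (mul_le_mul h₁ (h6.trans (mul_le_mul h₂ h7 n3 (n2.trans h₂)))
    (Nat.cast_nonneg _) (n1.trans h₁)))

/-- **The codes of the own path over the labels of a family**, in a ladder. -/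
theorem jt_core (K r : ℕ) {h : ℝ} (hh : 0 < h) (hh1 : h ≤ 1) {ε : ℝ} (hε : 0 < ε) :
    ∃ δ : ℝ, 0 < δ ∧ ∀ {m : ℕ} {S : PCl m} {c : ℕ → Fin m} {sn : ℕ → ℝ → ℝ} {Gs : Set ℝ}
    {b o φ : ℝ}, Lad S c r sn Gs b o φ → ∀ {κ : Fin m} {I : Finset (Fin m)}
    {v j a q g₀ d P pN rG eG : ℝ} {p n E rd : ℕ → ℝ} {Nf : ℕ → ℕ → ℝ} {Kc : ℕ}, v ∈ Gs → j ∈ Gs → b ≤ v → v ≤ j → j ≤ o → j ≤ a → a ≤ 1 → 0 < q →
    0 < g₀ → (∀ i < r, 0 ≤ E i ∧ E i ≤ 1) → (∀ i < r, 0 ≤ rd i ∧ rd i + g₀ ≤ 1) →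
    (∀ i < r, n i + E i + g₀ ≤ 1) → Nst r sn v (2 * φ) n → (∀ i < r, sn i j + 40 * φ ≤ n i) →
    (∀ i < r, n i - sn i v + 3 * φ ≤ v - b) → (∀ i < r, sn i b - φ ≤ p i) →
    (∀ i < r, ∀ j : ℕ, j ≤ 1 → n i - (j : ℝ) * v ≤ Nf i j) →
    pN < P → P - pN ≤ δ * q / 8 → v + q ≤ 1 → 0 ≤ rG → 0 < eG →
    d + (r + 1) * (40 * φ) < δ * q / 2 → ∀ {Ψ : Fml m},
    (∀ (J : ℕ) (F : Fam m J) (A B : F.Ω → Prop) (V : Type) (z : PtT F → V)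
      (z' : LnT F → V) (G : V → MvPolynomial (Option (Fin m)) ℝ), Sub B A → Ψ J F A V z z' G →
      Ψ J F B V z z' G) →
    (∀ (J : ℕ) (F : Fam m J) (A : F.Ω → Prop) (V : Type) (z : PtT F → V)
      (z' : LnT F → V) (G : V → MvPolynomial (Option (Fin m)) ℝ), Ψ J F A V z z' G →
      LbOK F I κ K ⌊eG * J⌋₊ J ⌊v * J⌋₊ ⌊(rG + eG) * J⌋₊ ⌊pN * J⌋₊ A z z' G) →
    (∀ τ : ℝ, 0 < τ → ∃ e₀ : ℝ, 0 < e₀ ∧ ∀ e : ℝ, 0 < e → e ≤ e₀ →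
      ValH S (JnF Ψ c r Kc v e E rd (fun l => sn l v)) c 0 r κ v j (P + q) n
        (fun J F => ptr F J) (fun _ (F : Fam m _) => F.W) τ) →
    (∀ sa sb : ℝ, P ≤ sa → sa ≤ sb → sb ≤ P + q →
      Bas S (fun J F A => ∀ (V : Type) (z : PtT F → V) (z' : LnT F → V)
      (G : V → MvPolynomial (Option (Fin m)) ℝ), Ψ J F A V z z' G →
      CH (Pool.Agent.H49.Ent.cond F.p A True)
        (fun ω => ⌊(2 : ℝ) ^ (sb * J) * ojet F κ 0 (G (z' (slam F ⌊v * J⌋₊ ω))) ω⌋)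
        (fun ω => (⌊(2 : ℝ) ^ (sa * J) * ojet F κ 0 (G (z' (slam F ⌊v * J⌋₊ ω))) ω⌋,
          (ceI ((range r).image c) (fun _ => J) (F.x ω),
            (z' (slam F ⌊v * J⌋₊ ω), F.W ω)))) ≤
        ((1 - h) * (sb - sa) * Real.log 2 + d) * J)) →
    ∃ e₁ : ℝ, 0 < e₁ ∧ ∀ e : ℝ, 0 < e → e ≤ e₁ →
    Bas S (fun J F A => ∃ (V : Type) (z : PtT F → V) (z' : LnT F → V)
      (g : V → ℕ → MvPolynomial (Option (Fin m)) ℝ),
      LbX F c 0 r Kc e E v rd (fun l => sn l v) A z z' g ∧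
      ∀ ω, A ω → z (ptr F J ω) = z' (slam F ⌊v * J⌋₊ ω)) →
    ∀ K₀ : ℕ, Bas S (fun J F A => ∀ (V : Type) (z : PtT F → V) (z' : LnT F → V)
      (G : V → MvPolynomial (Option (Fin m)) ℝ), Ψ J F A V z z' G → ∀ u₀ : F.Ω → ℕ → ℕ → ℤ,
      (jetQ m c 0 r b p Nf).P K₀ e J F A u₀ →
      ∃ (V₁ : Type) (z₁ : F.Ω → V₁), Cl2 (ptr F J) (vg a J F) A z₁ ∧
        ∀ σ : ℝ, 0 < σ → σ ≤ 2 ^ ((P + q) * J) →
        CH (Pool.Agent.H49.Ent.cond F.p A True) (cod F ⌊v * J⌋₊ 0 (K + 1) σ κ z' G)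
          (fun ω => (u₀ ω, (z₁ ω, F.W ω))) ≤ ε * q * J) := by
  classical
  obtain ⟨δ, hδ, Hp⟩ := ojs_core K r hh hh1 (half_pos hε)
  refine ⟨δ, hδ, ?_⟩
  intro m S c sn Gs b o φ L κ I v j a q g₀ d P pN rG eG p n E rd Nf Kc hv hj hbv hvj hjo hja ha hq hg
    hE hrd hn1 hn hlo hnb hp hNf hpP hPδ hvq hrG heG hd Ψ hs hl hval hrow
  obtain ⟨C₀, htm⟩ := L.tm
  have hv0 : 0 ≤ v := L.b0.trans hbv
  have hv1 : v ≤ 1 := by linarith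
  obtain ⟨e₁, he₁, Hp⟩ := Hp L (I := I) (a := a) hv hj hbv hvj hjo hja ha hq hg hE hrd hn1 hn hlo
    hnb hp hNf hpP hPδ hvq hrG heG hd hs hl hval hrow
  refine ⟨e₁, he₁, fun e he hee hlb K₀ => ?_⟩
  obtain ⟨C₁, hC₁⟩ : ∃ C₁ : ℝ, C₁ =
    ((K + 1 + 1 : ℕ) : ℝ) * Real.log (2 * (2 ^ (2 * (K + 1) + 1) + 1) + 1) := ⟨_, rfl⟩
  obtain ⟨J₁, hJ₁⟩ := exists_nat_ge (C₁ / (ε / 2 * q))
  refine Bas.mono J₁ ((Hp e he hee hlb K₀).and (Pool.GRW.tmc_bas htm one_pos)) ?_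
  rintro J hJ F A ⟨h1, hA, -⟩ V z z' G hG u₀ hu₀
  have hJ0 : (0 : ℝ) ≤ J := Nat.cast_nonneg J
  have f1 : C₁ ≤ ε / 2 * q * J := by
    have e1 : (J₁ : ℝ) ≤ J := by exact_mod_cast hJ
    have e2 := hJ₁.trans e1
    rw [div_le_iff₀ (by positivity)] at e2
    linarith
  obtain ⟨V₁, z₁, hz₁, h2⟩ := h1 V z z' G hG u₀ hu₀
  refine ⟨V₁, z₁, hz₁, fun σ hσ0 hσ => ?_⟩
  obtain ⟨q', hq'⟩ : ∃ q' : F.Ω → ℝ, q' = Pool.Agent.H49.Ent.cond F.p A True := ⟨_, rfl⟩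
  have hq'l : IsLaw q' := by
    rw [hq']
    exact isLaw_cond F.isLaw hA
  have h0 := hq'l.nonneg
  rw [← hq'] at h2 ⊢
  obtain ⟨Y, hY⟩ : ∃ Y : F.Ω → (ℕ → ℕ → ℤ) × (V₁ × (ℕ × F.ζ)), Y = fun ω =>
    (u₀ ω, (z₁ ω, F.W ω)) := ⟨_, rfl⟩
  rw [← hY] at h2 ⊢
  obtain ⟨Cd, hCd⟩ : ∃ Cd : F.Ω → Fin (K + 1 + 1) → ℤ,
    Cd = cod F ⌊v * J⌋₊ 0 (K + 1) σ κ z' G := ⟨_, rfl⟩
  rw [← hCd]
  obtain ⟨Jt, hJt⟩ : ∃ Jt : F.Ω → Fin (K + 2) → ℤ, Jt = ojs F κ v (P + q) z' G (K + 2) :=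
    ⟨_, rfl⟩
  rw [← hJt] at h2
  have s1 := CH_le_add h0 Cd Jt Y
  have s4 : CH q' Cd (fun ω => (Jt ω, Y ω)) ≤
      ((K + 1 + 1 : ℕ) : ℝ) * Real.log (2 * (2 ^ (2 * (K + 1) + 1) + 1) + 1) := by
    rw [hCd]
    refine cod_few hv0 (floor_le hv1 J) hσ0 hσ (fun x => ?_) hq'l _ 0
      (s := fun j => P + q - (j : ℕ) * v) (fun j _ _ => le_rfl) fun ω ω' _ _ e => ?_
    · have h3 := (hl J F A V z z' G hG).deg x
      omega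
    · simp only [Prod.mk.injEq] at e
      obtain ⟨e1, e2⟩ := e
      rw [hY] at e2
      simp only [Prod.mk.injEq] at e2
      refine ⟨(Prod.ext_iff.mp e2.2.2).1, fun j _ hj => ?_⟩
      rw [hJt] at e1
      exact congrFun e1 ⟨j, by omega⟩
  have e3 : ε * q * J = ε / 2 * q * J + ε / 2 * q * J := by ring
  linarith

/-- A family of pairs of labels. -/
abbrev Fm8 (m : ℕ) : Type 1 := ∀ (J : ℕ) (F : Fam m J) (_ : F.Ω → Prop) (V : Type)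
  (_ : PtT F → V) (_ : LnT F → V) (_ : V → MvPolynomial (Option (Fin m)) ℝ) (Va : Type)
  (_ : PtT F → Va) (_ : LnT F → Va) (_ : Va → MvPolynomial (Option (Fin m)) ℝ), Prop

/-- **The codes over labels of a later window** which differ by closed polynomials of the chain from
the labels of a family, in a ladder. -/
theorem dj_core (K r : ℕ) {h : ℝ} (hh : 0 < h) (hh1 : h ≤ 1) {ε : ℝ} (hε : 0 < ε) :
    ∃ δ : ℝ, 0 < δ ∧ ∀ {m : ℕ} {S : PCl m} {c : ℕ → Fin m} {sn : ℕ → ℝ → ℝ} {Gs : Set ℝ}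
    {b o φ : ℝ}, Lad S c r sn Gs b o φ → ∀ {κ : Fin m} {I : Finset (Fin m)}
    {v j w a q g₀ d P pN N' rG eG rW eW pW : ℝ} {p n E rd : ℕ → ℝ} {Nf : ℕ → ℕ → ℝ}
    {Kc K' j₀ : ℕ}, 1 ≤ r → w ∈ Gs → v ≤ w → w ≤ o → w ≤ a → 0 ≤ rW → 0 < eW → 0 < pN → pN ≤ pW →
    (∀ i < r, (P + q - pN) + ((K : ℝ) + 2 * r + 8) * (w - v) + 60 * ((r : ℝ) + 2) * φ ≤
      n i - sn i w) →
    (P + q - pN) + ((K : ℝ) + 2 * r + 8) * (w - v) + 60 * ((r : ℝ) + 2) * φ ≤ 1 - w →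
    (∀ i : ℕ, j₀ ≤ i → N' - (i : ℝ) * w ≤ P + q - (i : ℝ) * v) →
    v ∈ Gs → j ∈ Gs → b ≤ v → v ≤ j → j ≤ o → j ≤ a → a ≤ 1 → 0 < q →
    0 < g₀ → (∀ i < r, 0 ≤ E i ∧ E i ≤ 1) → (∀ i < r, 0 ≤ rd i ∧ rd i + g₀ ≤ 1) →
    (∀ i < r, n i + E i + g₀ ≤ 1) → Nst r sn v (2 * φ) n → (∀ i < r, sn i j + 40 * φ ≤ n i) →
    (∀ i < r, n i - sn i v + 3 * φ ≤ v - b) → (∀ i < r, sn i b - φ ≤ p i) →
    (∀ i < r, ∀ j : ℕ, j ≤ 1 → n i - (j : ℝ) * v ≤ Nf i j) →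
    pN < P → P - pN ≤ δ * q / 8 → v + q ≤ 1 → 0 ≤ rG → 0 < eG →
    d + (r + 1) * (40 * φ) < δ * q / 2 → ∀ {Ψ : Fml m},
    (∀ (J : ℕ) (F : Fam m J) (A B : F.Ω → Prop) (V : Type) (z : PtT F → V)
      (z' : LnT F → V) (G : V → MvPolynomial (Option (Fin m)) ℝ), Sub B A → Ψ J F A V z z' G →
      Ψ J F B V z z' G) →
    (∀ (J : ℕ) (F : Fam m J) (A : F.Ω → Prop) (V : Type) (z : PtT F → V)
      (z' : LnT F → V) (G : V → MvPolynomial (Option (Fin m)) ℝ), Ψ J F A V z z' G →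
      LbOK F I κ K ⌊eG * J⌋₊ J ⌊v * J⌋₊ ⌊(rG + eG) * J⌋₊ ⌊pN * J⌋₊ A z z' G) →
    (∀ τ : ℝ, 0 < τ → ∃ e₀ : ℝ, 0 < e₀ ∧ ∀ e : ℝ, 0 < e → e ≤ e₀ →
      ValH S (JnF Ψ c r Kc v e E rd (fun l => sn l v)) c 0 r κ v j (P + q) n
        (fun J F => ptr F J) (fun _ (F : Fam m _) => F.W) τ) →
    (∀ sa sb : ℝ, P ≤ sa → sa ≤ sb → sb ≤ P + q →
      Bas S (fun J F A => ∀ (V : Type) (z : PtT F → V) (z' : LnT F → V)
      (G : V → MvPolynomial (Option (Fin m)) ℝ), Ψ J F A V z z' G →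
      CH (Pool.Agent.H49.Ent.cond F.p A True)
        (fun ω => ⌊(2 : ℝ) ^ (sb * J) * ojet F κ 0 (G (z' (slam F ⌊v * J⌋₊ ω))) ω⌋)
        (fun ω => (⌊(2 : ℝ) ^ (sa * J) * ojet F κ 0 (G (z' (slam F ⌊v * J⌋₊ ω))) ω⌋,
          (ceI ((range r).image c) (fun _ => J) (F.x ω),
            (z' (slam F ⌊v * J⌋₊ ω), F.W ω)))) ≤
        ((1 - h) * (sb - sa) * Real.log 2 + d) * J)) →
    ∀ {Φ : Fm8 m},
    (∀ (J : ℕ) (F : Fam m J) (A : F.Ω → Prop) (V : Type) (z : PtT F → V) (z' : LnT F → V)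
      (G : V → MvPolynomial (Option (Fin m)) ℝ) (Va : Type) (za : PtT F → Va) (za' : LnT F → Va)
      (Ga : Va → MvPolynomial (Option (Fin m)) ℝ), Φ J F A V z z' G Va za za' Ga →
      Ψ J F A V z z' G ∧
      LbOK F I κ K ⌊eW * J⌋₊ J ⌊w * J⌋₊ ⌊(rW + eW) * J⌋₊ ⌊pW * J⌋₊ A za za' Ga ∧
      ∃ (Vd : Type) (zd : PtT F → Vd) (zd' : LnT F → Vd)
        (Da : Vd → MvPolynomial (Option (Fin m)) ℝ), (∀ y, (Da y).totalDegree ≤ K') ∧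
        (∀ y, DpI ((range r).image c) (Da y)) ∧
        (∀ ω, A ω → zd (ptr F J ω) = zd' (slam F ⌊w * J⌋₊ ω)) ∧
        ∀ ω, Da (zd' (slam F ⌊w * J⌋₊ ω)) =
          Ga (za' (slam F ⌊w * J⌋₊ ω)) - G (z' (slam F ⌊v * J⌋₊ ω))) →
    ∃ e₁ : ℝ, 0 < e₁ ∧ ∀ e : ℝ, 0 < e → e ≤ e₁ →
    Bas S (fun J F A => ∃ (V : Type) (z : PtT F → V) (z' : LnT F → V)
      (g : V → ℕ → MvPolynomial (Option (Fin m)) ℝ),
      LbX F c 0 r Kc e E v rd (fun l => sn l v) A z z' g ∧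
      ∀ ω, A ω → z (ptr F J ω) = z' (slam F ⌊v * J⌋₊ ω)) →
    ∀ K₀ : ℕ, Bas S (fun J F A => ∀ (V : Type) (z : PtT F → V) (z' : LnT F → V)
      (G : V → MvPolynomial (Option (Fin m)) ℝ) (Va : Type) (za : PtT F → Va) (za' : LnT F → Va)
      (Ga : Va → MvPolynomial (Option (Fin m)) ℝ), Φ J F A V z z' G Va za za' Ga →
      ∀ u₀ : F.Ω → ℕ → ℕ → ℤ, (jetQ m c 0 r b p Nf).P K₀ e J F A u₀ →
      ∃ (V₁ : Type) (z₁ : F.Ω → V₁), Cl2 (ptr F J) (vg a J F) A z₁ ∧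
        ∀ σ : ℝ, 0 < σ → σ ≤ 2 ^ (N' * J) →
        CH (Pool.Agent.H49.Ent.cond F.p A True) (cod F ⌊w * J⌋₊ j₀ (K + 1) σ κ za' Ga)
          (fun ω => (u₀ ω, (z₁ ω, F.W ω))) ≤ ε * q * J) := by
  classical
  obtain ⟨δ, hδ, Hp⟩ := ojs_core K r hh hh1 (ε := ε / 8) (by positivity)
  refine ⟨δ, hδ, ?_⟩
  intro m S c sn Gs b o φ L κ I v j w a q g₀ d P pN N' rG eG rW eW pW p n E rd Nf Kc K' j₀ hr hw hvw
    hwo hwa hrW heW hpN0 hpNW hc1 hc0 hN' hv hj hbv hvj hjo hja ha hq hg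
    hE hrd hn1 hn hlo hnb hp hNf hpP hPδ hvq hrG heG hd Ψ hs hl hval hrow Φ hΦ
  obtain ⟨C₀, htm⟩ := L.tm
  have hφ := L.φ0
  have hv0 : 0 ≤ v := L.b0.trans hbv
  have hw0 : 0 ≤ w := hv0.trans hvw
  have hw1 : w ≤ 1 := hwa.trans ha
  have hn' : Nst r sn v φ n :=
    ⟨fun i hi => by linarith [hn.lo i hi], fun i hi => by linarith [hn.hi i hi],
      fun i hi l hl => by linarith [hn.ne i hi l hl]⟩
  obtain ⟨e₁, he₁, Hp⟩ := Hp L (I := I) (a := a) hv hj hbv hvj hjo hja ha hq hg hE hrd hn1 hn hlo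
    hnb hp hNf hpP hPδ hvq hrG heG hd hs hl hval hrow
  -- the chain
  obtain ⟨k, hk⟩ := exists_nat_ge ((v - b) / φ)
  rw [div_le_iff₀ hφ] at hk
  have hcF := vuj_all (f := fun J F => ptr F J) (y := fun _ (F : Fam m _) => F.W) L
    (fun J F => ⟨fun x => x, fun _ => rfl⟩) kn_W hv hbv (hvw.trans hwo) hn' hp hnb (Nf := Nf) hNf
    (K + 1) k v hv hbv le_rfl hk
  have hup : ∀ (J : ℕ) (F : Fam m J), ∃ χ : LnT F → LnT F, ∀ ω,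
      vg v J F ω = χ (vg a J F ω) := fun J F => vg_mono (hvw.trans hwa) ha J F
  have hcF' := Few.up (f' := fun J F => ptr F J) (y' := fun _ (F : Fam m _) => F.W) L.pos
    (fun J F => ⟨fun x => x, fun _ => rfl⟩) hup (fun J F => ⟨fun x => x, fun _ => rfl⟩) hcF
  obtain ⟨e₂, he₂, hch⟩ := few_iff.1 hcF' (ε * q / 8) (by positivity)
  -- the jets of the difference
  obtain ⟨η, hη⟩ : ∃ η : ℝ, η = ε * q / (8 * ((K : ℝ) + 2)) := ⟨_, rfl⟩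
  have hη0 : 0 < η := by rw [hη]; positivity
  have hηe : ((K : ℝ) + 2) * η = ε * q / 8 := by
    rw [hη]
    field_simp
  obtain ⟨e₀, he₀⟩ : ∃ e₀ : ℝ, e₀ = min (min e₁ e₂) (φ / 8) := ⟨_, rfl⟩
  refine ⟨e₀, by rw [he₀]; exact lt_min (lt_min he₁ he₂) (by linarith),
    fun e he hee hlb K₀ => ?_⟩
  have b1 : e ≤ e₁ := hee.trans (he₀ ▸ (min_le_left _ _).trans (min_le_left _ _))
  have b2 : e ≤ e₂ := hee.trans (he₀ ▸ (min_le_left _ _).trans (min_le_right _ _))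
  have b3 : e ≤ φ / 8 := hee.trans (he₀ ▸ min_le_right _ _)
  have hC : ∀ i < K + 2, F1 S (fun J F => ptr F J) (vg a)
      (fun _ (F : Fam m _) => F.W) (qJets m c 0 r i (fun _ _ => v) (fun l _ => sn l v)
      (fun l j' => n l - (j' : ℝ) * v))
      (qJet m ((range r).image c) (c 0) i w pN (P + q - (i : ℝ) * v)) e η := fun i hi =>
    ((jet_clo L hr hv hw hbv hvw hwo (N := P + q) (pm := pN) (P₂ := pN) le_rfl (by linarith)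
      hc1 hc0 (j := i) (by omega) (f := fun J F => ptr F J) (y := fun _ (F : Fam m _) => F.W)
      (fun J F => ⟨fun x => x, fun _ => rfl⟩) kn_W hη0).up hwa ha).mono b3 le_rfl
  -- the numbers of values
  choose MT JT hcT using fun i : ℕ => cnt_jet m K i (N := P + q - (i : ℝ) * v) (w := v) hrG heG
  choose MR JR hcR using fun i : ℕ => cnt_jet m K i (N := P + q - (i : ℝ) * v) (w := w) hrW heW
  have hxs : Exs S (qJets m c 0 r (K + 1) (fun _ _ => v) (fun l _ => sn l v)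
      (fun l j' => n l - (j' : ℝ) * v)) := L.exs hv
  obtain ⟨Kx, Mx', hx⟩ := hxs e he
  obtain ⟨K₁, hK₁⟩ : ∃ K₁ : ℕ, K₁ = K₀ + K + K' + Kx + 2 + ∑ i ∈ range (K + 2), (MT i + MR i) :=
    ⟨_, rfl⟩
  obtain ⟨J₁, hJ₁⟩ : ∃ J₁ : ℕ, J₁ = ∑ i ∈ range (K + 2), (JT i + JR i) := ⟨_, rfl⟩
  obtain ⟨L', hL'⟩ : ∃ L' : ℝ, L' = ((K + 1 + 1 : ℕ) : ℝ) *
    Real.log (2 * (2 ^ (2 * (K + 1) + 1) + 1) + 1) + ((K : ℝ) + 2) * Real.log 7 := ⟨_, rfl⟩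
  obtain ⟨J₂, hJ₂⟩ := exists_nat_ge (L' / (ε / 2 * q))
  obtain ⟨J₃, hJ₃⟩ := exists_nat_ge (1 / e)
  obtain ⟨J₄, hJ₄⟩ := exists_nat_ge (1 / pN)
  have hMT : ∀ i < K + 2, MT i + MR i + 2 ≤ K₁ := fun i hi => by
    have h1 : MT i + MR i ≤ ∑ i ∈ range (K + 2), (MT i + MR i) :=
      Finset.single_le_sum (f := fun i => MT i + MR i) (fun i _ => Nat.zero_le _)
        (Finset.mem_range.2 hi)
    omega
  have hJT : ∀ i < K + 2, JT i ≤ J₁ ∧ JR i ≤ J₁ := fun i hi => by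
    have h1 : JT i + JR i ≤ ∑ i ∈ range (K + 2), (JT i + JR i) :=
      Finset.single_le_sum (f := fun i => JT i + JR i) (fun i _ => Nat.zero_le _)
        (Finset.mem_range.2 hi)
    omega
  have hCall : Bas S (fun J F A => ∀ i < K + 2, ∀ (u : F.Ω → ℕ → ℕ → ℤ) (u' : F.Ω → ℤ),
      (qJets m c 0 r i (fun _ _ => v) (fun l _ => sn l v)
        (fun l j' => n l - (j' : ℝ) * v)).P K₁ e J F A u →
      (qJet m ((range r).image c) (c 0) i w pN (P + q - (i : ℝ) * v)).P K₁ e J F A u' →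
      ∃ (V : Type) (z : F.Ω → V), Cl2 (ptr F J) (vg a J F) A z ∧
        CH (Pool.Agent.H49.Ent.cond F.p A True) u' (fun ω => (u ω, (z ω, F.W ω))) ≤ η * J) :=
    Bas.all (K + 2) fun i hi => hC i hi K₁
  refine Bas.mono (max (max J₁ J₂) (max (max J₃ J₄) 1)) (((Hp e he b1 hlb K₀).and
    (hch.mono b2 le_rfl K₁)).and ((hCall.and hx).and (Pool.GRW.tmc_bas htm one_pos))) ?_
  rintro J hJ F A ⟨⟨HJ, HC⟩, ⟨HV, uc, huc, -⟩, hA, -⟩ V₀ z₀ z₀' G₀ V z z' G hPh u₀ hu₀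
  have hJ1 : J₁ ≤ J := by omega
  have hJ2 : (J₂ : ℝ) ≤ J := by exact_mod_cast (by omega : J₂ ≤ J)
  have hJ3 : (J₃ : ℝ) ≤ J := by exact_mod_cast (by omega : J₃ ≤ J)
  have hJ4 : (J₄ : ℝ) ≤ J := by exact_mod_cast (by omega : J₄ ≤ J)
  have hJ01 : (1 : ℝ) ≤ J := by exact_mod_cast (by omega : 1 ≤ J)
  have hJ0 : (0 : ℝ) ≤ J := Nat.cast_nonneg J
  have f1 : L' ≤ ε / 2 * q * J := by
    have := hJ₂.trans hJ2
    rw [div_le_iff₀ (by positivity)] at this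
    linarith
  have f3 : 1 ≤ e * J := by
    have := hJ₃.trans hJ3
    rw [div_le_iff₀ he] at this
    linarith
  have f4 : 1 ≤ pN * J := by
    have := hJ₄.trans hJ4
    rw [div_le_iff₀ hpN0] at this
    linarith
  obtain ⟨hG₀, hlw, Vd, zd, zd', Da, d1, d2, d3, d4⟩ := hΦ J F A V₀ z₀ z₀' G₀ V z z' G hPh
  have hlG := hl J F A V₀ z₀ z₀' G₀ hG₀
  obtain ⟨Va, za, hza, h1⟩ := HJ V₀ z₀ z₀' G₀ hG₀ u₀ hu₀
  obtain ⟨Vc, zc, hzc, h2⟩ := HC u₀ uc ((jetQ m c 0 r b p Nf).mono (by omega) le_rfl hu₀)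
    ((qJets m c 0 r (K + 1) _ _ _).mono (by omega) le_rfl huc)
  obtain ⟨q', hq'⟩ : ∃ q' : F.Ω → ℝ, q' = Pool.Agent.H49.Ent.cond F.p A True := ⟨_, rfl⟩
  have hq'l : IsLaw q' := by
    rw [hq']
    exact isLaw_cond F.isLaw hA
  have h0 := hq'l.nonneg
  rw [← hq'] at h1 h2
  obtain ⟨uT, huT⟩ : ∃ uT : F.Ω → Fin (K + 2) → ℤ, uT = ojs F κ v (P + q) z₀' G₀ (K + 2) :=
    ⟨_, rfl⟩
  rw [← huT] at h1
  obtain ⟨uD, huD⟩ : ∃ uD : F.Ω → Fin (K + 2) → ℤ, uD = fun ω (i : Fin (K + 2)) =>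
    ⌊(2 : ℝ) ^ ((P + q - ((i : ℕ) : ℝ) * v) * J) *
      jet (i : ℕ) (Da (zd' (slam F ⌊w * J⌋₊ ω))) (bt F ω) (bd F ω)⌋ := ⟨_, rfl⟩
  obtain ⟨uW, huW⟩ : ∃ uW : F.Ω → Fin (K + 2) → ℤ, uW = fun ω (i : Fin (K + 2)) =>
    ⌊(2 : ℝ) ^ ((P + q - ((i : ℕ) : ℝ) * v) * J) *
      ojet F κ (i : ℕ) (G (z' (slam F ⌊w * J⌋₊ ω))) ω⌋ := ⟨_, rfl⟩
  -- the jets of the difference are differences of jets
  have hdif : ∀ (i : ℕ) (ω : F.Ω), jet i (Da (zd' (slam F ⌊w * J⌋₊ ω))) (bt F ω) (bd F ω) =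
      ojet F κ i (G₀ (z₀' (slam F ⌊v * J⌋₊ ω))) ω - ojet F κ i (G (z' (slam F ⌊w * J⌋₊ ω))) ω := by
    intro i ω
    have e1 := ojet_sub F κ i (G (z' (slam F ⌊w * J⌋₊ ω))) (G₀ (z₀' (slam F ⌊v * J⌋₊ ω))) ω
    rw [d4 ω, e1]
    ring
  have hval₀ : ∀ ω, A ω → |eval (bt F ω) (Da (zd' (slam F ⌊w * J⌋₊ ω)))| ≤
      1 / 2 ^ ⌊(pN - e) * J⌋₊ := by
    intro ω hω
    refine le_trans ?_ (two_inv f3 f4)
    have e1 := hdif 0 ω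
    rw [jet_zero] at e1
    rw [e1]
    have a1 : |ojet F κ 0 (G₀ (z₀' (slam F ⌊v * J⌋₊ ω))) ω| ≤ 1 / 2 ^ ⌊pN * J⌋₊ := by
      rw [Pool.OWN54.ojet_zero]
      exact hlG.pos ω hω
    have a2 : |ojet F κ 0 (G (z' (slam F ⌊w * J⌋₊ ω))) ω| ≤ 1 / 2 ^ ⌊pN * J⌋₊ := by
      rw [Pool.OWN54.ojet_zero]
      exact (hlw.pos ω hω).trans (inv_mono (Nat.floor_le_floor
        (mul_le_mul_of_nonneg_right hpNW hJ0)))
    have a3 := abs_le.1 a1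
    have a4 := abs_le.1 a2
    rw [abs_le]
    constructor <;> linarith [a3.1, a3.2, a4.1, a4.2]
  have hcd : ∀ i : Fin (K + 2), ∃ (V₁ : Type) (z₁ : F.Ω → V₁), Cl2 (ptr F J) (vg a J F) A z₁ ∧
      CH q' (fun ω => uD ω i) (fun ω => (uc ω, (z₁ ω, F.W ω))) ≤ η * J := by
    intro i
    have g1 : (qJets m c 0 r i (fun _ _ => v) (fun l _ => sn l v)
        (fun l j' => n l - (j' : ℝ) * v)).P K₁ e J F A (fun ω i' j' =>
          if 0 ≤ i' ∧ i' < r ∧ j' ≤ (i : ℕ) then uc ω i' j' else 0) :=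
      qJets_take le_rfl (by omega) ((qJets m c 0 r (K + 1) _ _ _).mono (by omega) le_rfl huc)
    have g2 : (qJet m ((range r).image c) (c 0) (i : ℕ) w pN
        (P + q - ((i : ℕ) : ℝ) * v)).P K₁ e J F A (fun ω => uD ω i) := by
      have e1 : (fun ω => uD ω i) = fun ω => ⌊(2 : ℝ) ^ ((P + q - ((i : ℕ) : ℝ) * v) * J) *
          jet (i : ℕ) (Da (zd' (slam F ⌊w * J⌋₊ ω))) (bt F ω) (bd F ω)⌋ := by
        funext ω
        rw [huD]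
      rw [e1]
      refine qjet_clo hr d1 d2 d3 hval₀ (by omega) (by omega) ?_
      have e2 : (fun ω => ⌊(2 : ℝ) ^ ((P + q - ((i : ℕ) : ℝ) * v) * J) *
          jet (i : ℕ) (Da (zd' (slam F ⌊w * J⌋₊ ω))) (bt F ω) (bd F ω)⌋) = fun ω =>
          ⌊(2 : ℝ) ^ ((P + q - ((i : ℕ) : ℝ) * v) * J) *
            ojet F κ (i : ℕ) (G₀ (z₀' (slam F ⌊v * J⌋₊ ω))) ω -
            (2 : ℝ) ^ ((P + q - ((i : ℕ) : ℝ) * v) * J) *
            ojet F κ (i : ℕ) (G (z' (slam F ⌊w * J⌋₊ ω))) ω⌋ := by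
        funext ω
        rw [hdif, mul_sub]
      rw [e2]
      refine (cnt_sub _ _ (hcT i J ((hJT i i.2).1.trans hJ1) F _ _ _ A V₀ z₀ z₀' G₀ hlG)
        (hcR i J ((hJT i i.2).2.trans hJ1) F _ _ _ A V z z' G hlw)).trans ?_
      have e3 : (3 : ℝ) ≤ Real.exp (2 * J) := by
        have e4 : (3 : ℝ) ≤ Real.exp 2 := by
          have e5 : Real.exp 2 = Real.exp 1 * Real.exp 1 := by
            rw [← Real.exp_add]
            norm_num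
          have e6 := Real.exp_one_gt_d9
          rw [e5]
          nlinarith
        exact e4.trans (Real.exp_le_exp.2 (by linarith))
      have e7 : Real.exp (MT i * J) * (Real.exp (MR i * J) * 3) ≤
          Real.exp (MT i * J) * (Real.exp (MR i * J) * Real.exp (2 * J)) :=
        mul_le_mul_of_nonneg_left (mul_le_mul_of_nonneg_left e3 (Real.exp_pos _).le)
          (Real.exp_pos _).le
      refine e7.trans ?_
      rw [← Real.exp_add, ← Real.exp_add]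
      refine Real.exp_le_exp.2 ?_
      have e8 : ((MT i : ℝ) + MR i + 2) ≤ K₁ := by exact_mod_cast hMT i i.2
      have e9 := mul_le_mul_of_nonneg_right e8 hJ0
      linarith
    obtain ⟨V₁, z₁, hz₁, h3⟩ := HV (i : ℕ) i.2 (fun ω i' j' =>
      if 0 ≤ i' ∧ i' < r ∧ j' ≤ (i : ℕ) then uc ω i' j' else 0) (fun ω => uD ω i) g1 g2
    refine ⟨V₁, z₁, hz₁, le_trans (CH_mono_cond h0 fun ω ω' _ _ e1 => ?_) (hq' ▸ h3)⟩
    simp only [Prod.mk.injEq] at e1 ⊢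
    refine ⟨?_, e1.2⟩
    rw [e1.1]
  choose V₁ z₁ hz₁ h3 using hcd
  refine ⟨Va × (Vc × (∀ i, V₁ i)), fun ω => (za ω, (zc ω, fun i => z₁ i ω)),
    hza.join (hzc.join (Cl2.pi hz₁)), fun σ hσ0 hσ => ?_⟩
  rw [← hq']
  obtain ⟨Y, hY⟩ : ∃ Y : F.Ω → (ℕ → ℕ → ℤ) × ((Va × (Vc × (∀ i, V₁ i))) × (ℕ × F.ζ)), Y = fun ω =>
    (u₀ ω, ((za ω, (zc ω, fun i => z₁ i ω)), F.W ω)) := ⟨_, rfl⟩
  rw [← hY]
  have k1 : CH q' uT Y ≤ ε / 8 * q * J := by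
    refine le_trans (CH_mono_cond h0 fun ω ω' _ _ e1 => ?_) h1
    rw [hY] at e1
    simp only [Prod.mk.injEq] at e1 ⊢
    exact ⟨e1.1, e1.2.1.1, e1.2.2⟩
  have k2 : CH q' uc Y ≤ ε * q / 8 * J := by
    refine le_trans (CH_mono_cond h0 fun ω ω' _ _ e1 => ?_) h2
    rw [hY] at e1
    simp only [Prod.mk.injEq] at e1 ⊢
    exact ⟨e1.1, e1.2.1.2.1, e1.2.2⟩
  have k3 : CH q' uD (fun ω => (uc ω, Y ω)) ≤ ∑ _i : Fin (K + 2), η * J := by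
    refine Pool.OWN83.ch_vecs h0 _ (K + 2) uD (fun _ => η * J) fun i => ?_
    refine le_trans (CH_mono_cond h0 fun ω ω' _ _ e1 => ?_) (h3 i)
    rw [hY] at e1
    simp only [Prod.mk.injEq] at e1 ⊢
    exact ⟨e1.1, congrFun e1.2.2.1.2.2 i, e1.2.2.2⟩
  have k3' : ∑ _i : Fin (K + 2), η * J = ε * q / 8 * J := by
    rw [Finset.sum_const, Finset.card_univ, Fintype.card_fin, nsmul_eq_mul]
    push_cast
    rw [← hηe]
    ring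
  have k5 : CH q' uW (fun ω => ((uT ω, uD ω), Y ω)) ≤ ∑ _i : Fin (K + 2), Real.log 7 := by
    refine Pool.OWN83.ch_vecs h0 _ (K + 2) uW (fun _ => Real.log 7) fun i => ?_
    have e7 : (7 : ℝ) = 2 * ((2 + 1 : ℕ) : ℝ) + 1 := by norm_num
    rw [e7]
    refine CH_pair hq'l _ _ fun ω ω' _ _ e1 => ?_
    have e2 := congrFun (Prod.ext_iff.mp (Prod.ext_iff.mp e1).1).1 i
    have e3 := congrFun (Prod.ext_iff.mp (Prod.ext_iff.mp e1).1).2 i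
    have e2' : ⌊(2 : ℝ) ^ ((P + q - ((i : ℕ) : ℝ) * v) * J) *
        ojet F κ (i : ℕ) (G₀ (z₀' (slam F ⌊v * J⌋₊ ω))) ω⌋ =
        ⌊(2 : ℝ) ^ ((P + q - ((i : ℕ) : ℝ) * v) * J) *
        ojet F κ (i : ℕ) (G₀ (z₀' (slam F ⌊v * J⌋₊ ω'))) ω'⌋ := by
      rw [huT] at e2
      exact e2
    rw [huD] at e3
    have a1 := abs_le.1 (Int.abs_sub_lt_one_of_floor_eq_floor e2').le
    have a2 := abs_le.1 (Int.abs_sub_lt_one_of_floor_eq_floor e3).le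
    rw [huW]
    refine floor_sub_le (D := 2) ?_
    have e4 := hdif (i : ℕ) ω
    have e5 := hdif (i : ℕ) ω'
    rw [e4, e5, mul_sub, mul_sub] at a2
    push_cast
    rw [abs_le]
    constructor <;> linarith [a1.1, a1.2, a2.1, a2.2]
  have k5' : ∑ _i : Fin (K + 2), Real.log 7 = ((K : ℝ) + 2) * Real.log 7 := by
    rw [Finset.sum_const, Finset.card_univ, Fintype.card_fin, nsmul_eq_mul]
    push_cast
    ring
  have k4 : CH q' (cod F ⌊w * J⌋₊ j₀ (K + 1) σ κ z' G) (fun ω => (uW ω, Y ω)) ≤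
      ((K + 1 + 1 : ℕ) : ℝ) * Real.log (2 * (2 ^ (2 * (K + 1) + 1) + 1) + 1) := by
    refine cod_few (w := w) (N := N') hw0 (floor_le (hwa.trans ha) J) hσ0 hσ (fun v => ?_) hq'l
      (fun ω => (uW ω, Y ω)) j₀ (s := fun i => P + q - (i : ℕ) * v) (fun i hi _ => hN' i hi)
      fun ω ω' _ _ e1 => ⟨?_, fun i hi hi' => ?_⟩
    · exact Nat.succ_le_succ (hlw.deg v)
    · have e2 := (Prod.ext_iff.mp e1).2
      rw [hY] at e2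
      simp only [Prod.mk.injEq] at e2
      exact (Prod.ext_iff.mp e2.2.2).1
    · have e2 := congrFun (Prod.ext_iff.mp e1).1 ⟨i, by omega⟩
      rw [huW] at e2
      exact e2
  have s1 := CH_le_add h0 (cod F ⌊w * J⌋₊ j₀ (K + 1) σ κ z' G) uW Y
  have s2 := CH_le_add h0 uW (fun ω => (uT ω, uD ω)) Y
  have s3 := CH_subadd h0 uT uD Y
  have s4 := CH_le_add h0 uD uc Y
  rw [k3'] at k3
  rw [k5'] at k5
  have e4 : ε * q * J = ε / 2 * q * J + 4 * (ε * q / 8 * J) := by ring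
  have e5 : ε / 8 * q * J = ε * q / 8 * J := by ring
  have e6 : 0 ≤ ε * q / 8 * J := by positivity
  rw [e4]
  rw [hL'] at f1
  linarith only [s1, s2, s3, s4, k1, k2, k3, k4, k5, f1, e5, e6]

end Pool.NPZ
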