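import Pool.Agent.H42.V0B.Ljg
import Pool.Agent.H19.V0B.Out
import Pool.Agent.H60.V0B.Nzm
import Pool.Agent.H60.ALT.Nbf

/-!
# The codes of the target in the form of the class theorem

`codU_of`: `CodU` from the codes given the jets of the base charts. `NzW`: natural labels with
companions at the windows of a list.
-/

set_option autoImplicit false

namespace Pool.NPZ

open Finset Real MvPolynomial
open Pool.Agent.H49.Ent Pool.Agent.H32.Dense Pool.STK Pool.KA Pool.KSAT Pool.K2S Pool.PB Pool.GEN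
open Pool.S6C Pool.RCD Pool.LA91 Pool.OWN68 Pool.CHT Pool.AJW Pool.V0F Pool.AVG96
open Pool.AVG57 (jet2)
open Pool.GRD (LbP)
open Pool.UNJ (ceI Tub)
open Pool.AJX (LbX FwX)
open Pool.ALT (Fml DpI NzF NzQ NzL nzq_vad AlpD)
open Pool.V0N (NzP NzM nzp_dif)
open Pool.V0B19 (CodU)
open Pool.V0Q (frH LDP ldp_of)
open Pool.D2R (WinB)

variable {m : ℕ}

/-- **`CodU`** from the codes given the jets of the base charts. -/
theorem codU_of {S : PCl m}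
    (hpos : ∀ (τ : ℝ) (J : ℕ) (F : Fam m J) (A : F.Ω → Prop), S.St τ J F A → 0 < Pe F.p A)
    {c : ℕ → Fin m} {k D D' Dr N M : ℕ} {C₀ a Eb ηm : ℝ} {ow η σ : ℕ → ℝ} {lv : ℕ → ℕ → ℝ}
    {b₀ f₀ : ℕ} {b w E φ : ℝ} {sn : ℕ → ℝ → ℝ} (hD : D ≤ D') (hb : b₀ ≤ N) (hf : f₀ ≤ N)
    (hob : ow b₀ = b) (how : ow f₀ = w) (hb0 : 0 ≤ b) (hbw : b ≤ w) (hw1 : w ≤ 1)
    (hC : C₀ * ηm ≤ φ) (lb : ∀ l ≤ k + 1, lv b₀ l = sn l b) (lw : ∀ l ≤ k + 1, lv f₀ l = sn l w)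
    {Θ : Fml m} {p : ℝ} (hp : sn (k + 1) w - φ ≤ p)
    (hΘ : ∀ (J : ℕ) (F : Fam m J) (A : F.Ω → Prop) (V : Type) (z : PtT F → V) (z' : LnT F → V)
      (G : V → MvPolynomial (Option (Fin m)) ℝ), Θ J F A V z z' G →
      LbP F ((range (k + 1)).image c) (c (k + 1)) D' J ⌊w * J⌋₊ ⌊p * J⌋₊ A z z' G)
    {j₀ : ℕ} {nh : ℕ → ℕ → ℝ} {X Nm d e₀ : ℝ} (he₀ : 0 ≤ e₀)
    (H : ∀ K₀ : ℕ, Bas S (fun J F A => ∀ (V : Type) (z : PtT F → V) (z' : LnT F → V)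
      (G : V → MvPolynomial (Option (Fin m)) ℝ), Θ J F A V z z' G → ∀ u₀ : F.Ω → ℕ → ℕ → ℤ,
      (jetQ m c 0 k b (fun l => sn l b - φ) nh).P K₀ e₀ J F A u₀ →
      ∃ (V₁ : Type) (z₁ : F.Ω → V₁), Cl2 (ptr F J) (vg X J F) A z₁ ∧
        ∀ σ : ℝ, 0 < σ → σ ≤ 2 ^ (Nm * J) →
        CH (Pool.Agent.H49.Ent.cond F.p A True)
          (Pool.AVG71.cod F ⌊w * J⌋₊ j₀ (D' + 1) σ (c (k + 1)) z' G)
          (fun ω => (u₀ ω, (z₁ ω, F.W ω))) ≤ d * J)) :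
    CodU S c k D D' Dr N M C₀ a Eb ηm ow η σ lv b₀ f₀ b w E Θ j₀ nh X Nm d := by
  subst hob
  subst how
  obtain ⟨M₁, J₁, hM⟩ := ld_j2 m D' k nh (b := ow b₀) (E := E) hb0 (hbw.trans hw1)
  refine Bas.mono J₁ ((H M₁).and (pos_bas hpos)) ?_
  rintro J hJ F A ⟨H1, hA⟩ bb κ z g₀ Gc H' W cb cw V y y' G hg cn N' hN'
  have hJ0 : (0 : ℝ) ≤ J := Nat.cast_nonneg J
  have hl := hΘ J F A V y y' G hg
  have hdep : ∀ v, DepC c (k + 1) (G v) := fun v b b' hn hb => hl.dep v b b' hn fun i hi => by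
    obtain ⟨l, hl', rfl⟩ := Finset.mem_image.1 hi
    exact hb l (Finset.mem_range.1 hl')
  have hLD := (ldp_of W hD hb hf (φ := φ) (E := E) (sn := sn) hbw hw1 hC lb lw cb cw
    (GN := fun x => G (y x)) (HN := fun s => G (y' s)) cn (fun ω hω => by rw [hl.cls ω hω])
    (fun x => hl.deg _) (fun s => hl.deg _) (fun x => hdep _) (fun s => hdep _)
    (fun ω hω => by
      rw [hl.cls ω hω]
      refine (hl.pos ω hω).trans (inv_mono (Nat.floor_le_floor ?_))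
      exact mul_le_mul_of_nonneg_right hp hJ0)).toLD
  have q1 := hM M₁ le_rfl J hJ hLD e₀ he₀
  obtain ⟨V₁, z₁, hz₁, H2⟩ := H1 V y y' G hg _ q1
  have H3 := H2 (2 ^ N') (by positivity) (by
    rw [← Real.rpow_natCast]
    exact Real.rpow_le_rpow_of_exponent_le one_le_two hN')
  have hcl := isLaw_cond F.isLaw hA
  have h0 := hcl.nonneg
  have hd : Det (Pool.Agent.H49.Ent.cond F.p A True) (cR F A X) z₁ :=
    det_cR hz₁ fun ω hω => of_cond_pos hω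
  have ec : Pool.AVG57.cod F ⌊ow f₀ * J⌋₊ (fun s => G (y' s)) (c (k + 1)) N' j₀ (D' + 1) =
      Pool.AVG71.cod F ⌊ow f₀ * J⌋₊ j₀ (D' + 1) (2 ^ N') (c (k + 1)) y' G :=
    Pool.V0F.cod_congr (F := F) (W := ⌊ow f₀ * J⌋₊) (j₀ := j₀) (D := D' + 1) (σ := 2 ^ N')
      (κ := c (k + 1)) (z := fun s : LnT F => s) (z' := y') (G := fun s => G (y' s)) (G' := G)
      (fun _ => rfl)
  rw [ec]
  refine le_trans (CH_mono_cond h0 fun ω ν hω hν e => ?_) H3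
  simp only [Prod.mk.injEq] at e ⊢
  exact ⟨e.1, hd ω ν hω hν e.2.1, e.2.2⟩

end Pool.NPZ
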