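import Pool.Agent.H42.V0B.Lji

/-!
# Natural labels with companions: the codes of order at least one

`dj_nat`: the codes of order at least one over the natural labels of a window, to more digits than
the level, are few bits given the jets of the base and the record of the window.
-/

set_option autoImplicit false

namespace Pool.NPZ

open Finset Real MvPolynomial
open Pool.Agent.H49.Ent Pool.Agent.H32.Dense Pool.STK Pool.KA Pool.KSAT Pool.K2S Pool.PB Pool.GEN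
open Pool.S6C Pool.RCD Pool.LA91 Pool.OWN68 Pool.CHT Pool.AJW Pool.V0F Pool.AVG96
open Pool.AVG57 (jet2)
open Pool.GRD (LbP)
open Pool.UNJ (ceI Tub)
open Pool.AJX (LbX FwX)
open Pool.ALT (Fml DpI NzF NzQ NzL nzq_vad AlpD)
open Pool.V0N (NzP NzM nzp_dif)
open Pool.AVG71 (cod)

variable {m : ℕ}

/-- **The codes of order at least one of the natural labels with companions.** -/
theorem dj_nat (D' k : ℕ) (hk : 1 ≤ k) {h : ℝ} (hh : 0 < h) (hh1 : h ≤ 1) {B : ℝ} (hB : 1 ≤ B)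
    {ε : ℝ} (hε : 0 < ε) :
    ∃ T₀ : ℝ, 0 < T₀ ∧ ∀ T : ℝ, T₀ ≤ T → ∃ δ : ℝ, 0 < δ ∧
    ∀ {m : ℕ} {S : PCl m} {c : ℕ → Fin m} {sn : ℕ → ℝ → ℝ} {Gs : Set ℝ}
    {b o φ : ℝ}, Lad S c k sn Gs b o φ → ∀ {Ψ : Fml m} {κ : Fin m} {D : ℕ}
    {w₀ v w u q sv sN d : ℝ} {n i i' : ℕ} {vv p₁ p₂ eN uN pN : ℕ → ℝ} {Kc : ℕ}
    {E rd : ℕ → ℝ}, 0 < u → φ ≤ δ * u → d ≤ δ * u → D * max 1 D ≤ D' → v ∈ Gs → w ∈ Gs →
    |v - (w - 3 * u)| ≤ φ → b + (T + 10) * u ≤ w → w + (T + 10) * u ≤ o →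
    (∀ (J : ℕ) (F : Fam m J) (A B : F.Ω → Prop) (V : Type) (z : PtT F → V) (z' : LnT F → V)
      (G : V → MvPolynomial (Option (Fin m)) ℝ), Sub B A → Ψ J F A V z z' G →
      Ψ J F B V z z' G) →
    (∀ (J : ℕ) (F : Fam m J) (A : F.Ω → Prop) (V : Type) (z : PtT F → V) (z' : LnT F → V)
      (G : V → MvPolynomial (Option (Fin m)) ℝ), Ψ J F A V z z' G →
      (∀ y, (G y).totalDegree ≤ D) ∧ (∀ y, DpI ((range (k + 1)).image c) (G y)) ∧
      ∀ ω, A ω → z (ptr F J ω) = z' (slam F ⌊w₀ * J⌋₊ ω)) → w₀ ≤ v →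
    -- the two windows of the list
    i < n → i' < n → vv i = w → vv i' = v →
    -- the levels and the precisions
    sv + q = sN - 2 * φ → u ≤ q → q ≤ B * u → u ≤ sv → 0 < eN i → 0 < eN i' →
    pN i' < sv → sv - φ ≤ pN i' → sN - φ ≤ pN i →
    RowZ S (NzF Ψ c k κ D D D w₀ (vv i') (p₁ i') (p₂ i') (eN i') (uN i') (pN i')) c k κ v sv q
      h d →
    -- the labels of the chain
    (∀ l < k, 0 ≤ E l ∧ E l ≤ 1 ∧ sn l w + E l + (T + 3) * u ≤ 1 ∧ 0 ≤ rd l ∧ rd l + u ≤ 1) →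
    (∀ e : ℝ, 0 < e → Bas S (fun J F A => ∃ (V : Type) (z : PtT F → V) (z' : LnT F → V)
      (g : V → ℕ → MvPolynomial (Option (Fin m)) ℝ),
      LbE F c k Kc E e v rd (fun l => sn l v) A z z' g)) →
    ∃ e₁ : ℝ, 0 < e₁ ∧ ∀ K₀ : ℕ, Bas S (fun J F A => ∀ (V : Type) (z : PtT F → V)
      (z' : LnT F → V) (G : V → MvPolynomial (Option (Fin m)) ℝ),
      NzW Ψ c k κ D w₀ n vv p₁ p₂ eN uN pN i J F A V z z' G → ∀ u₀ : F.Ω → ℕ → ℕ → ℤ,
      (jetQ m c 0 k b (fun l => sn l b - φ)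
        (fun l' j' => sn l' w + T * u - (j' : ℝ) * w)).P K₀ e₁ J F A u₀ →
      ∃ (V₁ : Type) (z₁ : F.Ω → V₁), Cl2 (ptr F J) (vg w J F) A z₁ ∧
        ∀ σ : ℝ, 0 < σ → σ ≤ 2 ^ ((sN + 2 * u) * J) →
        CH (Pool.Agent.H49.Ent.cond F.p A True) (cod F ⌊w * J⌋₊ 1 (D' + 1) σ κ z' G)
          (fun ω => (u₀ ω, (z₁ ω, F.W ω))) ≤ ε * u * J) := by
  classical
  have hB0 : 0 < B := by linarith
  obtain ⟨δ₀, hδ₀, Hp⟩ := dj_core D' k hh hh1 (ε := ε / B) (by positivity)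
  have hk0 : (0 : ℝ) ≤ k := Nat.cast_nonneg k
  have hD0 : (0 : ℝ) ≤ D' := Nat.cast_nonneg D'
  refine ⟨B + 4 * ((D' : ℝ) + 2 * k + 8) + 10, by positivity, fun T hT => ?_⟩
  obtain ⟨δ, hδ⟩ : ∃ δ : ℝ, δ = min (1 / (200 * ((k : ℝ) + D' + 2)))
    (δ₀ / (200 * ((k : ℝ) + 2))) := ⟨_, rfl⟩
  have hδ0 : 0 < δ := by
    rw [hδ]
    exact lt_min (by positivity) (by positivity)
  refine ⟨δ, hδ0, ?_⟩
  intro m S c sn Gs b o φ L Ψ κ D w₀ v w u q sv sN d n i i' vv p₁ p₂ eN uN pN Kc E rd hu hφδ hdδ hD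
    hv hw hvw3 hbw hwo hΨs hΨd hw₀ hi hi' hvi hvi' hsq huq hqB husv heN heN' hpN1 hpN2 hpN3 hrow hE
    hlb
  have hφ := L.φ0
  have hvw' := abs_le.1 hvw3
  obtain ⟨U, hU⟩ : ∃ U : ℝ, U = T * u := ⟨_, rfl⟩
  have c1 : 200 * ((k : ℝ) + D' + 2) * φ ≤ u := by
    have h1 : δ ≤ 1 / (200 * ((k : ℝ) + D' + 2)) := by rw [hδ]; exact min_le_left _ _
    have h2 := hφδ.trans (mul_le_mul_of_nonneg_right h1 hu.le)
    have h3 := mul_le_mul_of_nonneg_left h2 (show 0 ≤ 200 * ((k : ℝ) + D' + 2) by positivity)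
    have h4 : 200 * ((k : ℝ) + D' + 2) * (1 / (200 * ((k : ℝ) + D' + 2)) * u) = u := by
      field_simp
    linarith
  have c2 : ∀ x : ℝ, x ≤ δ * u → 200 * ((k : ℝ) + 2) * x ≤ δ₀ * u := by
    intro x hx
    have h1 : δ ≤ δ₀ / (200 * ((k : ℝ) + 2)) := by rw [hδ]; exact min_le_right _ _
    have h2 := hx.trans (mul_le_mul_of_nonneg_right h1 hu.le)
    have h3 := mul_le_mul_of_nonneg_left h2 (show 0 ≤ 200 * ((k : ℝ) + 2) by positivity)
    have h4 : 200 * ((k : ℝ) + 2) * (δ₀ / (200 * ((k : ℝ) + 2)) * u) = δ₀ * u := by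
      field_simp
    linarith
  have c3 := c2 φ hφδ
  have c4 := c2 d hdδ
  have hkφ : 0 ≤ (k : ℝ) * φ := by positivity
  have hDφ : 0 ≤ (D' : ℝ) * φ := by positivity
  have hku : 0 ≤ (k : ℝ) * u := by positivity
  have hDu : 0 ≤ (D' : ℝ) * u := by positivity
  have c1' : 200 * ((k : ℝ) * φ) + 200 * ((D' : ℝ) * φ) + 400 * φ ≤ u := by linarith
  have c3' : 200 * ((k : ℝ) * φ) + 400 * φ ≤ δ₀ * u := by linarith
  have hδu : 0 < δ₀ * u := by positivity
  have hδq : δ₀ * u ≤ δ₀ * q := mul_le_mul_of_nonneg_left huq hδ₀.le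
  have hd0 : d ≤ δ₀ * u / 4 := by
    rcases le_or_gt d 0 with hd | hd
    · linarith
    · have h1 : 0 ≤ (k : ℝ) * d := by positivity
      linarith
  -- the room
  have hTu : B * u + 4 * ((D' : ℝ) * u + 2 * ((k : ℝ) * u) + 8 * u) + 10 * u ≤ U := by
    have h1 := mul_le_mul_of_nonneg_right hT hu.le
    rw [hU]
    calc B * u + 4 * ((D' : ℝ) * u + 2 * ((k : ℝ) * u) + 8 * u) + 10 * u
        = (B + 4 * ((D' : ℝ) + 2 * k + 8) + 10) * u := by ring
      _ ≤ T * u := h1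
  have hBu : u ≤ B * u := huq.trans hqB
  have hbw' : b + U + 10 * u ≤ w := by rw [hU]; linarith
  have hwo' : w + U + 10 * u ≤ o := by rw [hU]; linarith
  have hu0 := hu.le
  have hb0 := L.b0
  have ho1 := L.o1
  have hw0 : 0 ≤ w := by linarith
  have hvw : v ≤ w := by linarith [hvw'.2]
  have hbv : b ≤ v := by linarith [hvw'.1]
  have hwoo : w ≤ o := by linarith
  have hwv1 : w - v ≤ 3 * u + φ := by linarith [hvw'.1]
  have hwv2 : 3 * u - φ ≤ w - v := by linarith [hvw'.2]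
  -- the digits
  obtain ⟨nn, hnn⟩ : ∃ nn : ℕ → ℝ, nn = fun l => sn l w + (T - 4) * u + 50 * ((k : ℝ) - l) * φ :=
    ⟨_, rfl⟩
  have hlk : ∀ l : ℕ, l < k → (l : ℝ) * φ + φ ≤ (k : ℝ) * φ := by
    intro l hl
    have h1 : (l : ℝ) + 1 ≤ k := by exact_mod_cast hl
    have h2 := mul_le_mul_of_nonneg_right h1 hφ.le
    linarith
  have hn0 : ∀ l : ℕ, nn l = sn l w + U - 4 * u + 50 * ((k : ℝ) * φ) - 50 * ((l : ℝ) * φ) := by
    intro l
    rw [hnn, hU]
    ring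
  have hl0 : ∀ l : ℕ, 0 ≤ (l : ℝ) * φ := fun l => by positivity
  have hflat : ∀ l < k, |(sn l v - v) - (sn l w - w)| ≤ 2 * φ := fun l hl =>
    L.flat hl hv hw hbv (hvw.trans hwoo) (by linarith) hwoo
  have hfl1 : ∀ l < k, sn l v ≤ sn l w - (w - v) + 2 * φ := fun l hl => by
    linarith [(abs_le.1 (hflat l hl)).2]
  have hfl2 : ∀ l < k, sn l w - (w - v) - 2 * φ ≤ sn l v := fun l hl => by
    linarith [(abs_le.1 (hflat l hl)).1]
  have hNst : Nst k sn v (2 * φ) nn := by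
    refine ⟨fun l hl => ?_, fun l hl => ?_, fun l hl l' hl' => ?_⟩
    · have := hlk l hl
      have := hfl1 l hl
      rw [hn0]
      linarith
    · have := hl0 l
      have := hfl2 l hl
      rw [hn0]
      linarith
    · have h1 := hlk l' (by omega)
      have h2 : (l' : ℝ) * φ + φ ≤ (l : ℝ) * φ := by
        have h1 : (l' : ℝ) + 1 ≤ l := by exact_mod_cast hl'
        have h2 := mul_le_mul_of_nonneg_right h1 hφ.le
        linarith
      have h3 := hfl2 l hl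
      have h4 := hfl1 l' (by omega)
      rw [hn0, hn0]
      linarith
  have hNst' : Nst k sn v φ nn :=
    ⟨fun i hi => by linarith [hNst.lo i hi], fun i hi => by linarith [hNst.hi i hi],
      fun i hi l hl => by linarith [hNst.ne i hi l hl]⟩
  have hlo : ∀ l < k, sn l w + 40 * φ ≤ nn l := by
    intro l hl
    have h2 := hlk l hl
    rw [hn0]
    linarith
  obtain ⟨eG, heG⟩ : ∃ eG : ℝ, eG = max (eN i') (uN i') := ⟨_, rfl⟩
  have heG0 : 0 < eG := by rw [heG]; exact lt_max_of_lt_left heN'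
  obtain ⟨eW, heW⟩ : ∃ eW : ℝ, eW = max (eN i) (uN i) := ⟨_, rfl⟩
  have heW0 : 0 < eW := by rw [heW]; exact lt_max_of_lt_left heN
  have hDD : max D D * max 1 D ≤ D' := by rw [max_self]; exact hD
  -- the families
  obtain ⟨Φ, hΦ⟩ : ∃ Φ : Fm8 m, Φ = fun J F A V z z' G Va za za' Ga =>
    NzP Ψ c k κ D w₀ v (p₁ i') (p₂ i') (eN i') (uN i') (pN i') w (p₁ i) (p₂ i) (eN i) (uN i) (pN i)
      J F A V z z' G Va za za' Ga := ⟨_, rfl⟩
  obtain ⟨Θ, hΘ⟩ : ∃ Θ : Fml m, Θ = fun J F A V z z' G => ∃ (Va : Type) (za : PtT F → Va)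
    (za' : LnT F → Va) (Ga : Va → MvPolynomial (Option (Fin m)) ℝ),
    Φ J F A V z z' G Va za za' Ga := ⟨_, rfl⟩
  have hΘf : ∀ (J : ℕ) (F : Fam m J) (A : F.Ω → Prop) (V : Type) (z : PtT F → V)
      (z' : LnT F → V) (G : V → MvPolynomial (Option (Fin m)) ℝ), Θ J F A V z z' G →
      NzF Ψ c k κ D D D w₀ v (p₁ i') (p₂ i') (eN i') (uN i') (pN i') J F A V z z' G := by
    intro J F A V z z' G hG
    rw [hΘ] at hG
    obtain ⟨Va, za, za', Ga, h1⟩ := hG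
    rw [hΦ] at h1
    exact h1.nzf1
  have hΘs : ∀ (J : ℕ) (F : Fam m J) (A B : F.Ω → Prop) (V : Type) (z : PtT F → V)
      (z' : LnT F → V) (G : V → MvPolynomial (Option (Fin m)) ℝ), Sub B A →
      Θ J F A V z z' G → Θ J F B V z z' G := by
    intro J F A B V z z' G hB hG
    rw [hΘ] at hG ⊢
    obtain ⟨Va, za, za', Ga, h1⟩ := hG
    rw [hΦ] at h1 ⊢
    exact ⟨Va, za, za', Ga, h1.hs hΨs hB⟩
  have hlbf : ∀ {E₀ U₀ x p p' : ℝ} {a₁ a₂ : ℝ} {J : ℕ} {F : Fam m J} {A : F.Ω → Prop} {V : Type}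
      {z : PtT F → V} {z' : LnT F → V} {G : V → MvPolynomial (Option (Fin m)) ℝ},
      NzF Ψ c k κ D D D w₀ x a₁ a₂ E₀ U₀ p J F A V z z' G → p' ≤ p →
      LbOK F ((range (k + 1)).image c) κ D' ⌊max E₀ U₀ * J⌋₊ J ⌊x * J⌋₊
        ⌊(0 + max E₀ U₀) * J⌋₊ ⌊p' * J⌋₊ A z z' G := by
    intro E₀ U₀ x p p' a₁ a₂ J F A V z z' G hG hp
    refine hG.lb.mono (fun _ h => h) hDD ?_ ?_ ?_
    · exact Nat.floor_le_floor (mul_le_mul_of_nonneg_right (le_max_left _ _) (Nat.cast_nonneg J))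
    · rw [zero_add]
      exact Nat.floor_le_floor (mul_le_mul_of_nonneg_right (le_max_right _ _) (Nat.cast_nonneg J))
    · exact Nat.floor_le_floor (mul_le_mul_of_nonneg_right hp (Nat.cast_nonneg J))
  -- the precisions of the mesh
  obtain ⟨pp, hpp⟩ : ∃ pp : ℕ → ℝ, pp = fun t => if t = 0 then sv - φ else sN - φ := ⟨_, rfl⟩
  have hpp0 : pp 0 = sv - φ := by rw [hpp]; simp only [if_true]
  have hpp1 : pp 1 = sN - φ := by rw [hpp]; simp only [one_ne_zero, if_false]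
  obtain ⟨W, hW⟩ : ∃ W : ℕ → ℝ, W = fun t => if t = 0 then v else w := ⟨_, rfl⟩
  have hW0 : W 0 = v := by rw [hW]; simp only [if_true]
  have hW1 : W 1 = w := by rw [hW]; simp only [one_ne_zero, if_false]
  have hval : ∀ τ : ℝ, 0 < τ → ∃ e₀ : ℝ, 0 < e₀ ∧ ∀ e : ℝ, 0 < e → e ≤ e₀ →
      ValH S (JnF Θ c k Kc v e E rd (fun l => sn l v)) c 0 k
        κ v w (sv + q) nn (fun J F => ptr F J) (fun _ (F : Fam m _) => F.W) τ := by
    intro τ hτ
    obtain ⟨e₁, he₁, H⟩ := valH_mesh (S := S) (f := fun J F => ptr F J)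
      (y := fun _ (F : Fam m _) => F.W) L hk (fun J F => ⟨fun x => x, fun _ => rfl⟩) kn_W
      (κ := κ) (K' := max 1 (D * max 1 D)) (Kc := Kc) (M := 1) (v := v) (j := w)
      (N := sv + q) (W := W) (p := pp) (n := nn) (E := E) (rd := rd) hv hw
      hbv hwoo hW0 (fun t ht => by
        rcases Nat.lt_or_ge t 1 with h1 | h1
        · obtain rfl : t = 0 := by omega
          rw [hW0]
          exact ⟨hv, hvw⟩
        · obtain rfl : t = 1 := by omega
          rw [hW1]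
          exact ⟨hw, le_rfl⟩)
      (fun t ht => by
        obtain rfl : t = 0 := by omega
        rw [hW0, zero_add, hW1]
        exact hvw)
      hNst' (fun l hl => by linarith [hlo l hl]) (by rw [hpp0]; linarith)
      (fun t ht => by
        obtain rfl : t = 0 := by omega
        rw [hpp0, zero_add, hpp1]
        linarith)
      (by rw [hpp1]; linarith)
      (fun t ht => by
        obtain rfl : t = 0 := by omega
        rw [hpp0, zero_add, hW1]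
        linarith)
      (fun t ht l hl => by
        obtain rfl : t = 0 := by omega
        have h3 := hlk l hl
        rw [hpp0, zero_add, hW1, hn0]
        linarith)
      (fun l hl => (hE l hl).2.1) (fun l hl => (hE l hl).2.2.2.1) hτ
    refine ⟨e₁, he₁, fun e he hee => H e he hee ?_⟩
    rintro J F A V z z' G g ⟨V₁, z₁, z₁', G₁, χ, hG, k1, k2, k3, k4⟩
    refine ⟨k3, fun ω hω => ?_, fun t ht1 ht2 => ?_⟩
    · have h1 := (hΘf J F A V₁ z₁ z₁' G₁ hG).lb.pos ω hω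
      rw [Pool.OWN54.ojet_zero, k2, k1]
      refine h1.trans (inv_mono (Nat.floor_le_floor
        (mul_le_mul_of_nonneg_right ?_ (Nat.cast_nonneg J))))
      rw [hpp0]
      exact hpN2
    · obtain rfl : t = 1 := by omega
      rw [hΘ] at hG
      obtain ⟨Va, za, za', Ga, h1⟩ := hG
      rw [hΦ] at h1
      have h2 : VaD F c k κ (max 1 (max D D * max 1 (max D D))) v w (pN i) A
          z₁' G₁ := nzq_vad hΨd hw₀ hvw (by linarith) h1.nzq
      rw [max_self] at h2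
      rw [hW1, hpp1]
      exact (h2.mono le_rfl hpN3).fine k1 k2
  have hNi : ∀ i : ℕ, 1 ≤ i → sN + 2 * u - (i : ℝ) * w ≤ sv + q - (i : ℝ) * v := by
    intro i hi
    have h1 : (1 : ℝ) ≤ i := by exact_mod_cast hi
    have h2 := mul_le_mul_of_nonneg_right h1 (show 0 ≤ w - v by linarith)
    have h3 : (i : ℝ) * (w - v) = (i : ℝ) * w - (i : ℝ) * v := by ring
    rw [h3] at h2
    linarith
  have hkey : ((D' : ℝ) + 2 * k + 8) * (w - v) + 60 * ((k : ℝ) + 2) * φ ≤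
      4 * ((D' : ℝ) * u + 2 * ((k : ℝ) * u) + 8 * u) := by
    have h1 := mul_le_mul_of_nonneg_left hwv1 (show 0 ≤ (D' : ℝ) + 2 * k + 8 by positivity)
    have h2 : ((D' : ℝ) + 2 * k + 8) * (3 * u + φ) = 3 * ((D' : ℝ) * u) + 6 * ((k : ℝ) * u) +
        24 * u + ((D' : ℝ) * φ + 2 * ((k : ℝ) * φ) + 8 * φ) := by ring
    have h3 : 60 * ((k : ℝ) + 2) * φ = 60 * ((k : ℝ) * φ) + 120 * φ := by ring
    linarith
  have hqpN : sv + q - pN i' ≤ B * u + φ := by linarith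
  obtain ⟨e₁, he₁, H⟩ := Hp L (κ := κ) (I := (range (k + 1)).image c) (v := v) (j := w) (w := w)
    (a := w) (q := q) (g₀ := u) (d := d) (P := sv) (pN := pN i') (N' := sN + 2 * u) (rG := 0)
    (eG := eG) (rW := 0) (eW := eW) (pW := pN i)
    (p := fun l => sn l b - φ) (n := nn) (E := E) (rd := rd)
    (Nf := fun l' j' => sn l' w + T * u - (j' : ℝ) * w) (Kc := Kc)
    (K' := max 1 (D * max 1 D)) (j₀ := 1) hk hw hvw hwoo le_rfl le_rfl heW0
    (by linarith) (by linarith)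
    (fun l hl => by
      have h3 := hlk l hl
      rw [hn0]
      linarith)
    (by linarith) hNi hv hw hbv hvw hwoo le_rfl (by linarith) (by linarith) hu
    (fun l hl => ⟨(hE l hl).1, (hE l hl).2.1⟩)
    (fun l hl => ⟨(hE l hl).2.2.2.1, (hE l hl).2.2.2.2⟩)
    (fun l hl => by
      have h1 := (hE l hl).2.2.1
      have h2 := hl0 l
      have h3 : (T + 3) * u = U + 3 * u := by rw [hU]; ring
      rw [h3] at h1
      rw [hn0]
      linarith) hNst hlo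
    (fun l hl => by
      have h2 := hl0 l
      have h3 := hfl2 l hl
      rw [hn0]
      linarith) (fun l _ => le_rfl)
    (fun l hl j' hj' => by
      have h2 := hl0 l
      have h3 : (j' : ℝ) ≤ 1 := by exact_mod_cast hj'
      have h4 : (0 : ℝ) ≤ j' := Nat.cast_nonneg j'
      have h5 := mul_le_mul_of_nonneg_right h3 (show 0 ≤ w - v by linarith)
      have h6 : (j' : ℝ) * (w - v) = (j' : ℝ) * w - (j' : ℝ) * v := by ring
      rw [h6] at h5
      rw [hn0, ← hU]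
      linarith) hpN1 (by linarith) (by linarith) le_rfl heG0
    (by linarith) (Ψ := Θ) hΘs
    (fun J F A V z z' G hG => by
      rw [heG]
      exact hlbf (hΘf J F A V z z' G hG) le_rfl)
    hval ((hvi' ▸ hrow).fam hΘf) (Φ := Φ)
    (fun J F A V z z' G Va za za' Ga hG => by
      refine ⟨by rw [hΘ]; exact ⟨Va, za, za', Ga, hG⟩, ?_, ?_⟩
      · rw [hΦ] at hG
        rw [heW]
        exact hlbf hG.nzf2 le_rfl
      · rw [hΦ] at hG
        exact nzp_dif hΨd hw₀ hvw (by linarith) hG)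
  refine ⟨e₁, he₁, fun K₀ => ?_⟩
  refine Bas.mono 0 (H e₁ he₁ le_rfl (Bas.mono 0 (hlb e₁ he₁) (by
    rintro J - F A ⟨V, z, z', g, hg⟩
    exact ⟨V, z, z', g, lbe_lbx hg, (hg 0 hk).cls⟩)) K₀) ?_
  intro J _ F A H1 V z z' G hG u₀ hu₀
  obtain ⟨Va, za, za', Ga, h1⟩ := hG.2 i' hi'
  have h2 := nzp_symm h1
  rw [hvi, hvi'] at h2
  obtain ⟨V₁, z₁, hz₁, h3⟩ := H1 Va za za' Ga V z z' G (by rw [hΦ]; exact h2) u₀ hu₀
  refine ⟨V₁, z₁, hz₁, fun σ hσ0 hσ => (h3 σ hσ0 hσ).trans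
    (mul_le_mul_of_nonneg_right ?_ (Nat.cast_nonneg J))⟩
  calc ε / B * q ≤ ε / B * (B * u) := mul_le_mul_of_nonneg_left hqB (by positivity)
    _ = ε * u := by field_simp

end Pool.NPZ
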