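import Pool.Agent.H42.D2.Ntb

/-!
# The near path theorem, the value and the natural heights of the chain as hypotheses

`ChX`: two windows; the natural heights of the chain at the later window over the labels of the earlier
one are few bits given the heights before. `ValH`: the value, at one error. `row_npx`: near rows from
exact rows. `path_npx`: the near path theorem.
-/

set_option autoImplicit false

namespace Pool.NPZ

open Finset Real MvPolynomial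
open Pool.Agent.H49.Ent Pool.Agent.H32.Dense Pool.STK Pool.KA Pool.KSAT Pool.K2S Pool.PB Pool.GEN
open Pool.S6C Pool.RCD Pool.LA91 Pool.OWN68 Pool.CHT Pool.AJW
open Pool.GRD (LbP)
open Pool.UNJ (ceI Tub)
open Pool.ALT (DpI f1_jetq)
open Pool.AJX (LbX)

/-- **Two windows** of a chain: the natural heights `s - ρ` of the window `w` over the labels of the
window `v` are `τ J` bits given the heights before to the digits `n`, at accuracy `e`. -/
structure ChX {m : ℕ} (S : PCl m) (c : ℕ → Fin m) (r₀ r : ℕ) (v w lam ρ g₀ e τ : ℝ)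
    (E p s n rd : ℕ → ℝ) : Prop where
  hr : r₀ ≤ r
  v0 : 0 ≤ v
  vw : v ≤ w
  ρ0 : 0 < ρ
  g0 : 0 < g₀
  τ0 : 0 < τ
  wl : w < v + lam
  l1 : v + lam < 1
  E0 : ∀ i, r₀ ≤ i → i < r → 0 ≤ E i ∧ E i ≤ 1
  chn : ∃ (u₁ : ℝ) (rw : ℕ → ℝ), Chn S c r₀ r w w u₁ s rw
  rd0 : ∀ i, r₀ ≤ i → i < r → 0 ≤ rd i ∧ rd i + g₀ ≤ 1
  n1 : ∀ i, r₀ ≤ i → i < r → n i + E i + g₀ ≤ 1
  nn : ∀ i, r₀ ≤ i → i < r → s i - ρ ≤ n i
  hts : ∀ i, r₀ ≤ i → i < r → F1 S (fun J F => ptr F J) (vg w) (fun J (F : Fam m J) ω =>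
        (bI ((range r₀).image c) (v + lam) J F ω, F.W ω))
      (qJets m c r₀ i 0 (fun _ _ => v) (fun l _ => p l) (fun l _ => n l))
      (qJet m ((range i).image c) (c i) 0 v (p i) (s i - ρ)) e τ

variable {m : ℕ} {S : PCl m} {C₀ : ℝ}

theorem ChV.toX (htm : TmC S C₀) {c : ℕ → Fin m} {r₀ r : ℕ} {v w lam ρ g₀ e τ : ℝ}
    {E p s n lv rd : ℕ → ℝ} (H : ChV S c r₀ r v w lam ρ g₀ E p s n lv rd) (he : e ≤ ρ / 8)
    (hτ : 0 < τ) : ChX S c r₀ r v w lam ρ g₀ e τ E p s n rd :=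
  { H with
    τ0 := hτ
    hts := fun i a b => (hts_npv htm H hτ a b).mono he le_rfl }

/-- **The value**: the own height over the labels of the family, to `N` digits, is `h J` bits given the
heights of the chain. -/
def ValH (S : PCl m) (Θ : Fm4 m) (c : ℕ → Fin m) (r₀ r : ℕ) (κ : Fin m) (v w N : ℝ) (n : ℕ → ℝ)
    {α γ : ∀ J : ℕ, Fam m J → Type} (f : ∀ (J : ℕ) (F : Fam m J), F.Ω → α J F)
    (y : ∀ (J : ℕ) (F : Fam m J), F.Ω → γ J F) (h : ℝ) : Prop :=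
  Bas S (fun J F A => ∀ (V : Type) (z : PtT F → V) (z' : LnT F → V)
    (G : V → MvPolynomial (Option (Fin m)) ℝ) (g : V → ℕ → MvPolynomial (Option (Fin m)) ℝ),
    Θ J F A V z z' G g →
    ∃ (V₁ : Type) (z₁ : F.Ω → V₁), Cl2 (f J F) (vg w J F) A z₁ ∧
      CH (Pool.Agent.H49.Ent.cond F.p A True)
        (fun ω => ⌊(2 : ℝ) ^ (N * J) * ojet F κ 0 (G (z' (slam F ⌊v * J⌋₊ ω))) ω⌋)
        (fun ω => (hts F c r₀ r z' ⌊v * J⌋₊ g n ω, (z₁ ω, y J F ω))) ≤ h * J)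

/-- Smaller digits. -/
theorem ValH.le {Θ : Fm4 m} {c : ℕ → Fin m} {r₀ r : ℕ} {κ : Fin m} {v w N N' h h' : ℝ}
    {n : ℕ → ℝ} {α γ : ∀ J : ℕ, Fam m J → Type} {f : ∀ (J : ℕ) (F : Fam m J), F.Ω → α J F}
    {y : ∀ (J : ℕ) (F : Fam m J), F.Ω → γ J F} (H : ValH S Θ c r₀ r κ v w N n f y h)
    (htm : TmC S C₀) (hN : N' ≤ N) (hh : h < h') : ValH S Θ c r₀ r κ v w N' n f y h' := by
  obtain ⟨J₁, hJ₁⟩ := exists_nat_ge (Real.log 5 / (h' - h))
  refine Bas.mono J₁ (H.and (Pool.GRW.tmc_bas htm one_pos)) ?_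
  rintro J hJ F A ⟨h1, hA, -⟩ V z z' G g hTh
  obtain ⟨V₁, z₁, hz₁, h2⟩ := h1 V z z' G g hTh
  refine ⟨V₁, z₁, hz₁, ?_⟩
  have hJ0 : (0 : ℝ) ≤ J := Nat.cast_nonneg J
  have hJ1 : (J₁ : ℝ) ≤ J := by exact_mod_cast hJ
  have f1 : Real.log 5 ≤ (h' - h) * J := by
    have := hJ₁.trans hJ1
    rw [div_le_iff₀ (by linarith)] at this
    linarith
  have hq := isLaw_cond F.isLaw hA
  have h0 := hq.nonneg
  have s1 := CH_le_add h0
    (fun ω => ⌊(2 : ℝ) ^ (N' * J) * ojet F κ 0 (G (z' (slam F ⌊v * J⌋₊ ω))) ω⌋)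
    (fun ω => ⌊(2 : ℝ) ^ (N * J) * ojet F κ 0 (G (z' (slam F ⌊v * J⌋₊ ω))) ω⌋)
    (fun ω => (hts F c r₀ r z' ⌊v * J⌋₊ g n ω, (z₁ ω, y J F ω)))
  have s2 := Pool.RW37.fl_few hq (fun ω => ojet F κ 0 (G (z' (slam F ⌊v * J⌋₊ ω))) ω)
    (a := N) (b := N') hJ0 (fun ω => (hts F c r₀ r z' ⌊v * J⌋₊ g n ω, (z₁ ω, y J F ω)))
  rw [max_eq_right (by linarith)] at s2
  linarith

/-- **The rows over the near heights of the chain.** -/
theorem row_npx (htm : TmC S C₀) {c : ℕ → Fin m} {r₀ r : ℕ} {v w lam ρ g₀ e τ : ℝ}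
    {E p s n rd : ℕ → ℝ} (H : ChX S c r₀ r v w lam ρ g₀ e τ E p s n rd)
    {κ : Fin m} {K : ℕ} {N sa : ℝ} (he : 0 < e) (heg : e ≤ g₀ / 2)
    (hsa : sa ≤ N) {Θ : Fm4 m} (hΘ : NpL Θ c r₀ r K v e E rd p)
    (hval : ValH S Θ c r₀ r κ v w N n (fun J F => ptr F J)
      (fun J (F : Fam m J) ω => (bI ((range r₀).image c) (v + lam) J F ω, F.W ω)) τ) {d : ℝ}
    (hrow : Bas S (fun J F A => ∀ (V : Type) (z : PtT F → V) (z' : LnT F → V)
      (G : V → MvPolynomial (Option (Fin m)) ℝ) (g : V → ℕ → MvPolynomial (Option (Fin m)) ℝ),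
      Θ J F A V z z' G g →
      CH (Pool.Agent.H49.Ent.cond F.p A True)
        (fun ω => ⌊(2 : ℝ) ^ (N * J) * ojet F κ 0 (G (z' (slam F ⌊v * J⌋₊ ω))) ω⌋)
        (fun ω => (⌊(2 : ℝ) ^ (sa * J) * ojet F κ 0 (G (z' (slam F ⌊v * J⌋₊ ω))) ω⌋,
          (ceI ((range r).image c) (fun _ => J) (F.x ω),
            (z' (slam F ⌊v * J⌋₊ ω), F.W ω)))) ≤ d * J)) {δ : ℝ} (hδ : (r + 1) * ρ + 4 * ((r + 1) * τ) ≤ δ) :
    Bas S (fun J F A => ∀ (V : Type) (z : PtT F → V) (z' : LnT F → V)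
      (G : V → MvPolynomial (Option (Fin m)) ℝ) (g : V → ℕ → MvPolynomial (Option (Fin m)) ℝ),
      Θ J F A V z z' G g →
      CH (Pool.Agent.H49.Ent.cond F.p A True)
        (fun ω => ⌊(2 : ℝ) ^ (N * J) * ojet F κ 0 (G (z' (slam F ⌊v * J⌋₊ ω))) ω⌋)
        (fun ω => (⌊(2 : ℝ) ^ (sa * J) * ojet F κ 0 (G (z' (slam F ⌊v * J⌋₊ ω))) ω⌋,
          (z' (slam F ⌊v * J⌋₊ ω), (hts F c r₀ r z' ⌊v * J⌋₊ g n ω,
            (bI ((range r₀).image c) (v + lam) J F ω, F.W ω))))) ≤ (d + δ) * J) := by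
  classical
  obtain ⟨u₁, rw, hch⟩ := H.chn
  have hr := H.hr
  have hρ := H.ρ0
  have hvw := H.vw
  have hwp : w < v + lam := H.wl
  have ho : w ≤ 1 := by linarith [H.l1]
  have hbase := hch.base _ hwp H.l1
  have hful := hch.ful
  have hr0 : (0 : ℝ) ≤ r := Nat.cast_nonneg r
  obtain ⟨Nl, hNl⟩ : ∃ Nl : ℕ → ℝ, Nl = fun i => s i - ρ := ⟨_, rfl⟩
  have hNi : ∀ i, Nl i = s i - ρ := fun i => by rw [hNl]
  have hNn : ∀ i, r₀ ≤ i → i < r → Nl i ≤ n i := fun i a b => by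
    rw [hNi]
    exact H.nn i a b
  have hNs : ∀ i, r₀ ≤ i → i < r → Nl i ≤ s i := fun i _ _ => by
    rw [hNi]
    linarith
  have hsum : (∑ i ∈ Finset.Ico r₀ r, (s i - Nl i)) ≤ r * ρ := by
    have h2 : ∀ i ∈ Finset.Ico r₀ r, s i - Nl i ≤ ρ := by
      intro i _
      rw [hNi]
      linarith
    refine (Finset.sum_le_sum h2).trans ?_
    rw [Finset.sum_const, Nat.card_Ico, nsmul_eq_mul]
    refine mul_le_mul_of_nonneg_right ?_ hρ.le
    exact_mod_cast Nat.sub_le r r₀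
  obtain ⟨δ₂, hδ₂⟩ : ∃ δ₂ : ℝ, δ₂ = τ := ⟨_, rfl⟩
  have hδ₂0 : 0 < δ₂ := by
    rw [hδ₂]
    exact H.τ0
  have hrτ : 0 < (r + 1) * δ₂ := by positivity
  have hδ₂e : (r + 1) * δ₂ ≤ (δ - (r + 1) * ρ) / 4 := by
    rw [hδ₂]
    linarith
  obtain ⟨σ, hσ⟩ : ∃ σ : ℝ, σ = (δ - (r + 1) * ρ) / 4 := ⟨_, rfl⟩
  have hσ0 : 0 < σ := by rw [hσ]; linarith
  obtain ⟨ρ₁, hρ₁⟩ : ∃ ρ₁ : ℝ, ρ₁ = σ / (r + 1) := ⟨_, rfl⟩
  have hρ0 : 0 < ρ₁ := by rw [hρ₁]; positivity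
  have hρr : (r + 1) * ρ₁ = σ := by
    rw [hρ₁]
    field_simp
  have he1 : 0 < e + 1 := by linarith
  obtain ⟨M₁, J₁, hc1⟩ := cnt_jets m K (e := e + 1) (w := v) he1 n (fun i => max (rd i) 0) r
    (fun i _ => le_max_right _ _)
  obtain ⟨M₂, J₂, hc2⟩ := cnt_jets m K (e := e + 1) (w := v) he1 Nl (fun i => max (rd i) 0) r
    (fun i _ => le_max_right _ _)
  have hlogm : 0 ≤ Real.log (m + 1) := Real.log_nonneg (by
    have : (0 : ℝ) ≤ m := Nat.cast_nonneg m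
    linarith)
  have l5 : 0 ≤ Real.log 5 := Real.log_nonneg (by norm_num)
  have l7 : 0 ≤ Real.log 7 := Real.log_nonneg (by norm_num)
  have l9 : 0 ≤ Real.log 9 := Real.log_nonneg (by norm_num)
  have l11 : 0 ≤ Real.log 11 := Real.log_nonneg (by norm_num)
  have hl2 : 0 < Real.log 2 := Real.log_pos one_lt_two
  have hl1 : Real.log 2 ≤ 1 := by
    have := Real.log_two_lt_d9
    linarith
  have hg₀ := H.g0
  have hgap : 0 < g₀ / 2 * Real.log 2 := by positivity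
  obtain ⟨J₃, hJ₃⟩ := exists_nat_ge (Real.log (m + 1) / (g₀ / 2 * Real.log 2) +
    (Real.log 5 + Real.log 9 + Real.log 11 + r * (Real.log 11 + Real.log 7)) / σ)
  have hFa : Bas S (fun J F A => ∀ i, r₀ ≤ i → i < r → ∀ (u : F.Ω → ℕ → ℕ → ℤ) (u' : F.Ω → ℤ),
      (qJets m c r₀ i 0 (fun _ _ => v) (fun l _ => p l) (fun l _ => n l)).P
        (max (max K M₁) M₂) e J F A u →
      (qJet m ((range i).image c) (c i) 0 v (p i) (Nl i)).P (max (max K M₁) M₂) e J F A u' →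
      ∃ (V : Type) (z : F.Ω → V), Cl2 (ptr F J) (vg w J F) A z ∧
        CH (Pool.Agent.H49.Ent.cond F.p A True) u'
          (fun ω => (u ω, (z ω, (bI ((range r₀).image c) (v + lam) J F ω, F.W ω)))) ≤
            δ₂ * J) := by
    have key : ∀ R ≤ r, Bas S (fun J F A => ∀ i, r₀ ≤ i → i < R →
        ∀ (u : F.Ω → ℕ → ℕ → ℤ) (u' : F.Ω → ℤ),
        (qJets m c r₀ i 0 (fun _ _ => v) (fun l _ => p l) (fun l _ => n l)).P
          (max (max K M₁) M₂) e J F A u →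
        (qJet m ((range i).image c) (c i) 0 v (p i) (Nl i)).P (max (max K M₁) M₂) e J F A u' →
        ∃ (V : Type) (z : F.Ω → V), Cl2 (ptr F J) (vg w J F) A z ∧
          CH (Pool.Agent.H49.Ent.cond F.p A True) u'
            (fun ω => (u ω, (z ω, (bI ((range r₀).image c) (v + lam) J F ω, F.W ω)))) ≤
              δ₂ * J) := by
      intro R
      induction R with
      | zero =>
        intro _
        exact ⟨1, one_pos, 0, fun J _ F A _ i _ hi => absurd hi (Nat.not_lt_zero i)⟩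
      | succ R ih =>
        intro hR
        have h1 := ih (by omega)
        by_cases hR0 : r₀ ≤ R
        · refine Bas.mono 0 (h1.and (H.hts R hR0 (by omega) (max (max K M₁) M₂))) ?_
          rintro J - F A ⟨h2, h3⟩ i hi0 hi
          rcases Nat.lt_or_ge i R with h4 | h4
          · exact h2 i hi0 h4
          · obtain rfl : i = R := by omega
            rw [hNi, hδ₂]
            exact h3
        · refine Bas.mono 0 h1 ?_
          intro J _ F A h2 i hi0 hi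
          exact absurd hi0 (by omega)
    exact key r le_rfl
  rw [ValH, ← hδ₂] at hval
  refine Bas.mono (max (max J₁ J₂) J₃) (((hrow.and (hbase ρ₁ hρ0)).and
    (hful ρ₁ hρ0)).and ((hFa.and hval).and (Pool.GRW.tmc_bas htm one_pos))) ?_
  rintro J hJ F A ⟨⟨⟨hraw, hB⟩, hC⟩, ⟨hH, hV⟩, hA, -⟩ V z z' G g hTh
  obtain ⟨hlb, hcls⟩ := hΘ J F A V z z' G g hTh
  have hraw := hraw V z z' G g hTh
  obtain ⟨Vv, zv, hzv, hV⟩ := hV V z z' G g hTh
  have hJ1 : J₁ ≤ J := (le_max_left _ _).trans ((le_max_left _ _).trans hJ)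
  have hJ2 : J₂ ≤ J := (le_max_right _ _).trans ((le_max_left _ _).trans hJ)
  have hJ3 : (J₃ : ℝ) ≤ J := by exact_mod_cast (le_max_right _ _).trans hJ
  have hJ0 : (0 : ℝ) ≤ J := Nat.cast_nonneg J
  have t1 : 0 ≤ Real.log (m + 1) / (g₀ / 2 * Real.log 2) := by positivity
  have t2 : 0 ≤ (Real.log 5 + Real.log 9 + Real.log 11 + r * (Real.log 11 + Real.log 7)) /
    σ := by positivity
  have f1 : Real.log (m + 1) ≤ g₀ / 2 * Real.log 2 * J := by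
    have : Real.log (m + 1) / (g₀ / 2 * Real.log 2) ≤ J := by linarith
    rw [div_le_iff₀ hgap] at this
    linarith
  have f2 : Real.log 5 + Real.log 9 + Real.log 11 + r * (Real.log 11 + Real.log 7) ≤
      σ * J := by
    have : (Real.log 5 + Real.log 9 + Real.log 11 + r * (Real.log 11 + Real.log 7)) /
      σ ≤ J := by linarith
    rw [div_le_iff₀ hσ0] at this
    linarith
  have f1' : ∀ N D : ℝ, N + D + g₀ ≤ 1 →
      Real.log (m + 1) ≤ (1 - N - (D + e)) * Real.log 2 * J := by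
    intro N D hN
    refine f1.trans (mul_le_mul_of_nonneg_right ?_ hJ0)
    exact mul_le_mul_of_nonneg_right (by linarith) hl2.le
  obtain ⟨q', hq'⟩ : ∃ q' : F.Ω → ℝ, q' = Pool.Agent.H49.Ent.cond F.p A True := ⟨_, rfl⟩
  have hq'l : IsLaw q' := by
    rw [hq']
    exact isLaw_cond F.isLaw hA
  have h0 := hq'l.nonneg
  have hq'A : ∀ ω, 0 < q' ω → A ω := fun ω hω => by
    rw [hq'] at hω
    exact of_cond_pos hω
  rw [← hq'] at hraw hV ⊢
  have hrJ : ∀ i, r₀ ≤ i → i < r → ⌊(rd i + e) * J⌋₊ ≤ J := by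
    intro i hi0 hi
    refine Nat.floor_le_of_le ?_
    have h1 := (H.rd0 i hi0 hi).2
    have : (rd i + e) * J ≤ 1 * J := mul_le_mul_of_nonneg_right (by linarith) hJ0
    linarith
  have hmx : ∀ i, r₀ ≤ i → i < r → max (rd i) 0 = rd i := fun i hi0 hi =>
    max_eq_left (H.rd0 i hi0 hi).1
  have hUJ : ⌊(v + lam) * J⌋₊ ≤ J := floor_le H.l1.le J
  -- the quantities
  have hQ : ∀ i, r₀ ≤ i → i < r →
      (qJets m c r₀ i 0 (fun _ _ => v) (fun l _ => p l) (fun l _ => n l)).P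
        (max (max K M₁) M₂) e J F A
        (fun ω i' j' => if j' = 0 then hts F c r₀ i z' ⌊v * J⌋₊ g n ω i' else 0) := by
    intro i hi0 hi
    refine (qJets m c r₀ i 0 _ _ _).mono (le_max_left _ _) le_rfl
      (Pool.AJX.qJets_htx (R := r) hi.le hlb fun l hl0 hl => ?_)
    exact hc1 l (by omega) J hJ1 F _ _ _ A V z z' (fun v => g v l) (by
      rw [hmx l hl0 (by omega)]
      exact hlb.wk hl0 (by omega) (H.E0 l hl0 (by omega)).2)
  have hQ' : ∀ i, r₀ ≤ i → i < r →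
      (qJet m ((range i).image c) (c i) 0 v (p i) (Nl i)).P (max (max K M₁) M₂) e J F A
        (fun ω => ⌊(2 : ℝ) ^ (Nl i * J) * hgt F (c i) z' ⌊v * J⌋₊ (fun v => g v i) ω⌋) := by
    intro i hi0 hi
    refine ⟨?_, V, z, z', fun v => g v i, ?_, fun ω _ => rfl⟩
    · have h2 := hc2 i hi J hJ2 F _ _ _ A V z z' (fun v => g v i) (by
        rw [hmx i hi0 hi]
        exact hlb.wk hi0 hi (H.E0 i hi0 hi).2)
      refine h2.trans (Real.exp_le_exp.2 (mul_le_mul_of_nonneg_right ?_ hJ0))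
      exact_mod_cast le_max_right _ _
    · exact (LbP.of (hlb i hi0 hi)).mono (Finset.Subset.refl _)
        ((le_max_left _ _).trans (le_max_left _ _)) le_rfl
  have hza : ∀ i, ∃ (V₁ : Type) (z₁ : F.Ω → V₁), Cl2 (ptr F J) (vg w J F) A z₁ ∧
      (r₀ ≤ i → i < r → CH q' (fun ω => ⌊(2 : ℝ) ^ (Nl i * J) *
          hgt F (c i) z' ⌊v * J⌋₊ (fun v => g v i) ω⌋)
        (fun ω => ((fun i' j' => if j' = 0 then hts F c r₀ i z' ⌊v * J⌋₊ g n ω i' else 0 :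
          ℕ → ℕ → ℤ), (z₁ ω, (bI ((range r₀).image c) (v + lam) J F ω, F.W ω)))) ≤ δ₂ * J) := by
    intro i
    by_cases hi : r₀ ≤ i ∧ i < r
    · obtain ⟨V₁, z₁, hz₁, h1⟩ := hH i hi.1 hi.2 _ _ (hQ i hi.1 hi.2) (hQ' i hi.1 hi.2)
      rw [← hq'] at h1
      exact ⟨V₁, z₁, hz₁, fun _ _ => h1⟩
    · exact ⟨Unit, fun _ => (), ⟨⟨fun _ => (), fun _ _ => rfl⟩, fun _ => (), fun _ _ => rfl⟩,
        fun a b => absurd ⟨a, b⟩ hi⟩
  choose V₁ z₁ hz₁ hH₁ using hza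
  obtain ⟨⟨φa, hφa⟩, ψa, hψa⟩ := (Cl2.pi hz₁).join hzv
  obtain ⟨φg, hφg⟩ := vg_mono hvw ho J F
  -- the code at the ball
  have hza0 : ∀ ω, A ω → (((fun i => z₁ i ω), zv ω), z' (slam F ⌊v * J⌋₊ ω)) =
      ((fun s => (ψa s, z' (φg s))) (slam F ⌊w * J⌋₊ ω)) := by
    intro ω hω
    have e1 : vg w J F ω = slam F ⌊w * J⌋₊ ω := rfl
    have e2 := hφg ω
    rw [e1] at e2
    refine Prod.ext ?_ ?_
    · show ((fun i => z₁ i ω), zv ω) = ψa (slam F ⌊w * J⌋₊ ω)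
      rw [← e1]
      exact hψa ω hω
    · show z' (slam F ⌊v * J⌋₊ ω) = z' (φg (slam F ⌊w * J⌋₊ ω))
      rw [← e2]
      rfl
  have hcode : ∀ ω, A ω → (fun x => (φa x, z x)) (ptr F J ω) =
      (fun s => (ψa s, z' (φg s))) (slam F ⌊w * J⌋₊ ω) := by
    intro ω hω
    rw [← hza0 ω hω]
    refine Prod.ext ?_ ?_
    · exact (hφa ω hω).symm
    · exact hcls ω hω
  have hful₀ := hB _ (fun x => (φa x, z x)) (fun s => (ψa s, z' (φg s))) hcode
  have hfulC := hC _ (fun x => (φa x, z x)) (fun s => (ψa s, z' (φg s))) hcode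
  rw [← hq'] at hful₀ hfulC
  -- abbreviations
  obtain ⟨Z, hZ⟩ : ∃ Z : F.Ω → V, Z = fun ω => z' (slam F ⌊v * J⌋₊ ω) := ⟨_, rfl⟩
  obtain ⟨B, hBd⟩ : ∃ B : F.Ω → Fin m → ℤ, B = bI ((range r₀).image c) (v + lam) J F := ⟨_, rfl⟩
  obtain ⟨za, hzad⟩ : ∃ za : F.Ω → (∀ i, V₁ i) × Vv, za = fun ω => ((fun i => z₁ i ω), zv ω) :=
    ⟨_, rfl⟩
  have hcd : ∀ ω ω', 0 < q' ω → 0 < q' ω' → (fun s => (ψa s, z' (φg s))) (slam F ⌊w * J⌋₊ ω) =
      (fun s => (ψa s, z' (φg s))) (slam F ⌊w * J⌋₊ ω') → (za ω, Z ω) = (za ω', Z ω') := by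
    intro ω ω' hω hω' e
    rw [← hza0 ω (hq'A ω hω), ← hza0 ω' (hq'A ω' hω')] at e
    rw [hzad, hZ]
    exact e
  have hLJ : J * Real.log 2 ≤ J := by
    calc (J : ℝ) * Real.log 2 ≤ J * 1 := mul_le_mul_of_nonneg_left hl1 hJ0
      _ = J := mul_one _
  have hJ02 : 0 ≤ J * Real.log 2 := by positivity
  have core := nfc_core h0 hr (fun l ω => F.X J ω (c l))
    (fun ω => ⌊(2 : ℝ) ^ (N * J) * ojet F κ 0 (G (z' (slam F ⌊v * J⌋₊ ω))) ω⌋)
    (fun ω => ⌊(2 : ℝ) ^ (sa * J) * ojet F κ 0 (G (z' (slam F ⌊v * J⌋₊ ω))) ω⌋)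
    Z za (fun ω => hts F c r₀ r z' ⌊v * J⌋₊ g n ω) B F.W
    (E := d * J)
    (D₀ := ((range r₀).image c).card * (((J - ⌊(v + lam) * J⌋₊ : ℕ) : ℝ) * Real.log 2))
    (ρ' := ρ₁ * J) (dH := δ₂ * J) (l := Real.log 5)
    (a := fun i => (1 - n i) * (J * Real.log 2) + Real.log 11)
    (b := fun i => ((1 - s i) - ρ₁) * (J * Real.log 2))
    (d := fun i => δ₂ * J + ((n i - Nl i) * (J * Real.log 2) + Real.log 7))
    ?_ ?_ ?_ ?_ ?_ ?_ ?_ ?_ ?_
  · have har := nfc_arith (a := r₀) (b := r) hJ02 hLJ hρ0.le hδ₂0.le l11 l7 (n := n) (s := s)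
      (N := Nl) hNs
    have e1 : (fun ω => (⌊(2 : ℝ) ^ (sa * J) * ojet F κ 0 (G (z' (slam F ⌊v * J⌋₊ ω))) ω⌋, (Z ω,
          (hts F c r₀ r z' ⌊v * J⌋₊ g n ω, (B ω, F.W ω))))) =
        (fun ω => (⌊(2 : ℝ) ^ (sa * J) * ojet F κ 0 (G (z' (slam F ⌊v * J⌋₊ ω))) ω⌋,
          (z' (slam F ⌊v * J⌋₊ ω), (hts F c r₀ r z' ⌊v * J⌋₊ g n ω,
            (bI ((range r₀).image c) (v + lam) J F ω, F.W ω))))) := by
      rw [hZ, hBd]
    rw [e1] at core
    refine core.trans ?_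
    have e3 : (d + δ) * J = d * J + (4 * σ * J + (r + 1) * ρ * J) := by
      rw [hσ]
      ring
    have e4 : (r + 1) * ρ₁ * J = σ * J := by rw [hρr]
    have e5 : (r + 1) * δ₂ * J ≤ σ * J := by
      rw [hσ]
      exact mul_le_mul_of_nonneg_right hδ₂e hJ0
    have e6 := mul_le_mul_of_nonneg_right hsum hJ0
    have e7 : 0 ≤ ρ * J := by positivity
    have e8 : 0 ≤ σ * J := by positivity
    rw [e3]
    linarith
  · -- the exact point
    refine le_trans (CH_mono_cond h0 fun ω ω' _ _ e => ?_) hraw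
    simp only [Prod.mk.injEq] at e ⊢
    obtain ⟨e1, e2, e3, e4, e5, e6⟩ := e
    rw [hZ] at e3
    exact ⟨e2, ceI_tup le_rfl fun l hl => congrFun e1 ⟨l, hl⟩, e3, e6⟩
  · -- the base, from above
    refine le_trans (CH_mono_left h0 (X' := fun ω => ceI ((range r₀).image c) (fun _ => J)
      (F.x ω)) fun ω ω' _ _ e => ?_) (le_trans (CH_mono_cond h0 fun ω ω' _ _ e => ?_)
      (ceI_cnt hq'l _ hUJ))
    · have e1 := (Prod.ext_iff.mp e).1
      exact funext fun l => tup_ceI e1 l.2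
    · simp only [Prod.mk.injEq] at e
      obtain ⟨-, -, -, e4, -⟩ := e
      rw [hBd] at e4
      exact e4
  · -- the chain, from above
    intro i hi0 hi
    have h1 := own_cnt (e := E i + e) (hlb i hi0 hi) (hrJ i hi0 hi)
      (by linarith [(H.E0 i hi0 hi).1]) (q' := q') (N := n i)
      (by linarith [H.n1 i hi0 hi, (H.E0 i hi0 hi).1]) (f1' _ _ (H.n1 i hi0 hi)) hq'l hq'A
    refine le_trans (CH_mono_cond h0 fun ω ω' _ _ e => ?_) (h1.trans (le_of_eq (by ring)))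
    simp only [Prod.mk.injEq] at e ⊢
    obtain ⟨e1, e2, e3, e4, e5, e6⟩ := e
    rw [hZ] at e3
    have e7 := congrFun e4 i
    unfold hts at e7
    rw [if_pos ⟨hi0, hi⟩, if_pos ⟨hi0, hi⟩] at e7
    exact ⟨e7, ceI_tup le_rfl fun l hl => congrFun e1 ⟨l, hl⟩, e3, e6⟩
  · -- the base, from below
    refine hful₀.trans ((CH_mono_left h0 (X' := fun ω (l : Fin r₀) => F.X J ω (c l))
      fun ω ω' _ _ e => ?_).trans (CH_mono_cond h0 fun ω ω' hω hω' e => ?_))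
    · exact ceI_tup le_rfl fun l hl => congrFun (Prod.ext_iff.mp e).1 ⟨l, hl⟩
    · simp only [Prod.mk.injEq] at e ⊢
      obtain ⟨e1, e2, e3⟩ := e
      have e4 := hcd ω ω' hω hω' (Prod.ext e2.1 e2.2)
      rw [Prod.mk.injEq] at e4
      rw [hBd]
      exact ⟨e1, e4, e3⟩
  · -- the chain, from below
    intro i hi0 hi
    refine le_trans (le_of_eq ?_) ((hfulC i hi0 hi).trans
      (CH_mono_cond h0 fun ω ω' hω hω' e => ?_))
    · ring
    · simp only [Prod.mk.injEq] at e ⊢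
      obtain ⟨e1, e2, e3⟩ := e
      have e4 := hcd ω ω' hω hω' (Prod.ext e2.1 e2.2)
      rw [Prod.mk.injEq] at e4
      rw [hBd]
      exact ⟨e1, ceI_tup hUJ fun l hl => congrFun e1 ⟨l, by omega⟩, e4, e3⟩
  · intro ω i hi
    unfold hts
    rw [if_neg hi]
  · -- the heights
    intro i hi0 hi
    have h1 := hH₁ i hi0 hi
    have h2 := hgt_cnt hq'l (fun ω => hgt F (c i) z' ⌊v * J⌋₊ (fun v => g v i) ω) J
      (hNn i hi0 hi) (fun ω => ((fun l : Fin i => hts F c r₀ r z' ⌊v * J⌋₊ g n ω l),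
        (B ω, ((za ω, Z ω), F.W ω))))
    have h3 := CH_le_add h0
      (fun ω => ⌊(2 : ℝ) ^ (n i * J) * hgt F (c i) z' ⌊v * J⌋₊ (fun v => g v i) ω⌋)
      (fun ω => ⌊(2 : ℝ) ^ (Nl i * J) * hgt F (c i) z' ⌊v * J⌋₊ (fun v => g v i) ω⌋)
      (fun ω => ((fun l : Fin i => hts F c r₀ r z' ⌊v * J⌋₊ g n ω l),
        (B ω, ((za ω, Z ω), F.W ω))))
    have h4 : CH q'
        (fun ω => ⌊(2 : ℝ) ^ (Nl i * J) * hgt F (c i) z' ⌊v * J⌋₊ (fun v => g v i) ω⌋)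
        (fun ω => ((fun l : Fin i => hts F c r₀ r z' ⌊v * J⌋₊ g n ω l),
          (B ω, ((za ω, Z ω), F.W ω)))) ≤ δ₂ * J := by
      refine le_trans (CH_mono_cond h0 fun ω ω' _ _ e => ?_) h1
      simp only [Prod.mk.injEq] at e ⊢
      obtain ⟨e1, e2, ⟨e3, e4⟩, e5⟩ := e
      rw [hBd] at e2
      rw [hzad] at e3
      refine ⟨funext fun i' => funext fun j' => ?_, congrFun (Prod.ext_iff.mp e3).1 i, e2, e5⟩
      by_cases hj : j' = 0
      · rw [if_pos hj, if_pos hj]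
        unfold hts
        by_cases hi' : r₀ ≤ i' ∧ i' < i
        · have e6 := congrFun e1 ⟨i', hi'.2⟩
          unfold hts at e6
          rw [if_pos ⟨hi'.1, hi'.2.trans hi⟩, if_pos ⟨hi'.1, hi'.2.trans hi⟩] at e6
          rw [if_pos hi', if_pos hi']
          exact e6
        · rw [if_neg hi', if_neg hi']
      · rw [if_neg hj, if_neg hj]
    have h5 : (fun ω => hts F c r₀ r z' ⌊v * J⌋₊ g n ω i) =
        (fun ω => ⌊(2 : ℝ) ^ (n i * J) * hgt F (c i) z' ⌊v * J⌋₊ (fun v => g v i) ω⌋) := by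
      funext ω
      unfold hts
      rw [if_pos ⟨hi0, hi⟩]
    rw [h5]
    have h6 : (n i - Nl i) * J * Real.log 2 = (n i - Nl i) * (J * Real.log 2) := by ring
    rw [h6] at h2
    linarith only [h2, h3, h4]
  · -- the height of the coordinate
    refine le_trans (CH_mono_cond h0 fun ω ω' _ _ e => ?_) hV
    simp only [Prod.mk.injEq] at e ⊢
    obtain ⟨e1, e2, ⟨e3, e4⟩, e5⟩ := e
    rw [hBd] at e2
    rw [hzad] at e3
    refine ⟨funext fun i' => ?_, (Prod.ext_iff.mp e3).2, e2, e5⟩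
    by_cases hi' : i' < r
    · exact congrFun e1 ⟨i', hi'⟩
    · unfold hts
      rw [if_neg fun h => hi' h.2, if_neg fun h => hi' h.2]
  · have e5 : (5 : ℝ) = 2 * ((2 : ℕ) : ℝ) + 1 := by norm_num
    rw [e5]
    refine CH_pair hq'l _ _ fun ω ω' hω hω' e => ?_
    have g1 := fl_one_mul (Real.rpow_pos_of_pos (by norm_num) _) e
    refine floor_sub_le (D := 1) ?_
    rw [← mul_sub, abs_mul, abs_of_pos (Real.rpow_pos_of_pos (by norm_num) _)]
    rw [abs_mul, abs_of_pos (Real.rpow_pos_of_pos (by norm_num) _)] at g1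
    push_cast
    refine (mul_le_mul_of_nonneg_right ?_ (abs_nonneg _)).trans g1
    refine Real.rpow_le_rpow_of_exponent_le (by norm_num) ?_
    exact mul_le_mul_of_nonneg_right hsa hJ0

end Pool.NPZ
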