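import Pool.Agent.H42.V0B.Nxb
import Pool.Agent.H42.VG.Cdn

/-!
# The jets and the codes of the own path over labels of a family

`NpX`: the hypotheses of `path_npx`; `jets_npx`, `cod_npx`.
-/

set_option autoImplicit false

namespace Pool.NPZ

open Finset Real MvPolynomial
open Pool.Agent.H49.Ent Pool.Agent.H32.Dense Pool.STK Pool.KA Pool.KSAT Pool.K2S Pool.PB Pool.GEN
open Pool.S6C Pool.RCD Pool.LA91 Pool.OWN68 Pool.CHT Pool.AJW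
open Pool.GRD (LbP)
open Pool.UNJ (ceI Tub)
open Pool.ALT (DpI)
open Pool.AJX (LbX FwX)
open Pool.AVG71 (cod_few)

/-- **The hypotheses of the near path theorem** with a value, the labels of the
target less precise than those of the chain: degree `K` of the labels of the path,
deficit `h`, error `δ q` of the rows. -/
structure NpX (K : ℕ) (h δ : ℝ) {m : ℕ} (S : PCl m) (c : ℕ → Fin m) (r₀ r : ℕ)
    (v w lam ρ g₀ e τ : ℝ) (E pc s n rd : ℕ → ℝ) (κ : Fin m) (I : Finset (Fin m)) (Kc : ℕ)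
    (P pN q d rG eG a : ℝ) (Θ : Fm4 m) : Prop where
  ch : ChX S c r₀ r v w lam ρ g₀ e τ E pc s n rd
  e0 : 0 < e
  eg : e ≤ g₀ / 2
  pNP : pN < P
  Pδ : P - pN ≤ δ * q / 8
  q0 : 0 < q
  vq : v + q ≤ 1
  wa : w ≤ a
  a1 : a ≤ 1
  rG0 : 0 ≤ rG
  eG0 : 0 < eG
  dd : d + (r + 1) * ρ + 8 * ((r + 1) * τ) ≤ δ * q / 2
  npl : NpL Θ c r₀ r Kc v e E rd pc
  val : ValH S Θ c r₀ r κ v w (P + q) n (fun J F => ptr F J)
    (fun J (F : Fam m J) ω => (bI ((range r₀).image c) (v + lam) J F ω, F.W ω)) τ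
  lb : ∀ (J : ℕ) (F : Fam m J) (A : F.Ω → Prop) (V : Type) (z : PtT F → V) (z' : LnT F → V)
    (G : V → MvPolynomial (Option (Fin m)) ℝ) (g : V → ℕ → MvPolynomial (Option (Fin m)) ℝ),
    Θ J F A V z z' G g →
    LbOK F I κ K ⌊eG * J⌋₊ J ⌊v * J⌋₊ ⌊(rG + eG) * J⌋₊ ⌊pN * J⌋₊ A z z' G
  hs : ∀ (J : ℕ) (F : Fam m J) (A B : F.Ω → Prop) (V : Type) (z : PtT F → V) (z' : LnT F → V)
    (G : V → MvPolynomial (Option (Fin m)) ℝ) (g : V → ℕ → MvPolynomial (Option (Fin m)) ℝ),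
    Sub B A → Θ J F A V z z' G g → Θ J F B V z z' G g
  row : ∀ sa sb : ℝ, P ≤ sa → sa ≤ sb → sb ≤ P + q →
    Bas S (fun J F A => ∀ (V : Type) (z : PtT F → V) (z' : LnT F → V)
    (G : V → MvPolynomial (Option (Fin m)) ℝ) (g : V → ℕ → MvPolynomial (Option (Fin m)) ℝ),
    Θ J F A V z z' G g →
    CH (Pool.Agent.H49.Ent.cond F.p A True)
      (fun ω => ⌊(2 : ℝ) ^ (sb * J) * ojet F κ 0 (G (z' (slam F ⌊v * J⌋₊ ω))) ω⌋)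
      (fun ω => (⌊(2 : ℝ) ^ (sa * J) * ojet F κ 0 (G (z' (slam F ⌊v * J⌋₊ ω))) ω⌋,
        (ceI ((range r).image c) (fun _ => J) (F.x ω),
          (z' (slam F ⌊v * J⌋₊ ω), F.W ω)))) ≤
      ((1 - h) * (sb - sa) * Real.log 2 + d) * J)

/-- **All jets of the own path** over the labels of the family. -/
theorem jets_npx (K : ℕ) {h : ℝ} (hh : 0 < h) (hh1 : h ≤ 1) {ε : ℝ} (hε : 0 < ε) :
    ∃ δ : ℝ, 0 < δ ∧ ∀ {m : ℕ} {S : PCl m} {C₀ : ℝ} (_ : TmC S C₀) {c : ℕ → Fin m} {r₀ r : ℕ}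
    {v w lam ρ g₀ e τ : ℝ} {E pc s n rd : ℕ → ℝ} {κ : Fin m} {I : Finset (Fin m)} {Kc : ℕ}
    {P pN q d rG eG a : ℝ} {Θ : Fm4 m}
    (_ : NpX K h δ S c r₀ r v w lam ρ g₀ e τ E pc s n rd κ I Kc P pN q d rG eG a Θ)
    {U₀ : Type} {Qu : Qt m U₀} {α γ : ∀ J : ℕ, Fam m J → Type}
    {f : ∀ (J : ℕ) (F : Fam m J), F.Ω → α J F} {y : ∀ (J : ℕ) (F : Fam m J), F.Ω → γ J F}
    (_ : ∀ (J : ℕ) (F : Fam m J), ∃ φ : α J F → PtT F, ∀ ω, ptr F J ω = φ (f J F ω))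
    (_ : Kn0 ((range r₀).image c) (v + lam) y)
    (_ : ValH S Θ c r₀ r κ v w (P + q) n f y (δ * q / 4))
    (eQ : ℝ)
    (_ : ∀ K₀ : ℕ, Bas S (fun J F A => ∀ (V : Type) (z : PtT F → V) (z' : LnT F → V)
      (G : V → MvPolynomial (Option (Fin m)) ℝ) (g : V → ℕ → MvPolynomial (Option (Fin m)) ℝ),
      Θ J F A V z z' G g → ∀ u₀ : F.Ω → U₀, Qu.P K₀ eQ J F A u₀ →
      ∃ (V₁ : Type) (z₁ : F.Ω → V₁), Cl2 (f J F) (vg a J F) A z₁ ∧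
        CH (Pool.Agent.H49.Ent.cond F.p A True) (ctx c r₀ r Kc v lam n J F V z' g)
          (fun ω => (u₀ ω, (z₁ ω, y J F ω))) ≤ δ * q / 4 * J)),
    ∀ K₀ : ℕ, Bas S (fun J F A => ∀ (V : Type) (z : PtT F → V) (z' : LnT F → V)
      (G : V → MvPolynomial (Option (Fin m)) ℝ) (g : V → ℕ → MvPolynomial (Option (Fin m)) ℝ),
      Θ J F A V z z' G g → ∀ u₀ : F.Ω → U₀, Qu.P K₀ eQ J F A u₀ →
      ∃ (V₁ : Type) (z₁ : F.Ω → V₁), Cl2 (f J F) (vg a J F) A z₁ ∧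
        CH (Pool.Agent.H49.Ent.cond F.p A True) (ojs F κ v (P + q) z' G (K + 2))
          (fun ω => (u₀ ω, (z₁ ω, y J F ω))) ≤ ε * q * J) := by
  classical
  obtain ⟨δ, hδ, Hp⟩ := path_npx K hh hh1 (half_pos hε)
  refine ⟨δ, hδ, ?_⟩
  intro m S C₀ htm c r₀ r v w lam ρ g₀ e τ E pc s n rd κ I Kc P pN q d rG eG a Θ H U₀ Qu
    α γ f y hf hy hvy eQ hctx K₀
  have hq := H.q0
  have hv0 := H.ch.v0
  have hv1 : v ≤ 1 := by linarith [H.vq]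
  have hyT : ∀ (J : ℕ) (F : Fam m J), ∃ φ : γ J F → ℕ, ∀ ω, F.T ω = φ (y J F ω) := by
    intro J F
    obtain ⟨φ, hφ⟩ := hy J F
    exact ⟨fun x => (φ x).1, fun ω => (congrArg Prod.fst (hφ ω)).symm⟩
  choose M hM using fun j : ℕ => jet_path (K + 2) j
  obtain ⟨C₁, hC₁⟩ : ∃ C₁ : ℝ, C₁ = ∑ j : Fin (K + 2), Real.log (2 * M j + 1) := ⟨_, rfl⟩
  obtain ⟨J₁, hJ₁⟩ := exists_nat_ge (C₁ / (ε / 2 * q))
  refine Bas.mono J₁ ((Hp htm H.ch H.e0 H.eg H.pNP H.Pδ H.q0 H.vq H.wa H.a1 H.rG0 H.eG0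
    H.dd H.npl H.val H.lb H.hs H.row hf hy hvy eQ hctx K₀).and (Pool.GRW.tmc_bas htm one_pos)) ?_
  rintro J hJ F A ⟨h1, hA, -⟩ V z z' G g hg u₀ hu₀
  have hJ0 : (0 : ℝ) ≤ J := Nat.cast_nonneg J
  have f1 : C₁ ≤ ε / 2 * q * J := by
    have e1 : (J₁ : ℝ) ≤ J := by exact_mod_cast hJ
    have e2 := hJ₁.trans e1
    rw [div_le_iff₀ (by positivity)] at e2
    linarith
  obtain ⟨V₁, z₁, hz₁, h2⟩ := h1 V z z' G g hg u₀ hu₀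
  refine ⟨V₁, z₁, hz₁, ?_⟩
  obtain ⟨q', hq'⟩ : ∃ q' : F.Ω → ℝ, q' = Pool.Agent.H49.Ent.cond F.p A True := ⟨_, rfl⟩
  have hq'l : IsLaw q' := by
    rw [hq']
    exact isLaw_cond F.isLaw hA
  have h0 := hq'l.nonneg
  rw [← hq'] at h2 ⊢
  obtain ⟨X, hX⟩ : ∃ X : F.Ω → (V × (F.ζ × ℕ)) × (((Fin m → ℤ × ℤ) × (ℕ → ℕ → ℤ)) ×
      (Fin (K + 3) → ℤ)), X = fun ω => ((z' (vg v J F ω), (vg v J F ω).2),
        (ctx c r₀ r Kc v lam n J F V z' g ω,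
        fun j : Fin (K + 3) => ⌊jr F ⌊v * J⌋₊ (2 ^ ((P + q) * J)) κ z' G j (vg v J F ω)⌋)) :=
    ⟨_, rfl⟩
  rw [← hX] at h2
  obtain ⟨Y, hY⟩ : ∃ Y : F.Ω → U₀ × (V₁ × γ J F), Y = fun ω => (u₀ ω, (z₁ ω, y J F ω)) := ⟨_, rfl⟩
  rw [← hY] at h2 ⊢
  -- the jets
  obtain ⟨Jt, hJt⟩ : ∃ Jt : F.Ω → Fin (K + 2) → ℤ, Jt = ojs F κ v (P + q) z' G (K + 2) :=
    ⟨_, rfl⟩
  rw [← hJt]
  have s2 := CH_le_add h0 Jt X Y
  have s3 : CH q' Jt (fun ω => (X ω, Y ω)) ≤ ∑ j : Fin (K + 2), Real.log (2 * M j + 1) := by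
    refine Pool.OWN83.ch_vecs h0 _ (K + 2) Jt (fun j => Real.log (2 * M j + 1)) fun j => ?_
    have e0 : (fun ω => Jt ω j) = fun ω => ⌊(2 : ℝ) ^ ((P + q - ((j : ℕ) : ℝ) * v) * J) *
        ojet F κ (j : ℕ) (G (z' (slam F ⌊v * J⌋₊ ω))) ω⌋ := by
      rw [hJt]
      rfl
    rw [e0]
    refine hM (j : ℕ) hv0 (floor_le hv1 J) (s := P + q) (κ := κ) (z' := z') (G := G) (fun x => by
      have h3 := (H.lb J F A V z z' G g hg).deg x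
      refine (MvPolynomial.totalDegree_sub _ _).trans (max_le ?_ (h3.trans (by omega)))
      exact (totalDegree_X _).le.trans (by omega)) hq'l (fun ω => (X ω, Y ω)) (fun ω ω' _ _ e => by
      obtain ⟨φT, hφT⟩ := hyT J F
      have e1 := (Prod.ext_iff.mp e).1
      have e2 := (Prod.ext_iff.mp e).2
      rw [hX] at e1
      rw [hY] at e2
      simp only [Prod.mk.injEq] at e1 e2
      refine ⟨by rw [hφT, hφT, e2.2.2], fun i hi => ?_⟩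
      exact congrFun e1.2.2 ⟨i, by omega⟩)
  have e3 : ε * q * J = ε / 2 * q * J + ε / 2 * q * J := by ring
  linarith

/-- **All codes of the own path** over the labels of the family. -/
theorem cod_npx (K : ℕ) {h : ℝ} (hh : 0 < h) (hh1 : h ≤ 1) {ε : ℝ} (hε : 0 < ε) :
    ∃ δ : ℝ, 0 < δ ∧ ∀ {m : ℕ} {S : PCl m} {C₀ : ℝ} (_ : TmC S C₀) {c : ℕ → Fin m} {r₀ r : ℕ}
    {v w lam ρ g₀ e τ : ℝ} {E pc s n rd : ℕ → ℝ} {κ : Fin m} {I : Finset (Fin m)} {Kc : ℕ}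
    {P pN q d rG eG a : ℝ} {Θ : Fm4 m}
    (_ : NpX K h δ S c r₀ r v w lam ρ g₀ e τ E pc s n rd κ I Kc P pN q d rG eG a Θ)
    {U₀ : Type} {Qu : Qt m U₀} {α γ : ∀ J : ℕ, Fam m J → Type}
    {f : ∀ (J : ℕ) (F : Fam m J), F.Ω → α J F} {y : ∀ (J : ℕ) (F : Fam m J), F.Ω → γ J F}
    (_ : ∀ (J : ℕ) (F : Fam m J), ∃ φ : α J F → PtT F, ∀ ω, ptr F J ω = φ (f J F ω))
    (_ : Kn0 ((range r₀).image c) (v + lam) y)
    (_ : ValH S Θ c r₀ r κ v w (P + q) n f y (δ * q / 4))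
    (eQ : ℝ)
    (_ : ∀ K₀ : ℕ, Bas S (fun J F A => ∀ (V : Type) (z : PtT F → V) (z' : LnT F → V)
      (G : V → MvPolynomial (Option (Fin m)) ℝ) (g : V → ℕ → MvPolynomial (Option (Fin m)) ℝ),
      Θ J F A V z z' G g → ∀ u₀ : F.Ω → U₀, Qu.P K₀ eQ J F A u₀ →
      ∃ (V₁ : Type) (z₁ : F.Ω → V₁), Cl2 (f J F) (vg a J F) A z₁ ∧
        CH (Pool.Agent.H49.Ent.cond F.p A True) (ctx c r₀ r Kc v lam n J F V z' g)
          (fun ω => (u₀ ω, (z₁ ω, y J F ω))) ≤ δ * q / 4 * J)),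
    ∀ K₀ : ℕ, Bas S (fun J F A => ∀ (V : Type) (z : PtT F → V) (z' : LnT F → V)
      (G : V → MvPolynomial (Option (Fin m)) ℝ) (g : V → ℕ → MvPolynomial (Option (Fin m)) ℝ),
      Θ J F A V z z' G g → ∀ u₀ : F.Ω → U₀, Qu.P K₀ eQ J F A u₀ →
      ∃ (V₁ : Type) (z₁ : F.Ω → V₁), Cl2 (f J F) (vg a J F) A z₁ ∧
        ∀ s : ℝ, 0 < s → s ≤ 2 ^ ((P + q) * J) →
        CH (Pool.Agent.H49.Ent.cond F.p A True) (Pool.AVG71.cod F ⌊v * J⌋₊ 0 (K + 1) s κ z' G)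
          (fun ω => (u₀ ω, (z₁ ω, y J F ω))) ≤ ε * q * J) := by
  classical
  obtain ⟨δ, hδ, Hp⟩ := jets_npx K hh hh1 (half_pos hε)
  refine ⟨δ, hδ, ?_⟩
  intro m S C₀ htm c r₀ r v w lam ρ g₀ e τ E pc s n rd κ I Kc P pN q d rG eG a Θ H U₀ Qu
    α γ f y hf hy hvy eQ hctx K₀
  have hq := H.q0
  have hv0 := H.ch.v0
  have hv1 : v ≤ 1 := by linarith [H.vq]
  have hyT : ∀ (J : ℕ) (F : Fam m J), ∃ φ : γ J F → ℕ, ∀ ω, F.T ω = φ (y J F ω) := by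
    intro J F
    obtain ⟨φ, hφ⟩ := hy J F
    exact ⟨fun x => (φ x).1, fun ω => (congrArg Prod.fst (hφ ω)).symm⟩
  obtain ⟨C₁, hC₁⟩ : ∃ C₁ : ℝ, C₁ =
    ((K + 1 + 1 : ℕ) : ℝ) * Real.log (2 * (2 ^ (2 * (K + 1) + 1) + 1) + 1) := ⟨_, rfl⟩
  obtain ⟨J₁, hJ₁⟩ := exists_nat_ge (C₁ / (ε / 2 * q))
  refine Bas.mono J₁ ((Hp htm H hf hy hvy eQ hctx K₀).and (Pool.GRW.tmc_bas htm one_pos)) ?_
  rintro J hJ F A ⟨h1, hA, -⟩ V z z' G g hg u₀ hu₀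
  have hJ0 : (0 : ℝ) ≤ J := Nat.cast_nonneg J
  have f1 : C₁ ≤ ε / 2 * q * J := by
    have e1 : (J₁ : ℝ) ≤ J := by exact_mod_cast hJ
    have e2 := hJ₁.trans e1
    rw [div_le_iff₀ (by positivity)] at e2
    linarith
  obtain ⟨V₁, z₁, hz₁, h2⟩ := h1 V z z' G g hg u₀ hu₀
  refine ⟨V₁, z₁, hz₁, fun σ hσ0 hσ => ?_⟩
  obtain ⟨q', hq'⟩ : ∃ q' : F.Ω → ℝ, q' = Pool.Agent.H49.Ent.cond F.p A True := ⟨_, rfl⟩
  have hq'l : IsLaw q' := by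
    rw [hq']
    exact isLaw_cond F.isLaw hA
  have h0 := hq'l.nonneg
  rw [← hq'] at h2 ⊢
  obtain ⟨Y, hY⟩ : ∃ Y : F.Ω → U₀ × (V₁ × γ J F), Y = fun ω => (u₀ ω, (z₁ ω, y J F ω)) := ⟨_, rfl⟩
  rw [← hY] at h2 ⊢
  obtain ⟨Cd, hCd⟩ : ∃ Cd : F.Ω → Fin (K + 1 + 1) → ℤ,
    Cd = Pool.AVG71.cod F ⌊v * J⌋₊ 0 (K + 1) σ κ z' G := ⟨_, rfl⟩
  rw [← hCd]
  obtain ⟨Jt, hJt⟩ : ∃ Jt : F.Ω → Fin (K + 2) → ℤ, Jt = ojs F κ v (P + q) z' G (K + 2) :=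
    ⟨_, rfl⟩
  rw [← hJt] at h2
  have s1 := CH_le_add h0 Cd Jt Y
  have s4 : CH q' Cd (fun ω => (Jt ω, Y ω)) ≤
      ((K + 1 + 1 : ℕ) : ℝ) * Real.log (2 * (2 ^ (2 * (K + 1) + 1) + 1) + 1) := by
    rw [hCd]
    refine cod_few hv0 (floor_le hv1 J) hσ0 hσ (fun x => ?_) hq'l _ 0
      (s := fun j => P + q - (j : ℕ) * v) (fun j _ _ => le_rfl) fun ω ω' _ _ e => ?_
    · have h3 := (H.lb J F A V z z' G g hg).deg x
      omega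
    · simp only [Prod.mk.injEq] at e
      obtain ⟨e1, e2⟩ := e
      rw [hY] at e2
      simp only [Prod.mk.injEq] at e2
      obtain ⟨φT, hφT⟩ := hyT J F
      refine ⟨by rw [hφT, hφT, e2.2.2], fun j _ hj => ?_⟩
      rw [hJt] at e1
      exact congrFun e1 ⟨j, by omega⟩
  have e3 : ε * q * J = ε / 2 * q * J + ε / 2 * q * J := by ring
  linarith

end Pool.NPZ
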